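import Pool.Agent.H668.Per.Def

set_option autoImplicit false

/-!
# A basis of periods, and Jensen's inequality
-/

open MeasureTheory Set Filter Topology ENNReal NNReal Metric
open scoped Pointwise

namespace Pool.Agent.H668.Per

/-- From an `η`-dense set of vectors one picks a basis which is close to a multiple of the standard
one. -/
theorem exists_basis (d : ℕ) {η : ℝ} (hη : 0 < η) (P : E (d + 3) → Prop)
    (hP : ∀ x, ∃ v, ‖x - v‖ ≤ η ∧ P v) :
    ∃ b : Module.Basis (Fin (d + 3)) ℝ (E (d + 3)), (∀ i, P (b i)) ∧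
      (∀ x i, |b.repr x i| ≤ (3 * ((d : ℝ) + 3) * η)⁻¹ * ‖x‖) ∧
      (∀ i, ‖b i‖ ≤ 5 * ((d : ℝ) + 3) * η) := by
  set nn : ℝ := (d : ℝ) + 3 with hnn
  have hnn3 : 3 ≤ nn := by
    have : (0 : ℝ) ≤ d := Nat.cast_nonneg d
    linarith
  set e : Module.Basis (Fin (d + 3)) ℝ (E (d + 3)) :=
    (EuclideanSpace.basisFun (Fin (d + 3)) ℝ).toBasis with he
  have hen : ∀ i, ‖e i‖ = 1 := by
    intro i
    rw [he, OrthonormalBasis.coe_toBasis]
    exact (EuclideanSpace.basisFun (Fin (d + 3)) ℝ).norm_eq_one i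
  have hre : ∀ x i, e.repr x i = x i := by
    intro x i
    simp [he]
  choose v hv using fun i : Fin (d + 3) => hP ((4 * nn * η) • e i)
  have hvn : ∀ i, ‖v i‖ ≤ 5 * nn * η := by
    intro i
    have h1 : ‖v i‖ ≤ ‖(4 * nn * η) • e i‖ + ‖(4 * nn * η) • e i - v i‖ := by
      have : v i = (4 * nn * η) • e i - ((4 * nn * η) • e i - v i) := by abel
      calc ‖v i‖ = ‖(4 * nn * η) • e i - ((4 * nn * η) • e i - v i)‖ := by rw [← this]
        _ ≤ _ := norm_sub_le _ _
    rw [norm_smul, hen, mul_one, Real.norm_eq_abs, abs_of_pos (by positivity)] at h1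
    have h2 := (hv i).1
    have h3 : 1 * η ≤ nn * η := by gcongr; linarith
    nlinarith
  set A : E (d + 3) →ₗ[ℝ] E (d + 3) := e.constr ℝ v with hA
  have hAe : ∀ i, A (e i) = v i := fun i => by rw [hA, Module.Basis.constr_basis]
  have hlow : ∀ x, 3 * nn * η * ‖x‖ ≤ ‖A x‖ := by
    intro x
    have h1 : A x - (4 * nn * η) • x = ∑ i, x i • (v i - (4 * nn * η) • e i) := by
      have h2 : x = ∑ i, x i • e i := by
        conv_lhs => rw [← e.sum_repr x]
        exact Finset.sum_congr rfl fun i _ => by rw [hre]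
      have h3 : A x = ∑ i, x i • v i := by
        conv_lhs => rw [h2]
        rw [map_sum]
        exact Finset.sum_congr rfl fun i _ => by rw [map_smul, hAe]
      have h4 : (4 * nn * η) • x = ∑ i, x i • ((4 * nn * η) • e i) := by
        conv_lhs => rw [h2]
        rw [Finset.smul_sum]
        exact Finset.sum_congr rfl fun i _ => by rw [smul_comm]
      rw [h3, h4, ← Finset.sum_sub_distrib]
      exact Finset.sum_congr rfl fun i _ => by rw [smul_sub]
    have h2 : ‖A x - (4 * nn * η) • x‖ ≤ nn * (‖x‖ * η) := by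
      rw [h1]
      have h3 : ∀ i ∈ Finset.univ, ‖x i • (v i - (4 * nn * η) • e i)‖ ≤ ‖x‖ * η := by
        intro i _
        rw [norm_smul, norm_sub_rev]
        have h4 : ‖x i‖ ≤ ‖x‖ := PiLp.norm_apply_le x i
        have h5 := (hv i).1
        gcongr
      refine (norm_sum_le _ _).trans ((Finset.sum_le_sum h3).trans (le_of_eq ?_))
      rw [Finset.sum_const, Finset.card_univ, Fintype.card_fin, nsmul_eq_mul]
      push_cast
      rfl
    have h3 : ‖(4 * nn * η) • x‖ = 4 * nn * η * ‖x‖ := by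
      rw [norm_smul, Real.norm_eq_abs, abs_of_pos (by positivity)]
    have h4 : ‖(4 * nn * η) • x‖ ≤ ‖A x‖ + ‖A x - (4 * nn * η) • x‖ := by
      have : (4 * nn * η) • x = A x - (A x - (4 * nn * η) • x) := by abel
      calc ‖(4 * nn * η) • x‖ = ‖A x - (A x - (4 * nn * η) • x)‖ := by rw [← this]
        _ ≤ _ := norm_sub_le _ _
    rw [h3] at h4
    nlinarith
  have hc : 0 < 3 * nn * η := by positivity
  have hinj : Function.Injective A := by
    rw [← LinearMap.ker_eq_bot, LinearMap.ker_eq_bot']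
    intro x hx
    have h1 := hlow x
    rw [hx, norm_zero] at h1
    have h2 : ‖x‖ ≤ 0 := by
      by_contra h
      push Not at h
      have := mul_pos hc h
      linarith
    exact norm_le_zero_iff.1 h2
  set f : E (d + 3) ≃ₗ[ℝ] E (d + 3) := LinearEquiv.ofInjectiveEndo A hinj with hf
  have hfA : ∀ x, f x = A x := fun x => rfl
  refine ⟨e.map f, ?_, ?_, ?_⟩
  · intro i
    rw [Module.Basis.map_apply, hfA, hAe]
    exact (hv i).2
  · intro x i
    rw [Module.Basis.map_repr, LinearEquiv.trans_apply, hre]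
    have h1 : |f.symm x i| ≤ ‖f.symm x‖ := by
      have := PiLp.norm_apply_le (f.symm x) i
      rwa [Real.norm_eq_abs] at this
    have h2 := hlow (f.symm x)
    rw [← hfA, f.apply_symm_apply] at h2
    refine h1.trans ?_
    rw [← div_eq_inv_mul, le_div_iff₀ hc]
    linarith
  · intro i
    rw [Module.Basis.map_apply, hfA, hAe]
    exact hvn i

/-- Periods form a group. -/
theorem per_span {n : ℕ} (F : E n → ℝ) (b : Module.Basis (Fin n) ℝ (E n))
    (hb : ∀ i, ∀ y, F (y + b i) = F y) (l : Submodule.span ℤ (Set.range b)) (x : E n) :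
    F (l +ᵥ x) = F x := by
  let P : AddSubgroup (E n) :=
    { carrier := {v | ∀ y, F (y + v) = F y}
      zero_mem' := fun y => by rw [add_zero]
      add_mem' := by
        intro u v hu hv y
        rw [← add_assoc, hv, hu]
      neg_mem' := by
        intro u hu y
        rw [← hu (y + -u), neg_add_cancel_right] }
  have h1 : Submodule.span ℤ (Set.range b) ≤ AddSubgroup.toIntSubmodule P := by
    rw [Submodule.span_le]
    rintro _ ⟨i, rfl⟩
    exact hb i
  have h2 : ∀ y, F (y + (l : E n)) = F y := h1 l.2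
  have h3 : (l +ᵥ x : E n) = (l : E n) + x := rfl
  rw [h3, add_comm, h2]

theorem tube_finite {n : ℕ} (δ : ℝ) (a : E n) {e : E n} (he : ‖e‖ = 1) :
    volume (tube δ a e) < ∞ := by
  have h : tube δ a e ⊆ closedBall a (δ + 1 / 2) := by
    rintro y ⟨h1, h2⟩
    rw [mem_closedBall, dist_eq_norm]
    have h3 : y - a = ((y - a) - (inner ℝ (y - a) e : ℝ) • e) + (inner ℝ (y - a) e : ℝ) • e := by
      abel
    rw [h3]
    refine (norm_add_le _ _).trans ?_
    rw [norm_smul, he, mul_one, Real.norm_eq_abs]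
    linarith
  exact (measure_mono h).trans_lt measure_closedBall_lt_top

/-- Jensen's inequality for averages. -/
theorem jensen {n : ℕ} {T : Set (E n)} (hT0 : volume T ≠ 0) (hT : volume T ≠ ∞) {q : ℝ}
    (hq : 1 ≤ q) {F : E n → ℝ} (hF : Measurable F) :
    ((volume T)⁻¹ * ∫⁻ y in T, ‖F y‖ₑ) ^ q ≤ (volume T)⁻¹ * ∫⁻ y in T, ‖F y‖ₑ ^ q := by
  have h := eLpNorm'_le_eLpNorm'_mul_rpow_measure_univ (μ := volume.restrict T) (f := F)
    one_pos hq hF.aestronglyMeasurable
  simp only [eLpNorm', ENNReal.rpow_one, Measure.restrict_apply MeasurableSet.univ,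
    univ_inter, inv_one, one_div] at h
  have hq0 : 0 < q := by linarith
  calc ((volume T)⁻¹ * ∫⁻ y in T, ‖F y‖ₑ) ^ q ≤
      ((volume T)⁻¹ * ((∫⁻ y in T, ‖F y‖ₑ ^ q) ^ q⁻¹ * volume T ^ (1 - q⁻¹))) ^ q := by
        gcongr
    _ = (volume T)⁻¹ * ∫⁻ y in T, ‖F y‖ₑ ^ q := by
        rw [ENNReal.mul_rpow_of_nonneg _ _ hq0.le, ENNReal.mul_rpow_of_nonneg _ _ hq0.le,
          ← ENNReal.rpow_mul, inv_mul_cancel₀ hq0.ne', ENNReal.rpow_one, ← ENNReal.rpow_mul,
          ENNReal.inv_rpow, ← ENNReal.rpow_neg, mul_left_comm, ← ENNReal.rpow_add _ _ hT0 hT,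
          mul_comm]
        congr 1
        have : -q + (1 - q⁻¹) * q = -1 := by field_simp; ring
        rw [this, ENNReal.rpow_neg_one]

end Pool.Agent.H668.Per
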