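import Mathlib

set_option autoImplicit false

/-!
# Sums over lattice points
-/

namespace Pool.Agent.H668.Per

/-- The cube of integer points. -/
noncomputable def Q (n R : ℕ) : Finset (Fin n → ℤ) := Fintype.piFinset fun _ => Finset.Icc (-(R : ℤ)) R

theorem mem_Q {n R : ℕ} {l : Fin n → ℤ} : l ∈ Q n R ↔ ∀ i, |l i| ≤ (R : ℤ) := by
  simp only [Q, Fintype.mem_piFinset, Finset.mem_Icc, abs_le]

theorem sum_inv_nat (N : ℕ) : ∑ t ∈ Finset.range N, 1 / ((t : ℝ) + 1) ≤ 1 + Real.log N := by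
  have h := harmonic_le_one_add_log N
  unfold harmonic at h
  push_cast at h
  simpa [one_div] using h

/-- The sum of `1 / |t|` over the nonzero integers of absolute value at most `N`. -/
theorem sum_inv_Icc (N : ℕ) :
    ∑ t ∈ (Finset.Icc (-(N : ℤ)) N).filter (fun t => t ≠ 0), 1 / |(t : ℝ)| ≤
      2 * (1 + Real.log N) := by
  have hsub : (Finset.Icc (-(N : ℤ)) N).filter (fun t => t ≠ 0) ⊆
      (Finset.range N).image (fun j : ℕ => (j : ℤ) + 1) ∪
      (Finset.range N).image (fun j : ℕ => -((j : ℤ) + 1)) := by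
    intro t ht
    simp only [Finset.mem_filter, Finset.mem_Icc] at ht
    simp only [Finset.mem_union, Finset.mem_image, Finset.mem_range]
    rcases lt_or_gt_of_ne ht.2 with h | h
    · right
      refine ⟨(-t - 1).toNat, ?_, ?_⟩ <;> omega
    · left
      refine ⟨(t - 1).toNat, ?_, ?_⟩ <;> omega
  have hnn : ∀ t : ℤ, 0 ≤ 1 / |(t : ℝ)| := fun t => by positivity
  refine (Finset.sum_le_sum_of_subset_of_nonneg hsub (fun t _ _ => hnn t)).trans ?_
  rw [Finset.sum_union, Finset.sum_image, Finset.sum_image]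
  · have h1 : ∀ x ∈ Finset.range N, 1 / |(((x : ℤ) + 1 : ℤ) : ℝ)| = 1 / ((x : ℝ) + 1) := by
      intro x _
      push_cast
      rw [abs_of_nonneg (by positivity)]
    have h2 : ∀ x ∈ Finset.range N, 1 / |((-((x : ℤ) + 1) : ℤ) : ℝ)| = 1 / ((x : ℝ) + 1) := by
      intro x _
      push_cast
      rw [abs_of_nonpos (by have : (0 : ℝ) ≤ x := Nat.cast_nonneg _; linarith)]
      congr 1
      ring
    rw [Finset.sum_congr rfl h1, Finset.sum_congr rfl h2]
    have := sum_inv_nat N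
    linarith
  · intro x _ y _ h
    simpa using h
  · intro x _ y _ h
    simpa using h
  · rw [Finset.disjoint_left]
    intro t h1 h2
    simp only [Finset.mem_image, Finset.mem_range] at h1 h2
    obtain ⟨x, _, hx⟩ := h1
    obtain ⟨y, _, hy⟩ := h2
    omega

/-- The sum of `1 / |t|` over a set of at most `N` nonzero integers. -/
theorem sum_inv_le (S : Finset ℤ) (h0 : ∀ t ∈ S, t ≠ 0) (N : ℕ) (hN : 1 ≤ N) (hS : S.card ≤ N) :
    ∑ t ∈ S, 1 / |(t : ℝ)| ≤ 3 * (1 + Real.log N) := by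
  have hN' : (0 : ℝ) < N := by exact_mod_cast hN
  have hlog : 0 ≤ Real.log N := Real.log_nonneg (by exact_mod_cast hN)
  have hnn : ∀ t : ℤ, 0 ≤ 1 / |(t : ℝ)| := fun t => by positivity
  rw [← Finset.sum_filter_add_sum_filter_not S (fun t => |t| ≤ (N : ℤ))]
  have h1 : ∑ t ∈ S.filter (fun t => |t| ≤ (N : ℤ)), 1 / |(t : ℝ)| ≤ 2 * (1 + Real.log N) := by
    refine le_trans ?_ (sum_inv_Icc N)
    apply Finset.sum_le_sum_of_subset_of_nonneg
    · intro t ht
      simp only [Finset.mem_filter, Finset.mem_Icc, abs_le] at ht ⊢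
      exact ⟨ht.2, h0 t ht.1⟩
    · intro t _ _
      exact hnn t
  have h2 : ∑ t ∈ S.filter (fun t => ¬ |t| ≤ (N : ℤ)), 1 / |(t : ℝ)| ≤ 1 := by
    have h3 : ∀ t ∈ S.filter (fun t => ¬ |t| ≤ (N : ℤ)), 1 / |(t : ℝ)| ≤ 1 / N := by
      intro t ht
      simp only [Finset.mem_filter, not_le] at ht
      have h4 : (N : ℝ) ≤ |(t : ℝ)| := by
        have := ht.2.le
        exact_mod_cast this
      gcongr
    refine (Finset.sum_le_sum h3).trans ?_
    rw [Finset.sum_const, nsmul_eq_mul]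
    have h5 : ((S.filter (fun t => ¬ |t| ≤ (N : ℤ))).card : ℝ) ≤ N := by
      exact_mod_cast (Finset.card_filter_le _ _).trans hS
    rw [mul_one_div, div_le_one hN']
    exact h5
  linarith

/-- Number of integers in an interval. -/
theorem card_interval (S : Finset ℤ) (a c : ℤ) (ha : a ≠ 0) (t : ℝ) (ht : 0 ≤ t)
    (hS : ∀ x ∈ S, |((a * x - c : ℤ) : ℝ)| ≤ t) : (S.card : ℝ) ≤ 2 * t / |(a : ℝ)| + 1 := by
  have ha' : (0 : ℝ) < |(a : ℝ)| := abs_pos.2 (by exact_mod_cast ha)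
  rcases S.eq_empty_or_nonempty with rfl | hne
  · simp only [Finset.card_empty, Nat.cast_zero]
    positivity
  have hsub : S ⊆ Finset.Icc (S.min' hne) (S.max' hne) := by
    intro x hx
    exact Finset.mem_Icc.2 ⟨S.min'_le x hx, S.le_max' x hx⟩
  have h1 := Finset.card_le_card hsub
  rw [Int.card_Icc] at h1
  have hmm : S.min' hne ≤ S.max' hne := S.min'_le _ (S.max'_mem hne)
  have h2 : (S.card : ℤ) ≤ S.max' hne - S.min' hne + 1 := by omega
  have h3 : (S.card : ℝ) ≤ (S.max' hne : ℝ) - S.min' hne + 1 := by exact_mod_cast h2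
  have h4 := hS _ (S.max'_mem hne)
  have h5 := hS _ (S.min'_mem hne)
  have h6 : |(a : ℝ)| * ((S.max' hne : ℝ) - S.min' hne) ≤ 2 * t := by
    have h7 : (0 : ℝ) ≤ (S.max' hne : ℝ) - S.min' hne := by
      have : ((S.min' hne : ℤ) : ℝ) ≤ S.max' hne := by exact_mod_cast hmm
      linarith
    have h8 : |(a : ℝ)| * ((S.max' hne : ℝ) - S.min' hne) =
        |((a * S.max' hne - c : ℤ) : ℝ) - ((a * S.min' hne - c : ℤ) : ℝ)| := by
      rw [← abs_of_nonneg h7, ← abs_mul]
      congr 1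
      push_cast
      ring
    rw [h8]
    calc _ ≤ |((a * S.max' hne - c : ℤ) : ℝ)| + |((a * S.min' hne - c : ℤ) : ℝ)| := abs_sub _ _
      _ ≤ _ := by linarith
  have h9 : (S.max' hne : ℝ) - S.min' hne ≤ 2 * t / |(a : ℝ)| := by
    rw [le_div_iff₀ ha']
    linarith
  linarith

/-- The minors. -/
def tt {n : ℕ} (k : Fin n → ℤ) (i0 : Fin n) (l : Fin n → ℤ) (j : Fin n) : ℤ :=
  k i0 * l j - k j * l i0

/-- One class of lattice points. -/
theorem lat_sum (d R : ℕ) (hR : 1 ≤ R) (k : Fin (d + 3) → ℤ) (i0 j0 : Fin (d + 3))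
    (hij : i0 ≠ j0) (hk0 : k i0 ≠ 0) (hk : ∀ j, |k j| ≤ |k i0|) :
    ∑ l ∈ (Q (d + 3) R).filter (fun l => tt k i0 l j0 ≠ 0 ∧ ∀ j, |tt k i0 l j| ≤ |tt k i0 l j0|),
      1 / (|(tt k i0 l j0 : ℝ)| * max 1 |(l i0 : ℝ)|) ≤
      18 * 8 ^ (d + 1) * (1 + Real.log (2 * R + 1)) ^ 2 *
        ((R : ℝ) ^ (d + 1) / |(k i0 : ℝ)| + 1) := by
  set L : ℝ := 1 + Real.log (2 * R + 1) with hL
  have hR' : (1 : ℝ) ≤ R := by exact_mod_cast hR
  have hL1 : 1 ≤ L := by
    have : 0 ≤ Real.log (2 * R + 1) := Real.log_nonneg (by linarith)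
    linarith
  have hA : (0 : ℝ) < |(k i0 : ℝ)| := abs_pos.2 (by exact_mod_cast hk0)
  set A : ℝ := |(k i0 : ℝ)| with hAdef
  set I : Finset ℤ := Finset.Icc (-(R : ℤ)) R with hI
  set S := (Q (d + 3) R).filter
    (fun l => tt k i0 l j0 ≠ 0 ∧ ∀ j, |tt k i0 l j| ≤ |tt k i0 l j0|) with hS
  set τ : ℤ × ℤ → ℤ := fun p => k i0 * p.2 - k j0 * p.1 with hτ
  set P : Finset (ℤ × ℤ) := (I ×ˢ I).filter (fun p => τ p ≠ 0) with hP
  have hmaps : ∀ l ∈ S, (l i0, l j0) ∈ P := by
    intro l hl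
    simp only [hS, Finset.mem_filter, mem_Q] at hl
    simp only [hP, Finset.mem_filter, Finset.mem_product, hI, Finset.mem_Icc, hτ]
    exact ⟨⟨abs_le.1 (hl.1 i0), abs_le.1 (hl.1 j0)⟩, hl.2.1⟩
  rw [← Finset.sum_fiberwise_of_maps_to hmaps]
  -- the number of points in a fibre
  have hfib : ∀ p ∈ P, ((S.filter (fun l => (l i0, l j0) = p)).card : ℝ) ≤
      (2 * |(τ p : ℝ)| / A + 1) ^ (d + 1) := by
    intro p hp
    set B : Fin (d + 3) → Finset ℤ := fun j => if j = i0 then {p.1} else if j = j0 then {p.2} else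
      I.filter (fun x => |((k i0 * x - k j * p.1 : ℤ) : ℝ)| ≤ |(τ p : ℝ)|) with hB
    have hsub : S.filter (fun l => (l i0, l j0) = p) ⊆ Fintype.piFinset B := by
      intro l hl
      simp only [hS, Finset.mem_filter, mem_Q] at hl
      obtain ⟨⟨hl1, hl2, hl3⟩, hl4⟩ := hl
      rw [Fintype.mem_piFinset]
      intro j
      have e1 : l i0 = p.1 := by rw [← hl4]
      have e2 : l j0 = p.2 := by rw [← hl4]
      simp only [hB]
      split_ifs with h1 h2
      · rw [h1, e1]; simp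
      · rw [h2, e2]; simp
      · simp only [Finset.mem_filter, hI, Finset.mem_Icc]
        refine ⟨abs_le.1 (hl1 j), ?_⟩
        have := hl3 j
        unfold tt at this
        rw [e1, e2] at this
        simp only [hτ]
        exact_mod_cast this
    have h1 := Finset.card_le_card hsub
    rw [Fintype.card_piFinset] at h1
    have h2 : ((∏ j, (B j).card : ℕ) : ℝ) ≤
        ∏ j, (if j = i0 then 1 else if j = j0 then 1 else (2 * |(τ p : ℝ)| / A + 1)) := by
      push_cast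
      apply Finset.prod_le_prod
      · intro j _; positivity
      · intro j _
        simp only [hB]
        split_ifs with h1 h2
        · simp
        · simp
        · apply card_interval _ (k i0) (k j * p.1) hk0 _ (abs_nonneg _)
          intro x hx
          simp only [Finset.mem_filter] at hx
          exact hx.2
    have h3 : ∏ j, (if j = i0 then (1 : ℝ) else if j = j0 then 1 else (2 * |(τ p : ℝ)| / A + 1)) =
        (2 * |(τ p : ℝ)| / A + 1) ^ (d + 1) := by
      have h4 : ∀ j : Fin (d + 3), (if j = i0 then (1 : ℝ) else if j = j0 then 1 else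
          (2 * |(τ p : ℝ)| / A + 1)) =
          if j ∈ ({i0, j0} : Finset (Fin (d + 3)))ᶜ then (2 * |(τ p : ℝ)| / A + 1) else 1 := by
        intro j
        by_cases h5 : j = i0
        · simp [h5]
        · by_cases h6 : j = j0
          · simp [h6]
          · simp [h5, h6]
      rw [Finset.prod_congr rfl fun j _ => h4 j, Finset.prod_ite_mem, Finset.univ_inter,
        Finset.prod_const, Finset.card_compl, Finset.card_pair hij, Fintype.card_fin]
      congr 1
    rw [h3] at h2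
    exact (Nat.cast_le.2 h1).trans h2
  -- bound of the inner sums
  have hterm : ∀ p ∈ P, ∑ l ∈ S.filter (fun l => (l i0, l j0) = p),
      1 / (|(tt k i0 l j0 : ℝ)| * max 1 |(l i0 : ℝ)|) ≤
      2 ^ (d + 1) * ((2 * (4 * R) ^ d / A + 1 / |(τ p : ℝ)|) * (1 / max 1 |(p.1 : ℝ)|)) := by
    intro p hp
    have hval : ∀ l ∈ S.filter (fun l => (l i0, l j0) = p),
        1 / (|(tt k i0 l j0 : ℝ)| * max 1 |(l i0 : ℝ)|) =
        1 / (|(τ p : ℝ)| * max 1 |(p.1 : ℝ)|) := by
      intro l hl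
      simp only [Finset.mem_filter] at hl
      rw [← hl.2]
      rfl
    rw [Finset.sum_congr rfl hval, Finset.sum_const, nsmul_eq_mul]
    have hp' := hp
    simp only [hP, Finset.mem_filter, Finset.mem_product, hI, Finset.mem_Icc] at hp'
    obtain ⟨⟨hm, hs⟩, ht0⟩ := hp'
    have hτpos : (0 : ℝ) < |(τ p : ℝ)| := abs_pos.2 (by exact_mod_cast ht0)
    set t : ℝ := |(τ p : ℝ)| with ht
    have hmax : (1 : ℝ) ≤ max 1 |(p.1 : ℝ)| := le_max_left _ _
    set μ : ℝ := max 1 |(p.1 : ℝ)| with hμ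
    have hμ0 : 0 < μ := by linarith
    -- `t / A ≤ 2 R`
    have htA : t / A ≤ 2 * R := by
      rw [div_le_iff₀ hA]
      have h1 : t ≤ A * |(p.2 : ℝ)| + |(k j0 : ℝ)| * |(p.1 : ℝ)| := by
        rw [ht, hAdef, ← abs_mul, ← abs_mul]
        simp only [hτ]
        push_cast
        exact abs_sub _ _
      have h2 : |(p.2 : ℝ)| ≤ R := by
        rw [← Int.cast_abs]
        exact_mod_cast abs_le.2 hs
      have h3 : |(p.1 : ℝ)| ≤ R := by
        rw [← Int.cast_abs]
        exact_mod_cast abs_le.2 hm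
      have h4 : |(k j0 : ℝ)| ≤ A := by
        rw [hAdef, ← Int.cast_abs, ← Int.cast_abs]
        exact_mod_cast hk j0
      have h5 : |(k j0 : ℝ)| * |(p.1 : ℝ)| ≤ A * R := by gcongr
      have h6 : A * |(p.2 : ℝ)| ≤ A * R := by gcongr
      linarith
    have hcard : ((S.filter (fun l => (l i0, l j0) = p)).card : ℝ) ≤
        2 ^ (d + 1) * ((2 * t / A) * (4 * R) ^ d + 1) := by
      refine (hfib p hp).trans ?_
      rw [← ht]
      have hx : 0 ≤ 2 * t / A := by positivity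
      have hx2 : 2 * t / A ≤ 4 * R := by
        have : 2 * t / A = 2 * (t / A) := by ring
        rw [this]; linarith
      rcases le_total (2 * t / A) 1 with h1 | h1
      · calc (2 * t / A + 1) ^ (d + 1) ≤ (1 + 1) ^ (d + 1) := by gcongr
          _ = 2 ^ (d + 1) * (0 + 1) := by norm_num
          _ ≤ _ := by gcongr; positivity
      · calc (2 * t / A + 1) ^ (d + 1) ≤ (2 * t / A + 2 * t / A) ^ (d + 1) := by gcongr
          _ = 2 ^ (d + 1) * ((2 * t / A) ^ (d + 1)) := by rw [← mul_pow]; congr 1; ring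
          _ = 2 ^ (d + 1) * ((2 * t / A) * (2 * t / A) ^ d + 0) := by rw [pow_succ]; ring
          _ ≤ _ := by gcongr; norm_num
    calc ((S.filter (fun l => (l i0, l j0) = p)).card : ℝ) * (1 / (t * μ)) ≤
        (2 ^ (d + 1) * ((2 * t / A) * (4 * R) ^ d + 1)) * (1 / (t * μ)) := by gcongr
      _ = _ := by field_simp
  refine (Finset.sum_le_sum hterm).trans ?_
  rw [← Finset.mul_sum]
  -- sum over the pairs
  have hpairs : ∑ p ∈ P, (2 * (4 * R) ^ d / A + 1 / |(τ p : ℝ)|) * (1 / max 1 |(p.1 : ℝ)|) ≤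
      ∑ m ∈ I, ((2 * R + 1) * (2 * (4 * R) ^ d / A) + 3 * L) * (1 / max 1 |(m : ℝ)|) := by
    have h1 : P ⊆ I ×ˢ I := Finset.filter_subset _ _
    have h2 : ∑ p ∈ P, (2 * (4 * R) ^ d / A + 1 / |(τ p : ℝ)|) * (1 / max 1 |(p.1 : ℝ)|) =
        ∑ p ∈ I ×ˢ I, if τ p ≠ 0 then (2 * (4 * R) ^ d / A + 1 / |(τ p : ℝ)|) *
          (1 / max 1 |(p.1 : ℝ)|) else 0 := by
      rw [hP, Finset.sum_filter]
    rw [h2, Finset.sum_product]
    refine Finset.sum_le_sum fun m hm => ?_
    rw [← Finset.sum_filter]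
    have h3 : ∑ s ∈ I.filter (fun s => τ (m, s) ≠ 0), (2 * (4 * R) ^ d / A + 1 / |(τ (m, s) : ℝ)|) *
        (1 / max 1 |((m, s).1 : ℝ)|) =
        (∑ s ∈ I.filter (fun s => τ (m, s) ≠ 0), (2 * (4 * R) ^ d / A + 1 / |(τ (m, s) : ℝ)|)) *
        (1 / max 1 |(m : ℝ)|) := by
      rw [Finset.sum_mul]
    rw [h3]
    gcongr
    rw [Finset.sum_add_distrib, Finset.sum_const, nsmul_eq_mul]
    have hcI : ((I.filter (fun s => τ (m, s) ≠ 0)).card : ℕ) ≤ 2 * R + 1 := by
      refine (Finset.card_filter_le _ _).trans ?_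
      rw [hI, Int.card_Icc]
      omega
    have hcI' : (((I.filter (fun s => τ (m, s) ≠ 0)).card : ℕ) : ℝ) ≤ 2 * R + 1 := by
      exact_mod_cast hcI
    have h4 : ∑ s ∈ I.filter (fun s => τ (m, s) ≠ 0), 1 / |(τ (m, s) : ℝ)| ≤ 3 * L := by
      have hinj : Set.InjOn (fun s => τ (m, s)) (I.filter (fun s => τ (m, s) ≠ 0)) := by
        intro x _ y _ h
        simp only [hτ] at h
        have : k i0 * x = k i0 * y := by linarith
        exact mul_left_cancel₀ hk0 this
      rw [← Finset.sum_image (f := fun t : ℤ => 1 / |(t : ℝ)|) hinj]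
      have h5 := sum_inv_le ((I.filter (fun s => τ (m, s) ≠ 0)).image (fun s => τ (m, s)))
        (by
          intro t ht
          simp only [Finset.mem_image, Finset.mem_filter] at ht
          obtain ⟨s, ⟨_, hs⟩, rfl⟩ := ht
          exact hs) (2 * R + 1) (by omega) (Finset.card_image_le.trans hcI)
      refine h5.trans (le_of_eq ?_)
      rw [hL]
      push_cast
      ring
    have h6 : (((I.filter (fun s => τ (m, s) ≠ 0)).card : ℕ) : ℝ) * (2 * (4 * R) ^ d / A) ≤
        (2 * R + 1) * (2 * (4 * R) ^ d / A) := by gcongr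
    linarith
  have hmax : ∑ m ∈ I, 1 / max 1 |(m : ℝ)| ≤ 3 * L := by
    have h1 : (0 : ℤ) ∈ I := by simp [hI]
    rw [← Finset.sum_filter_add_sum_filter_not I (fun m => m ≠ 0)]
    have h2 : ∑ m ∈ I.filter (fun m => m ≠ 0), 1 / max 1 |(m : ℝ)| ≤ 2 * (1 + Real.log R) := by
      refine le_trans (le_of_eq ?_) (sum_inv_Icc R)
      refine Finset.sum_congr rfl fun m hm => ?_
      simp only [Finset.mem_filter] at hm
      congr 1
      rw [max_eq_right]
      rw [← Int.cast_abs]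
      exact_mod_cast Int.one_le_abs hm.2
    have h3 : ∑ m ∈ I.filter (fun m => ¬ m ≠ 0), 1 / max 1 |(m : ℝ)| ≤ 1 := by
      have h4 : I.filter (fun m => ¬ m ≠ 0) = {0} := by
        ext m
        simp only [Finset.mem_filter, Finset.mem_singleton, not_not]
        constructor
        · exact fun h => h.2
        · intro h; exact ⟨h ▸ h1, h⟩
      rw [h4]
      simp
    have h5 : Real.log R ≤ Real.log (2 * R + 1) := Real.log_le_log (by linarith) (by linarith)
    linarith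
  have hfin : ∑ m ∈ I, ((2 * R + 1) * (2 * (4 * R) ^ d / A) + 3 * L) * (1 / max 1 |(m : ℝ)|) ≤
      ((2 * R + 1) * (2 * (4 * R) ^ d / A) + 3 * L) * (3 * L) := by
    rw [← Finset.mul_sum]
    gcongr
  calc 2 ^ (d + 1) * ∑ p ∈ P, (2 * (4 * R) ^ d / A + 1 / |(τ p : ℝ)|) * (1 / max 1 |(p.1 : ℝ)|)
      ≤ 2 ^ (d + 1) * (((2 * R + 1) * (2 * (4 * R) ^ d / A) + 3 * L) * (3 * L)) := by
        gcongr
        exact hpairs.trans hfin
    _ ≤ 2 ^ (d + 1) * (((3 * R) * (2 * (4 * R) ^ d / A) + 3 * L) * (3 * L)) := by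
        gcongr
        linarith
    _ = 2 ^ (d + 1) * (18 * 4 ^ d * ((R : ℝ) ^ (d + 1) / A) * L + 9 * L ^ 2) := by
        rw [mul_pow, pow_succ]
        ring
    _ ≤ 2 ^ (d + 1) * (18 * 4 ^ (d + 1) * ((R : ℝ) ^ (d + 1) / A) * L ^ 2 +
          18 * 4 ^ (d + 1) * L ^ 2) := by
        have h1 : L ≤ L ^ 2 := by nlinarith
        have h2 : (4 : ℝ) ^ d ≤ 4 ^ (d + 1) := pow_le_pow_right₀ (by norm_num) (by omega)
        have h3 : (9 : ℝ) ≤ 18 * 4 ^ (d + 1) := by
          have : (1 : ℝ) ≤ 4 ^ (d + 1) := one_le_pow₀ (by norm_num)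
          linarith
        gcongr
    _ = _ := by
        have : (8 : ℝ) ^ (d + 1) = 2 ^ (d + 1) * 4 ^ (d + 1) := by rw [← mul_pow]; norm_num
        rw [this]
        ring

end Pool.Agent.H668.Per
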