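import Pool.Agent.H668.Per.Point
import Pool.Agent.H668.Per.LatSum

set_option autoImplicit false

/-!
# Orthogonality of characters, Bessel's inequality, and averaging over translates
-/

open MeasureTheory Set Filter Topology ENNReal NNReal Metric
open scoped Pointwise

namespace Pool.Agent.H668.Per

variable {n : ℕ} (b : Module.Basis (Fin n) ℝ (E n))

/-- the fundamental cell -/
abbrev F0 : Set (E n) := ZSpan.fundamentalDomain b

theorem inv_inst : VAddInvariantMeasure (Submodule.span ℤ (Set.range b)) (E n) volume :=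
  (inferInstance : VAddInvariantMeasure (Submodule.span ℤ (Set.range b)).toAddSubgroup (E n)
      volume)

theorem F0_lt_top : volume (F0 b) < ∞ := (ZSpan.fundamentalDomain_isBounded b).measure_lt_top

theorem F0_ne_zero : volume (F0 b) ≠ 0 := ZSpan.measure_fundamentalDomain_ne_zero b

/-- A translate of the fundamental cell. -/
theorem fund_translate (x0 : E n) :
    IsAddFundamentalDomain (Submodule.span ℤ (Set.range b)) (x0 +ᵥ F0 b) volume := by
  have := inv_inst b
  exact (ZSpan.isAddFundamentalDomain b volume).vadd_of_comm x0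

/-- Integrals of periodic functions are translation invariant. -/
theorem int_translate {f : E n → ℂ}
    (hf : ∀ (l : Submodule.span ℤ (Set.range b)) x, f (l +ᵥ x) = f x) (x0 : E n) :
    ∫ z in F0 b, f (x0 + z) = ∫ z in F0 b, f z := by
  have := inv_inst b
  have h1 := (fund_translate b x0).setIntegral_eq (ZSpan.isAddFundamentalDomain b volume) hf
  rw [← h1]
  have h2 := (measurePreserving_add_left (volume : Measure (E n)) x0).setIntegral_image_emb
    (measurableEmbedding_addLeft x0) f (F0 b)
  exact h2.symm

theorem lint_translate {f : E n → ℝ≥0∞}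
    (hf : ∀ (l : Submodule.span ℤ (Set.range b)) x, f (l +ᵥ x) = f x) (x0 : E n) :
    ∫⁻ z in F0 b, f (x0 + z) = ∫⁻ z in F0 b, f z := by
  have := inv_inst b
  have h1 := (fund_translate b x0).setLIntegral_eq (ZSpan.isAddFundamentalDomain b volume) f hf
  rw [← h1]
  have h2 := (measurePreserving_add_left (volume : Measure (E n)) x0).setLIntegral_comp_emb
    (measurableEmbedding_addLeft x0) f (F0 b)
  exact h2

theorem ch_periodic (k : Fin n → ℤ) (l : Submodule.span ℤ (Set.range b)) (x : E n) :
    ch b k (l +ᵥ x) = ch b k x := by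
  have : (l +ᵥ x : E n) = (l : E n) + x := rfl
  rw [this, ch_add, ch_lattice b l.2, one_mul]

theorem ortho {k : Fin n → ℤ} (hk : k ≠ 0) : ∫ z in F0 b, ch b k z = 0 := by
  obtain ⟨i, hi⟩ : ∃ i, k i ≠ 0 := by
    by_contra h
    push Not at h
    exact hk (funext h)
  have hi' : (k i : ℝ) ≠ 0 := by exact_mod_cast hi
  set x0 : E n := (1 / (2 * (k i : ℝ))) • b i with hx0
  have h1 : ph b k x0 = 1 / 2 := by
    rw [hx0, ph_smul]
    have h2 : ph b k (b i) = k i := by
      unfold ph
      rw [Finset.sum_eq_single i]
      · simp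
      · intro j _ hj
        simp [hj.symm]
      · simp
    rw [h2]
    field_simp
  have h2 : ch b k x0 = -1 := by
    unfold ch
    rw [h1]
    have : (((2 * Real.pi * (1 / 2) : ℝ) : ℂ)) * Complex.I = Real.pi * Complex.I := by
      push_cast
      ring
    rw [this, Complex.exp_pi_mul_I]
  have h3 := int_translate b (ch_periodic b k) x0
  have h4 : ∫ z in F0 b, ch b k (x0 + z) = - ∫ z in F0 b, ch b k z := by
    rw [← integral_neg]
    congr 1
    funext z
    rw [ch_add, h2]
    ring
  rw [h4] at h3
  have h5 : (2 : ℂ) * ∫ z in F0 b, ch b k z = 0 := by linear_combination -h3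
  simpa using h5

/-- the Fourier coefficients -/
noncomputable def gh (g : E n → ℝ) (k : Fin n → ℤ) : ℂ :=
  ∫ z in F0 b, (g z : ℂ) * ch b k (-z)

theorem ch_conj (k : Fin n → ℤ) (x : E n) : (starRingEnd ℂ) (ch b k x) = ch b k (-x) := by
  unfold ch
  rw [← Complex.exp_conj, map_mul, Complex.conj_ofReal, Complex.conj_I, ph_neg]
  congr 1
  push_cast
  ring

theorem integrableOn_ch {f : E n → ℂ} (hf : IntegrableOn f (F0 b)) (k : Fin n → ℤ) :
    IntegrableOn (fun z => f z * ch b k z) (F0 b) := by
  have h : Integrable (fun z => ch b k z * f z) (volume.restrict (F0 b)) := by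
    refine Integrable.bdd_mul (c := 1) hf ?_ ?_
    · exact (ch_cont b k).aestronglyMeasurable
    · exact Eventually.of_forall fun v => (ch_norm b k v).le
  exact h.congr (Eventually.of_forall fun z => mul_comm _ _)

theorem integrableOn_ch_neg {f : E n → ℂ} (hf : IntegrableOn f (F0 b)) (k : Fin n → ℤ) :
    IntegrableOn (fun z => f z * ch b k (-z)) (F0 b) := by
  have h : Integrable (fun z => ch b k (-z) * f z) (volume.restrict (F0 b)) := by
    refine Integrable.bdd_mul (c := 1) hf ?_ ?_
    · exact ((ch_cont b k).comp continuous_neg).aestronglyMeasurable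
    · exact Eventually.of_forall fun v => (ch_norm b k (-v)).le
  exact h.congr (Eventually.of_forall fun z => mul_comm _ _)

/-- Bessel's inequality. -/
theorem bessel (S : Finset (Fin n → ℤ)) {g : E n → ℝ} (hg : IntegrableOn g (F0 b))
    (hg2 : IntegrableOn (fun z => g z ^ 2) (F0 b)) :
    ∑ k ∈ S, ‖gh b g k‖ ^ 2 ≤ (volume (F0 b)).toReal * ∫ z in F0 b, g z ^ 2 := by
  set V := (volume (F0 b)).toReal with hV
  have hVpos : 0 < V := ENNReal.toReal_pos (F0_ne_zero b) (F0_lt_top b).ne
  set G := gh b g with hG
  set P : E n → ℂ := fun z => ∑ k ∈ S, G k * ch b k z with hP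
  have hgc : IntegrableOn (fun z => (g z : ℂ)) (F0 b) := hg.ofReal
  have hone : IntegrableOn (fun _ : E n => (1 : ℂ)) (F0 b) := by
    rw [integrableOn_const_iff]
    right
    exact F0_lt_top b
  -- the cross term
  have hcross : ∫ z in F0 b, (g z : ℂ) * (starRingEnd ℂ) (P z) =
      ((∑ k ∈ S, ‖G k‖ ^ 2 : ℝ) : ℂ) := by
    have h1 : ∀ z, (g z : ℂ) * (starRingEnd ℂ) (P z) =
        ∑ k ∈ S, (starRingEnd ℂ) (G k) * ((g z : ℂ) * ch b k (-z)) := by
      intro z
      simp only [hP, map_sum, map_mul, ch_conj, Finset.mul_sum]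
      exact Finset.sum_congr rfl fun k _ => by ring
    simp_rw [h1]
    rw [integral_finsetSum]
    · push_cast
      refine Finset.sum_congr rfl fun k _ => ?_
      rw [integral_const_mul]
      change (starRingEnd ℂ) (G k) * G k = _
      rw [← Complex.normSq_eq_conj_mul_self, Complex.normSq_eq_norm_sq]
      push_cast
      rfl
    · intro k _
      exact (integrableOn_ch_neg b hgc k).const_mul _
  -- the square of the polynomial
  have hsq : ∫ z in F0 b, P z * (starRingEnd ℂ) (P z) =
      ((V * ∑ k ∈ S, ‖G k‖ ^ 2 : ℝ) : ℂ) := by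
    have h1 : ∀ z, P z * (starRingEnd ℂ) (P z) =
        ∑ k ∈ S, ∑ l ∈ S, (G k * (starRingEnd ℂ) (G l)) * ch b (fun i => k i - l i) z := by
      intro z
      simp only [hP, map_sum, map_mul, Finset.sum_mul, Finset.mul_sum]
      rw [Finset.sum_comm]
      refine Finset.sum_congr rfl fun k _ => Finset.sum_congr rfl fun l _ => ?_
      rw [← ch_diff]
      ring
    have hint : ∀ k : Fin n → ℤ, IntegrableOn (fun z => ch b k z) (F0 b) := by
      intro k
      have := integrableOn_ch b hone k
      simpa using this
    simp_rw [h1]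
    rw [integral_finsetSum]
    · rw [Complex.ofReal_mul, Complex.ofReal_sum, Finset.mul_sum]
      refine Finset.sum_congr rfl fun k hk => ?_
      rw [integral_finsetSum]
      · rw [Finset.sum_eq_single k]
        · have h0 : (fun i => k i - k i) = (0 : Fin n → ℤ) := by funext i; simp
          rw [integral_const_mul, h0]
          have h2 : ∫ z in F0 b, ch b 0 z = (V : ℂ) := by
            simp only [ch_zero]
            rw [setIntegral_const]
            simp [hV, Measure.real]
          rw [h2, mul_comm (G k), ← Complex.normSq_eq_conj_mul_self, Complex.normSq_eq_norm_sq]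
          push_cast
          ring
        · intro l _ hl
          rw [integral_const_mul, ortho b, mul_zero]
          intro h
          apply hl
          funext i
          have := congrFun h i
          simp only [Pi.zero_apply] at this
          omega
        · intro h
          exact absurd hk h
      · intro l _
        exact (hint _).const_mul _
    · intro k _
      exact integrable_finsetSum _ fun l _ => (hint _).const_mul _
  have hPc : Continuous P := by
    simp only [hP]
    exact continuous_finsetSum _ fun k _ => continuous_const.mul (ch_cont b k)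
  have hPb : ∀ z, ‖P z‖ ≤ ∑ k ∈ S, ‖G k‖ := by
    intro z
    simp only [hP]
    refine (norm_sum_le _ _).trans (Finset.sum_le_sum fun k _ => ?_)
    rw [norm_mul, ch_norm, mul_one]
  have hi1 : IntegrableOn (fun z => (g z : ℂ) * (starRingEnd ℂ) (P z)) (F0 b) := by
    have h : Integrable (fun z => (starRingEnd ℂ) (P z) * (g z : ℂ))
        (volume.restrict (F0 b)) := by
      refine Integrable.bdd_mul (c := ∑ k ∈ S, ‖G k‖) hgc ?_ ?_
      · exact (Complex.continuous_conj.comp hPc).aestronglyMeasurable
      · exact Eventually.of_forall fun z => by rw [RCLike.norm_conj]; exact hPb z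
    exact h.congr (Eventually.of_forall fun z => mul_comm _ _)
  have hi2 : IntegrableOn (fun z => P z * (starRingEnd ℂ) (P z)) (F0 b) := by
    have h : Integrable (fun z => (P z * (starRingEnd ℂ) (P z)) * (1 : ℂ))
        (volume.restrict (F0 b)) := by
      refine Integrable.bdd_mul (c := (∑ k ∈ S, ‖G k‖) * (∑ k ∈ S, ‖G k‖)) hone ?_ ?_
      · exact (hPc.mul (Complex.continuous_conj.comp hPc)).aestronglyMeasurable
      · exact Eventually.of_forall fun z => by
          rw [norm_mul, RCLike.norm_conj]
          have := hPb z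
          gcongr
    exact h.congr (Eventually.of_forall fun z => mul_one _)
  have hi3 : IntegrableOn (fun z => ((g z ^ 2 : ℝ) : ℂ)) (F0 b) := hg2.ofReal
  set A : ℝ := ∑ k ∈ S, ‖G k‖ ^ 2 with hA
  have hkey : 0 ≤ ∫ z in F0 b, ‖(V : ℂ) * (g z : ℂ) - P z‖ ^ 2 :=
    integral_nonneg fun z => by positivity
  have hexp : ((∫ z in F0 b, ‖(V : ℂ) * (g z : ℂ) - P z‖ ^ 2 : ℝ) : ℂ) =
      ((V ^ 2 * (∫ z in F0 b, g z ^ 2) - 2 * V * A + V * A : ℝ) : ℂ) := by
    rw [← integral_complex_ofReal]
    have h1 : ∀ z, ((‖(V : ℂ) * (g z : ℂ) - P z‖ ^ 2 : ℝ) : ℂ) =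
        (V : ℂ) ^ 2 * ((g z ^ 2 : ℝ) : ℂ) - (V : ℂ) * ((g z : ℂ) * (starRingEnd ℂ) (P z)) -
          (V : ℂ) * (starRingEnd ℂ) ((g z : ℂ) * (starRingEnd ℂ) (P z)) +
          P z * (starRingEnd ℂ) (P z) := by
      intro z
      rw [← Complex.normSq_eq_norm_sq, Complex.normSq_eq_conj_mul_self]
      simp only [map_sub, map_mul, Complex.conj_ofReal, Complex.conj_conj]
      push_cast
      ring
    have h2 : ∀ z, (((‖(V : ℂ) * (g z : ℂ) - P z‖ ^ 2 : ℝ)) : ℂ) =
        (((‖(V : ℂ) * (g z : ℂ) - P z‖ ^ 2 : ℝ)) : ℂ) := fun z => rfl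
    have h3 : ∫ z in F0 b, (((‖(V : ℂ) * (g z : ℂ) - P z‖ ^ 2 : ℝ)) : ℂ) =
        (V : ℂ) ^ 2 * ((∫ z in F0 b, g z ^ 2 : ℝ) : ℂ) - (V : ℂ) * (A : ℂ) -
          (V : ℂ) * (starRingEnd ℂ) (A : ℂ) + ((V * A : ℝ) : ℂ) := by
      simp_rw [h1]
      rw [integral_add, integral_sub, integral_sub, integral_const_mul, integral_const_mul,
        integral_const_mul, integral_conj, hcross, hsq, integral_complex_ofReal]
      · exact hi3.const_mul _
      · exact hi1.const_mul _
      · exact (hi3.const_mul _).sub (hi1.const_mul _)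
      · have : Integrable (fun z => (starRingEnd ℂ) ((g z : ℂ) * (starRingEnd ℂ) (P z)))
            (volume.restrict (F0 b)) := by
          have := (Complex.conjLIE.toContinuousLinearEquiv.toContinuousLinearMap :
            ℂ →L[ℝ] ℂ).integrable_comp hi1
          exact this
        exact this.const_mul _
      · refine ((hi3.const_mul _).sub (hi1.const_mul _)).sub ?_
        have : Integrable (fun z => (starRingEnd ℂ) ((g z : ℂ) * (starRingEnd ℂ) (P z)))
            (volume.restrict (F0 b)) := by
          have := (Complex.conjLIE.toContinuousLinearEquiv.toContinuousLinearMap :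
            ℂ →L[ℝ] ℂ).integrable_comp hi1
          exact this
        exact this.const_mul _
      · exact hi2
    rw [h3, Complex.conj_ofReal]
    push_cast
    ring
  have hexp' := Complex.ofReal_injective hexp
  rw [hexp'] at hkey
  have : V * A ≤ V * (V * ∫ z in F0 b, g z ^ 2) := by nlinarith
  exact le_of_mul_le_mul_left this hVpos

end Pool.Agent.H668.Per
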