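import Pool.Agent.H668.Per.Sq

set_option autoImplicit false

/-!
# The estimate at exponent two for functions periodic with respect to a lattice
-/

open MeasureTheory Set Filter Topology ENNReal NNReal Metric
open scoped Pointwise

namespace Pool.Agent.H668.Per

theorem F0_sub {n : ℕ} (b : Module.Basis (Fin n) ℝ (E n)) {D : ℝ} (hb2 : ∀ i, ‖b i‖ ≤ D) :
    F0 b ⊆ closedBall (0 : E n) (n * D) := by
  intro x hx
  have h1 : ZSpan.fract b x = x := ZSpan.fract_eq_self.2 hx
  have h2 := ZSpan.norm_fract_le b x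
  rw [h1] at h2
  rw [mem_closedBall, dist_zero_right]
  refine h2.trans ?_
  refine (Finset.sum_le_sum fun i _ => hb2 i).trans (le_of_eq ?_)
  simp

/-- Comparison of the fundamental cell with the unit ball. -/
theorem avg_cell {n : ℕ} (b : Module.Basis (Fin n) ℝ (E n))
    (hF : F0 b ⊆ closedBall (0 : E n) (1 / 2)) {h : E n → ℝ≥0∞} (hm : Measurable h)
    (hper : ∀ (l : Submodule.span ℤ (Set.range b)) x, h (l +ᵥ x) = h x) :
    volume (ball (0 : E n) (1 / 2)) * ∫⁻ z in F0 b, h z ≤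
      volume (F0 b) * ∫⁻ z in ball (0 : E n) 1, h z := by
  have h1 : volume (ball (0 : E n) (1 / 2)) * ∫⁻ z in F0 b, h z =
      ∫⁻ a in ball (0 : E n) (1 / 2), ∫⁻ z in F0 b, h (a + z) := by
    simp_rw [lint_translate b hper]
    rw [setLIntegral_const, mul_comm]
  rw [h1, lintegral_lintegral_swap]
  · have h2 : ∀ z ∈ F0 b, ∫⁻ a in ball (0 : E n) (1 / 2), h (a + z) ≤
        ∫⁻ z in ball (0 : E n) 1, h z := by
      intro z hz
      have hz' := hF hz
      rw [mem_closedBall, dist_zero_right] at hz'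
      have h3 : ∫⁻ a in ball (0 : E n) (1 / 2), h (a + z) ≤
          ∫⁻ a in (fun a => a + z) ⁻¹' ball (0 : E n) 1, h (a + z) := by
        apply lintegral_mono_set
        intro a ha
        rw [mem_ball, dist_zero_right] at ha
        simp only [mem_preimage, mem_ball, dist_zero_right]
        calc ‖a + z‖ ≤ ‖a‖ + ‖z‖ := norm_add_le _ _
          _ < 1 := by linarith
      refine h3.trans (le_of_eq ?_)
      exact (measurePreserving_add_right (volume : Measure (E n)) z).setLIntegral_comp_preimage_emb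
        (measurableEmbedding_addRight z) h _
    calc ∫⁻ z in F0 b, ∫⁻ a in ball (0 : E n) (1 / 2), h (a + z) ≤
        ∫⁻ _z in F0 b, ∫⁻ z in ball (0 : E n) 1, h z :=
          setLIntegral_mono' (ZSpan.fundamentalDomain_measurableSet b) h2
      _ = volume (F0 b) * ∫⁻ z in ball (0 : E n) 1, h z := by
          rw [setLIntegral_const, mul_comm]
  · exact (hm.comp (measurable_fst.add measurable_snd)).aemeasurable

/-- The averages over tubes are bounded by the Gaussian sum. -/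
theorem point_bound (m : ℕ) : ∃ c : ℝ, 0 < c ∧ ∀ (b : Module.Basis (Fin (m + 1)) ℝ (E (m + 1)))
    (κ δ : ℝ) (R : ℕ), 0 < κ → (∀ x i, |b.repr x i| ≤ κ * ‖x‖) → 0 < δ → δ < 1 →
    2 * δ * κ < 1 → κ * δ ≤ 1 / (8 * ((m + 1 : ℕ) : ℝ) * ((R : ℝ) + 1)) →
    ∀ g : E (m + 1) → ℝ, Measurable g → (∀ z, 0 ≤ g z) →
    (∀ (l : Submodule.span ℤ (Set.range b)) x, g (l +ᵥ x) = g x) → IntegrableOn g (F0 b) →
    ∀ (a e : E (m + 1)), ‖e‖ = 1 →
    (volume (tube δ a e))⁻¹ * ∫⁻ y in tube δ a e, ENNReal.ofReal (g y) ≤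
      ENNReal.ofReal ((c * (((R : ℝ) + 1) * δ) ^ (m + 1))⁻¹ *
        ∑ k ∈ Q (m + 1) R, ‖gh b g k‖ * gs b k e) := by
  obtain ⟨c, hc, hcount⟩ := count_le m
  obtain ⟨c', hc', hvol⟩ := Pool.Agent.H742R2.Kk.volume_tube m
  refine ⟨c * c', by positivity, ?_⟩
  intro b κ δ R hκ hb hδ hδ1 h2 hR g hgm hg0 hper hgi a e he
  have hgm' : Measurable (fun y => ENNReal.ofReal (g y)) := hgm.ennreal_ofReal
  have hper' : ∀ (l : Submodule.span ℤ (Set.range b)) x,
      ENNReal.ofReal (g (l +ᵥ x)) = ENNReal.ofReal (g x) := fun l x => by rw [hper]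
  have hunf := unfold_tube b (fun y => ENNReal.ofReal (g y)) hgm' hper' (tube δ a e)
    (tube_meas δ a e)
  set A : ℝ := c * (((R : ℝ) + 1) ^ (m + 1) * δ) with hA
  have hApos : 0 < A := by positivity
  set W : ℝ := ∑ k ∈ Q (m + 1) R, ‖gh b g k‖ * gs b k e with hW
  have hW0 : 0 ≤ W := Finset.sum_nonneg fun k _ =>
    mul_nonneg (norm_nonneg _) (gs_pos b k e).le
  have h3 : ENNReal.ofReal A * ∫⁻ y in tube δ a e, ENNReal.ofReal (g y) ≤ ENNReal.ofReal W := by
    rw [hunf]
    calc ENNReal.ofReal A * ∫⁻ z in F0 b, ENNReal.ofReal (g z) *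
          ∑' l : Submodule.span ℤ (Set.range b), (tube δ a e).indicator 1 (l +ᵥ z)
        = ∫⁻ z in F0 b, ENNReal.ofReal (g z) * (ENNReal.ofReal A *
          ∑' l : Submodule.span ℤ (Set.range b), (tube δ a e).indicator 1 (l +ᵥ z)) := by
          rw [← lintegral_const_mul' _ _ ENNReal.ofReal_ne_top]
          congr 1
          funext z
          ring
      _ ≤ ∫⁻ z in F0 b, ENNReal.ofReal (g z) *
            ∫⁻ v, ENNReal.ofReal (K b R (a + Av δ e v - z) * Real.exp (-Real.pi * ‖v‖ ^ 2)) := by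
          apply lintegral_mono
          intro z
          exact mul_le_mul' le_rfl (hcount b κ δ R hκ hb hδ hδ1 h2 hR a e z he)
      _ ≤ ENNReal.ofReal W := theta_le b R δ he hg0 hgi
  have h4 : ∫⁻ y in tube δ a e, ENNReal.ofReal (g y) ≤ ENNReal.ofReal (A⁻¹ * W) := by
    rw [ENNReal.ofReal_mul (inv_nonneg.2 hApos.le), ENNReal.ofReal_inv_of_pos hApos]
    rw [← ENNReal.div_eq_inv_mul, ENNReal.le_div_iff_mul_le
      (Or.inl (by simpa using hApos)) (Or.inl ENNReal.ofReal_ne_top), mul_comm]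
    exact h3
  have h5 : (volume (tube δ a e))⁻¹ ≤ ENNReal.ofReal (c' * δ ^ m)⁻¹ := by
    rw [ENNReal.ofReal_inv_of_pos (by positivity)]
    exact ENNReal.inv_le_inv.2 (hvol δ e a hδ he)
  calc (volume (tube δ a e))⁻¹ * ∫⁻ y in tube δ a e, ENNReal.ofReal (g y) ≤
      ENNReal.ofReal (c' * δ ^ m)⁻¹ * ENNReal.ofReal (A⁻¹ * W) := mul_le_mul' h5 h4
    _ = _ := by
        rw [← ENNReal.ofReal_mul (by positivity)]
        congr 1
        rw [hA, ← mul_assoc]
        congr 1
        rw [← mul_inv]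
        congr 1
        rw [mul_pow, pow_succ δ]
        ring

end Pool.Agent.H668.Per
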