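import Pool.Agent.H742R2.Kk.Sphere

set_option autoImplicit false

/-!
# Characters of a lattice, the Fejér kernel and Gaussian averages over tubes
-/

open MeasureTheory Set Filter Topology ENNReal NNReal Metric

namespace Pool.Agent.H668.Per

abbrev E (n : ℕ) : Type := EuclideanSpace ℝ (Fin n)

/-- The closed tube of length `1` and radius `δ` with centre `a` and axis direction `e`. -/
def tube {n : ℕ} (δ : ℝ) (a e : E n) : Set (E n) :=
  {y | |inner ℝ (y - a) e| ≤ 1 / 2 ∧ ‖(y - a) - (inner ℝ (y - a) e : ℝ) • e‖ ≤ δ}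

section

variable {n : ℕ} (b : Module.Basis (Fin n) ℝ (E n))

/-- the phase -/
noncomputable def ph (k : Fin n → ℤ) (x : E n) : ℝ := ∑ i, (k i : ℝ) * b.repr x i

/-- the character -/
noncomputable def ch (k : Fin n → ℤ) (x : E n) : ℂ :=
  Complex.exp (((2 * Real.pi * ph b k x : ℝ) : ℂ) * Complex.I)

theorem ph_add (k : Fin n → ℤ) (x y : E n) : ph b k (x + y) = ph b k x + ph b k y := by
  simp only [ph, map_add, Finsupp.add_apply, mul_add, Finset.sum_add_distrib]

theorem ph_smul (k : Fin n → ℤ) (c : ℝ) (x : E n) : ph b k (c • x) = c * ph b k x := by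
  simp only [ph, map_smul, Finsupp.smul_apply, smul_eq_mul, Finset.mul_sum]
  exact Finset.sum_congr rfl fun i _ => by ring

/-- the phase as a linear map -/
noncomputable def phL (k : Fin n → ℤ) : E n →ₗ[ℝ] ℝ where
  toFun := ph b k
  map_add' := ph_add b k
  map_smul' := fun c x => by rw [ph_smul]; rfl

theorem ph_cont (k : Fin n → ℤ) : Continuous (ph b k) :=
  (phL b k).continuous_of_finiteDimensional

theorem ph_neg (k : Fin n → ℤ) (x : E n) : ph b k (-x) = - ph b k x := (phL b k).map_neg x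

theorem ph_sub (k : Fin n → ℤ) (x y : E n) : ph b k (x - y) = ph b k x - ph b k y :=
  (phL b k).map_sub x y

theorem ch_cont (k : Fin n → ℤ) : Continuous (ch b k) := by
  unfold ch
  exact Complex.continuous_exp.comp
    ((Complex.continuous_ofReal.comp (continuous_const.mul (ph_cont b k))).mul continuous_const)

theorem ch_add (k : Fin n → ℤ) (x y : E n) : ch b k (x + y) = ch b k x * ch b k y := by
  unfold ch
  rw [← Complex.exp_add, ph_add]
  congr 1
  push_cast
  ring

theorem ch_norm (k : Fin n → ℤ) (x : E n) : ‖ch b k x‖ = 1 := by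
  unfold ch
  exact Complex.norm_exp_ofReal_mul_I _

theorem ch_zero (x : E n) : ch b 0 x = 1 := by
  unfold ch ph
  simp

theorem ch_diff (k l : Fin n → ℤ) (x : E n) :
    ch b k x * (starRingEnd ℂ) (ch b l x) = ch b (fun i => k i - l i) x := by
  unfold ch
  rw [← Complex.exp_conj, ← Complex.exp_add]
  congr 1
  have : ph b (fun i => k i - l i) x = ph b k x - ph b l x := by
    unfold ph
    rw [← Finset.sum_sub_distrib]
    refine Finset.sum_congr rfl fun i _ => ?_
    push_cast
    ring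
  rw [this, map_mul, Complex.conj_ofReal, Complex.conj_I]
  push_cast
  ring

/-- Values of the phase at lattice points are integers. -/
theorem ph_lattice {x : E n} (hx : x ∈ Submodule.span ℤ (Set.range b)) (k : Fin n → ℤ) :
    ∃ z : ℤ, ph b k x = z := by
  rw [b.mem_span_iff_repr_mem ℤ x] at hx
  choose z hz using hx
  refine ⟨∑ i, k i * z i, ?_⟩
  unfold ph
  push_cast
  refine Finset.sum_congr rfl fun i _ => ?_
  rw [← hz i]
  simp

theorem ch_lattice {x : E n} (hx : x ∈ Submodule.span ℤ (Set.range b)) (k : Fin n → ℤ) :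
    ch b k x = 1 := by
  obtain ⟨z, hz⟩ := ph_lattice b hx k
  unfold ch
  rw [hz, Complex.exp_eq_one_iff]
  exact ⟨z, by push_cast; ring⟩

/-- The Fejér kernel of the lattice spanned by `b`. -/
noncomputable def K (R : ℕ) (x : E n) : ℝ :=
  (((R : ℝ) + 1) ^ n)⁻¹ * ‖∑ J : Fin n → Fin (R + 1), ch b (fun i => ((J i : ℕ) : ℤ)) x‖ ^ 2

theorem K_nonneg (R : ℕ) (x : E n) : 0 ≤ K b R x := by unfold K; positivity

theorem K_cont (R : ℕ) : Continuous (K b R) := by
  unfold K
  exact continuous_const.mul ((continuous_finsetSum _ fun J _ => ch_cont b _).norm.pow 2)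

theorem K_periodic (R : ℕ) {l : E n} (hl : l ∈ Submodule.span ℤ (Set.range b)) (x : E n) :
    K b R (x + l) = K b R x := by
  unfold K
  congr 3
  refine Finset.sum_congr rfl fun J _ => ?_
  rw [ch_add, ch_lattice b hl, mul_one]

theorem K_expand (R : ℕ) (x : E n) :
    ((K b R x : ℝ) : ℂ) = ((((R : ℝ) + 1) ^ n)⁻¹ : ℝ) *
      ∑ J : Fin n → Fin (R + 1), ∑ J' : Fin n → Fin (R + 1),
        ch b (fun i => ((J i : ℕ) : ℤ) - ((J' i : ℕ) : ℤ)) x := by
  unfold K
  rw [Complex.ofReal_mul]
  congr 1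
  rw [← Complex.normSq_eq_norm_sq, Complex.normSq_eq_conj_mul_self, map_sum, mul_comm,
    Finset.sum_mul]
  refine Finset.sum_congr rfl fun J _ => ?_
  rw [Finset.mul_sum]
  refine Finset.sum_congr rfl fun J' _ => ?_
  rw [ch_diff]

/-- Lower bound for the kernel near the origin. -/
theorem K_lower (R : ℕ) {x : E n}
    (hx : ∀ i, |b.repr x i| ≤ 1 / (8 * (n : ℝ) * ((R : ℝ) + 1))) :
    ((R : ℝ) + 1) ^ n / 4 ≤ K b R x := by
  have hRe : ∀ J : Fin n → Fin (R + 1), 1 / 2 ≤ (ch b (fun i => ((J i : ℕ) : ℤ)) x).re := by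
    intro J
    have h1 : |ph b (fun i => ((J i : ℕ) : ℤ)) x| ≤ 1 / 8 := by
      unfold ph
      refine (Finset.abs_sum_le_sum_abs _ _).trans ?_
      have : ∀ i ∈ Finset.univ, |(((((J i : ℕ) : ℤ)) : ℤ) : ℝ) * b.repr x i| ≤
          1 / (8 * (n : ℝ)) := by
        intro i _
        rw [abs_mul]
        have h2 : |((((J i : ℕ) : ℤ)) : ℝ)| ≤ (R : ℝ) + 1 := by
          rw [Int.cast_natCast, abs_of_nonneg (Nat.cast_nonneg _)]
          have := (J i).2
          have : ((J i : ℕ) : ℝ) < ((R + 1 : ℕ) : ℝ) := by exact_mod_cast this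
          push_cast at this
          linarith
        have h3 := hx i
        have hR : (0 : ℝ) < (R : ℝ) + 1 := by positivity
        calc |((((J i : ℕ) : ℤ)) : ℝ)| * |b.repr x i| ≤
            ((R : ℝ) + 1) * (1 / (8 * (n : ℝ) * ((R : ℝ) + 1))) := by gcongr
          _ = 1 / (8 * (n : ℝ)) := by
              rcases Nat.eq_zero_or_pos n with hn | hn
              · subst hn; simp
              · have : (n : ℝ) ≠ 0 := by positivity
                field_simp
      refine (Finset.sum_le_sum this).trans ?_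
      rw [Finset.sum_const, Finset.card_univ, Fintype.card_fin, nsmul_eq_mul]
      rcases Nat.eq_zero_or_pos n with hn | hn
      · subst hn; simp
      · have : (n : ℝ) ≠ 0 := by positivity
        apply le_of_eq
        field_simp
    unfold ch
    rw [Complex.exp_ofReal_mul_I_re]
    have h2 : |2 * Real.pi * ph b (fun i => ((J i : ℕ) : ℤ)) x| ≤ Real.pi / 3 := by
      rw [abs_mul, abs_of_pos (by positivity)]
      have := Real.pi_pos
      nlinarith
    rw [← Real.cos_abs, ← Real.cos_pi_div_three]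
    exact Real.cos_le_cos_of_nonneg_of_le_pi (abs_nonneg _) (by linarith [Real.pi_pos]) h2
  have hsum : ((R : ℝ) + 1) ^ n / 2 ≤
      ‖∑ J : Fin n → Fin (R + 1), ch b (fun i => ((J i : ℕ) : ℤ)) x‖ := by
    refine le_trans ?_ (Complex.re_le_norm _)
    rw [Complex.re_sum]
    have h3 := Finset.sum_le_sum (fun J (_ : J ∈ Finset.univ) => hRe J)
    rw [Finset.sum_const, Finset.card_univ, Fintype.card_pi, Finset.prod_const, Finset.card_univ,
      Fintype.card_fin, Fintype.card_fin, nsmul_eq_mul] at h3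
    push_cast at h3
    linarith
  unfold K
  have hR : (0 : ℝ) < ((R : ℝ) + 1) ^ n := by positivity
  have h4 : (((R : ℝ) + 1) ^ n / 2) ^ 2 ≤
      ‖∑ J : Fin n → Fin (R + 1), ch b (fun i => ((J i : ℕ) : ℤ)) x‖ ^ 2 := by
    gcongr
  calc ((R : ℝ) + 1) ^ n / 4 = (((R : ℝ) + 1) ^ n)⁻¹ * (((R : ℝ) + 1) ^ n / 2) ^ 2 := by
        field_simp
        norm_num
    _ ≤ _ := by gcongr

end

section Gauss

variable {n : ℕ}

/-- The map which sends the unit ball to a tube-like ellipsoid. -/
noncomputable def Av (δ : ℝ) (e v : E n) : E n := δ • v + ((1 - δ) * inner ℝ e v : ℝ) • e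

theorem Av_cont (δ : ℝ) (e : E n) : Continuous (Av δ e) := by
  unfold Av
  fun_prop

theorem Av_sub (δ : ℝ) (e v w : E n) : Av δ e (v - w) = Av δ e v - Av δ e w := by
  unfold Av
  rw [smul_sub, inner_sub_right, mul_sub, sub_smul]
  abel

theorem integrable_gauss_ch (φ : E n →ₗ[ℝ] ℝ) (δ : ℝ) (e : E n) :
    Integrable (fun v : E n => Complex.exp (((2 * Real.pi * φ (Av δ e v) : ℝ) : ℂ) * Complex.I) *
      ((Real.exp (-Real.pi * ‖v‖ ^ 2) : ℝ) : ℂ)) := by
  have hg : Integrable (fun v : E n => ((Real.exp (-Real.pi * ‖v‖ ^ 2) : ℝ) : ℂ)) := by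
    have := GaussianFourier.integrable_cexp_neg_mul_sq_norm_add (V := E n) (b := (Real.pi : ℂ))
      (by simpa using Real.pi_pos) 0 0
    refine this.congr (Eventually.of_forall fun v => ?_)
    simp
  have hφ : Continuous φ := φ.continuous_of_finiteDimensional
  refine hg.bdd_mul (c := 1) ?_ ?_
  · apply Continuous.aestronglyMeasurable
    exact Complex.continuous_exp.comp
      ((Complex.continuous_ofReal.comp (continuous_const.mul (hφ.comp (Av_cont δ e)))).mul
        continuous_const)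
  · exact Eventually.of_forall fun v => (Complex.norm_exp_ofReal_mul_I _).le

/-- The Gaussian average of a character over a tube. -/
theorem gauss_ch (φ : E n →ₗ[ℝ] ℝ) (δ : ℝ) {e : E n} (he : ‖e‖ = 1) :
    ‖∫ v : E n, Complex.exp (((2 * Real.pi * φ (Av δ e v) : ℝ) : ℂ) * Complex.I) *
      ((Real.exp (-Real.pi * ‖v‖ ^ 2) : ℝ) : ℂ)‖ ≤ Real.exp (-Real.pi * φ e ^ 2) := by
  have hφ : Continuous φ := φ.continuous_of_finiteDimensional
  obtain ⟨u, hu⟩ := (InnerProductSpace.toDual ℝ (E n)).surjective ⟨φ, hφ⟩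
  have hu' : ∀ x, φ x = inner ℝ u x := by
    intro x
    have := congrArg (fun f : E n →L[ℝ] ℝ => f x) hu
    simpa using this.symm
  set w : E n := δ • u + ((1 - δ) * inner ℝ u e : ℝ) • e with hw
  have h1 : ∀ v, φ (Av δ e v) = inner ℝ w v := by
    intro v
    rw [hu', Av, hw, inner_add_right, inner_add_left, inner_smul_right, inner_smul_right,
      inner_smul_left, inner_smul_left]
    simp only [conj_trivial]
    ring
  have h2 := GaussianFourier.integral_cexp_neg_mul_sq_norm_add (V := E n) (b := (Real.pi : ℂ))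
    (by simpa using Real.pi_pos) (2 * Real.pi * Complex.I) w
  have h3 : (fun v : E n => Complex.exp (((2 * Real.pi * φ (Av δ e v) : ℝ) : ℂ) * Complex.I) *
      ((Real.exp (-Real.pi * ‖v‖ ^ 2) : ℝ) : ℂ)) = fun v : E n =>
      Complex.exp (-(Real.pi : ℂ) * ‖v‖ ^ 2 + 2 * Real.pi * Complex.I * inner ℝ w v) := by
    funext v
    rw [h1, Complex.ofReal_exp, ← Complex.exp_add]
    congr 1
    push_cast
    ring
  rw [h3, h2]
  have hpi : (Real.pi : ℂ) ≠ 0 := by exact_mod_cast Real.pi_ne_zero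
  rw [div_self hpi, Complex.one_cpow, one_mul]
  have h4 : (2 * Real.pi * Complex.I) ^ 2 * (‖w‖ : ℂ) ^ 2 / (4 * Real.pi) =
      ((-Real.pi * ‖w‖ ^ 2 : ℝ) : ℂ) := by
    rw [mul_pow, mul_pow, Complex.I_sq]
    push_cast
    field_simp
    ring
  rw [h4, Complex.norm_exp, Complex.ofReal_re]
  apply Real.exp_le_exp.2
  have h5 : |inner ℝ w e| ≤ ‖w‖ := by
    have := abs_real_inner_le_norm w e
    rwa [he, mul_one] at this
  have h6 : (inner ℝ w e : ℝ) = φ e := by
    rw [hu', hw, inner_add_left, inner_smul_left, inner_smul_left, real_inner_self_eq_norm_sq, he]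
    simp only [conj_trivial]
    ring
  rw [h6] at h5
  have h7 : φ e ^ 2 ≤ ‖w‖ ^ 2 := by
    rw [← sq_abs]
    gcongr
  have := Real.pi_pos
  nlinarith

theorem integral_gauss : ∫ v : E n, Real.exp (-Real.pi * ‖v‖ ^ 2) = 1 := by
  have := GaussianFourier.integral_rexp_neg_mul_sq_norm (V := E n) Real.pi_pos
  rw [this, div_self Real.pi_ne_zero, Real.one_rpow]

end Gauss

end Pool.Agent.H668.Per
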