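import Pool.Agent.H668.Per.Upper

set_option autoImplicit false

/-!
# Sharpness
-/

open MeasureTheory Set Filter Topology ENNReal NNReal Metric
open scoped Pointwise

namespace Pool.Agent.H668.Per

/-- Upper bound for the volume of a tube. -/
theorem volume_tube_le (m : ℕ) {δ : ℝ} (hδ : 0 < δ) (a : E (m + 1)) {e : E (m + 1)}
    (he : ‖e‖ = 1) : volume (tube δ a e) ≤ ENNReal.ofReal ((2 * δ) ^ m) := by
  have hon : Orthonormal ℝ (({0} : Set (Fin (m + 1))).domRestrict (fun _ => e)) := by
    rw [orthonormal_iff_ite]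
    rintro ⟨i, hi⟩ ⟨j, hj⟩
    simp only [mem_singleton_iff] at hi hj
    subst hi; subst hj
    change (inner ℝ e e : ℝ) = _
    rw [real_inner_self_eq_norm_sq, he]
    simp
  obtain ⟨b, hb⟩ := hon.exists_orthonormalBasis_extension_of_card_eq (by simp)
  have hb0 : b 0 = e := hb 0 rfl
  set r : Fin (m + 1) → ℝ := Fin.cons (1 / 2) (fun _ => δ) with hr
  set B : Set (Fin (m + 1) → ℝ) := Set.pi univ (fun i => Icc (-(r i)) (r i)) with hB
  have hBm : MeasurableSet B := MeasurableSet.univ_pi (fun i => measurableSet_Icc)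
  have hvolB : volume B = ENNReal.ofReal ((2 * δ) ^ m) := by
    rw [hB, volume_pi_pi]
    simp only [Real.volume_Icc]
    rw [Fin.prod_univ_succ]
    simp only [hr, Fin.cons_zero, Fin.cons_succ, Finset.prod_const, Finset.card_univ,
      Fintype.card_fin]
    have hnn : 0 ≤ δ - -δ := by linarith
    rw [← ENNReal.ofReal_pow hnn, ← ENNReal.ofReal_mul (by norm_num)]
    congr 1
    have : δ - -δ = 2 * δ := by ring
    rw [this]
    norm_num
  have hmp : MeasurePreserving (fun y : E (m + 1) => (b.repr (y - a)).ofLp) volume volume := by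
    have h1 : MeasurePreserving (fun y : E (m + 1) => y - a) volume volume :=
      measurePreserving_sub_right volume a
    have h2 := b.measurePreserving_repr
    have h3 := PiLp.volume_preserving_ofLp (Fin (m + 1))
    exact h3.comp (h2.comp h1)
  rw [← hvolB, ← hmp.measure_preimage hBm.nullMeasurableSet]
  apply measure_mono
  rintro y ⟨hy1, hy2⟩
  simp only [mem_preimage, hB, mem_univ_pi, mem_Icc]
  set v := y - a with hv
  have hv0 : (inner ℝ v e : ℝ) = b.repr v 0 := by
    rw [b.repr_apply_apply, hb0, real_inner_comm]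
  intro i
  rw [← abs_le]
  refine Fin.cases ?_ (fun j => ?_) i
  · rw [← hv0]
    simpa [hr] using hy1
  · have hbe : (inner ℝ (b j.succ) e : ℝ) = 0 := by
      rw [← hb0]
      exact b.inner_eq_zero (Fin.succ_ne_zero j)
    have h1 : b.repr v j.succ = inner ℝ (b j.succ) (v - (inner ℝ v e : ℝ) • e) := by
      rw [b.repr_apply_apply, inner_sub_right (b j.succ) v, inner_smul_right, hbe, mul_zero,
        sub_zero]
    have h2 : |(inner ℝ (b j.succ) (v - (inner ℝ v e : ℝ) • e) : ℝ)| ≤
        ‖b j.succ‖ * ‖v - (inner ℝ v e : ℝ) • e‖ := abs_real_inner_le_norm _ _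
    rw [b.norm_eq_one, one_mul] at h2
    have h3 : r j.succ = δ := by simp [hr]
    rw [h3, h1]
    exact h2.trans hy2

/-- The lattice points. -/
noncomputable def lp {n : ℕ} (s : ℝ) (k : Fin n → ℤ) : E n :=
  WithLp.toLp 2 (fun i => s * (k i : ℝ))

theorem lp_apply {n : ℕ} (s : ℝ) (k : Fin n → ℤ) (i : Fin n) : lp s k i = s * (k i : ℝ) := rfl

theorem lp_add {n : ℕ} (s : ℝ) (k l : Fin n → ℤ) : lp s (k + l) = lp s k + lp s l := by
  ext i
  rw [PiLp.add_apply, lp_apply, lp_apply, lp_apply, Pi.add_apply]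
  push_cast
  ring

theorem lp_sub {n : ℕ} (s : ℝ) (k l : Fin n → ℤ) : lp s (k - l) = lp s k - lp s l := by
  ext i
  rw [PiLp.sub_apply, lp_apply, lp_apply, lp_apply, Pi.sub_apply]
  push_cast
  ring

theorem norm_le_sum {n : ℕ} (x : E n) {t : ℝ} (h : ∀ i, |x i| ≤ t) : ‖x‖ ≤ n * t := by
  have h1 : x = ∑ i, x i • EuclideanSpace.single i (1 : ℝ) := by
    ext j
    simp [Pi.single_apply]
  rw [h1]
  refine (norm_sum_le _ _).trans ?_
  have h2 : ∀ i ∈ Finset.univ, ‖x i • EuclideanSpace.single i (1 : ℝ)‖ ≤ t := by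
    intro i _
    rw [norm_smul, PiLp.norm_single, norm_one, mul_one, Real.norm_eq_abs]
    exact h i
  refine (Finset.sum_le_sum h2).trans (le_of_eq ?_)
  simp

/-- The union of the balls around the lattice points. -/
def Ub (n : ℕ) (s δ : ℝ) : Set (E n) := ⋃ k : Fin n → ℤ, closedBall (lp s k) δ

theorem Ub_meas (n : ℕ) (s δ : ℝ) : MeasurableSet (Ub n s δ) :=
  MeasurableSet.iUnion fun _ => measurableSet_closedBall

theorem Ub_add {n : ℕ} (s δ : ℝ) (k : Fin n → ℤ) (y : E n) :
    y + lp s k ∈ Ub n s δ ↔ y ∈ Ub n s δ := by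
  unfold Ub
  simp only [mem_iUnion, mem_closedBall, dist_eq_norm]
  constructor
  · rintro ⟨l, hl⟩
    refine ⟨l - k, ?_⟩
    rw [lp_sub]
    have : y - (lp s l - lp s k) = y + lp s k - lp s l := by abel
    rwa [this]
  · rintro ⟨l, hl⟩
    refine ⟨l + k, ?_⟩
    rw [lp_add]
    have : y + lp s k - (lp s l + lp s k) = y - lp s l := by abel
    rwa [this]

theorem lp_dense {n : ℕ} {s : ℝ} (hs : 0 < s) (x : E n) : ∃ k, ‖x - lp s k‖ ≤ n * (s / 2) := by
  refine ⟨fun i => round (x i / s), ?_⟩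
  apply norm_le_sum
  intro i
  rw [PiLp.sub_apply, lp_apply]
  have h := abs_sub_round (x i / s)
  have h2 : x i - s * (round (x i / s) : ℝ) = s * (x i / s - round (x i / s)) := by
    field_simp
  rw [h2, abs_mul, abs_of_pos hs]
  calc s * |x i / s - (round (x i / s) : ℝ)| ≤ s * (1 / 2) := by gcongr
    _ = s / 2 := by ring

theorem volume_Ub {n : ℕ} {s δ : ℝ} (hs : 0 < s) (hs1 : s ≤ 1) (hδ : 0 < δ) (hδ1 : δ ≤ 1) :
    volume (ball (0 : E n) 1 ∩ Ub n s δ) ≤
      ENNReal.ofReal ((5 / s) ^ n * δ ^ n) * volume (ball (0 : E n) 1) := by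
  set N : ℕ := ⌊2 / s⌋₊ with hN
  have hsub : ball (0 : E n) 1 ∩ Ub n s δ ⊆ ⋃ k ∈ Q n N, closedBall (lp s k) δ := by
    rintro y ⟨hy1, hy2⟩
    unfold Ub at hy2
    rw [mem_iUnion] at hy2
    obtain ⟨k, hk⟩ := hy2
    simp only [mem_iUnion]
    refine ⟨k, ?_, hk⟩
    rw [mem_Q]
    intro i
    rw [mem_ball, dist_zero_right] at hy1
    rw [mem_closedBall, dist_eq_norm] at hk
    have h1 : ‖lp s k‖ ≤ 2 := by
      have : lp s k = y - (y - lp s k) := by abel
      rw [this]
      calc _ ≤ ‖y‖ + ‖y - lp s k‖ := norm_sub_le _ _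
        _ ≤ 2 := by linarith
    have h2 := (PiLp.norm_apply_le (lp s k) i).trans h1
    rw [lp_apply, norm_mul, Real.norm_eq_abs, abs_of_pos hs, Real.norm_eq_abs] at h2
    have h3 : |(k i : ℝ)| ≤ 2 / s := by
      rw [le_div_iff₀ hs]
      linarith
    have h4 : (|k i|.toNat : ℕ) ≤ N := by
      rw [hN]
      apply Nat.le_floor
      have h5 : ((|k i|.toNat : ℕ) : ℝ) = |(k i : ℝ)| := by
        have h6 : ((|k i|.toNat : ℕ) : ℤ) = |k i| := Int.toNat_of_nonneg (abs_nonneg _)
        have h7 : (((|k i|.toNat : ℕ) : ℤ) : ℝ) = ((|k i| : ℤ) : ℝ) := by rw [h6]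
        rw [Int.cast_abs] at h7
        rw [← h7]
        rfl
      rw [h5]
      exact h3
    have h6 : ((|k i|.toNat : ℕ) : ℤ) = |k i| := Int.toNat_of_nonneg (abs_nonneg _)
    omega
  refine (measure_mono hsub).trans ((measure_biUnion_finset_le _ _).trans ?_)
  have hball : ∀ k ∈ Q n N, volume (closedBall (lp s k : E n) δ) =
      ENNReal.ofReal (δ ^ n) * volume (ball (0 : E n) 1) := by
    intro k _
    rw [Measure.addHaar_closedBall _ _ hδ.le]
    simp
  rw [Finset.sum_congr rfl hball, Finset.sum_const, nsmul_eq_mul, ← mul_assoc,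
    ENNReal.ofReal_mul (by positivity)]
  gcongr
  have hcard : ((Q n N).card : ℝ) ≤ (5 / s) ^ n := by
    unfold Q
    rw [Fintype.card_piFinset, Finset.prod_const, Finset.card_univ, Fintype.card_fin,
      Int.card_Icc]
    have h1 : ((N : ℤ) + 1 - -(N : ℤ)).toNat = 2 * N + 1 := by omega
    rw [h1]
    push_cast
    have h2 : (N : ℝ) ≤ 2 / s := Nat.floor_le (by positivity)
    have h3 : 1 ≤ 1 / s := by rw [le_div_iff₀ hs]; linarith
    have h4 : 5 / s = 2 * (2 / s) + 1 / s := by ring
    rw [h4]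
    gcongr
  rw [← ENNReal.ofReal_natCast]
  exact ENNReal.ofReal_le_ofReal hcard

/-- Lower bound for the maximal function. -/
theorem kmax_ge {m : ℕ} {δ : ℝ} (hδ : 0 < δ) (hδ1 : δ ≤ 1 / 4) {f : E (m + 1) → ℝ}
    (hf : ∀ y ∈ closedBall (0 : E (m + 1)) δ, f y = 1) {e : E (m + 1)} (he : ‖e‖ = 1) :
    ENNReal.ofReal ((volume (ball (0 : E (m + 1)) 1)).toReal / 2 ^ m * δ) ≤ kmax δ f e := by
  unfold kmax
  refine le_trans ?_ (le_iSup _ (0 : E (m + 1)))
  set v1 := (volume (ball (0 : E (m + 1)) 1)).toReal with hv1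
  have hv1t : volume (ball (0 : E (m + 1)) 1) ≠ ∞ := measure_ball_lt_top.ne
  have hsub : closedBall (0 : E (m + 1)) δ ⊆ tube δ 0 e := by
    intro y hy
    rw [mem_closedBall, dist_zero_right] at hy
    have h1 : |(inner ℝ y e : ℝ)| ≤ ‖y‖ := by
      have := abs_real_inner_le_norm y e
      rwa [he, mul_one] at this
    refine ⟨?_, ?_⟩
    · rw [sub_zero]
      linarith
    · rw [sub_zero]
      have h2 : ‖y - (inner ℝ y e : ℝ) • e‖ ^ 2 = ‖y‖ ^ 2 - (inner ℝ y e : ℝ) ^ 2 := by
        rw [norm_sub_sq_real, inner_smul_right, norm_smul, he, mul_one, Real.norm_eq_abs, sq_abs]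
        ring
      have h3 : ‖y - (inner ℝ y e : ℝ) • e‖ ^ 2 ≤ ‖y‖ ^ 2 := by
        rw [h2]
        nlinarith [sq_nonneg (inner ℝ y e : ℝ)]
      exact (abs_le_of_sq_le_sq' h3 (norm_nonneg _)).2.trans hy
  have h1 : ENNReal.ofReal (δ ^ (m + 1) * v1) ≤ ∫⁻ y in tube δ 0 e, ‖f y‖ₑ := by
    calc ENNReal.ofReal (δ ^ (m + 1) * v1) = volume (closedBall (0 : E (m + 1)) δ) := by
          rw [Measure.addHaar_closedBall _ _ hδ.le, ENNReal.ofReal_mul (by positivity), hv1,
            ENNReal.ofReal_toReal hv1t]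
          simp
      _ = ∫⁻ _y in closedBall (0 : E (m + 1)) δ, 1 := by rw [setLIntegral_one]
      _ ≤ ∫⁻ y in closedBall (0 : E (m + 1)) δ, ‖f y‖ₑ := by
          apply setLIntegral_mono' measurableSet_closedBall
          intro y hy
          rw [hf y hy]
          simp
      _ ≤ _ := lintegral_mono_set hsub
  have h2 : ENNReal.ofReal ((2 * δ) ^ m)⁻¹ ≤ (volume (tube δ 0 e))⁻¹ := by
    rw [ENNReal.ofReal_inv_of_pos (by positivity)]
    exact ENNReal.inv_le_inv.2 (volume_tube_le m hδ 0 he)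
  calc ENNReal.ofReal (v1 / 2 ^ m * δ) =
      ENNReal.ofReal ((2 * δ) ^ m)⁻¹ * ENNReal.ofReal (δ ^ (m + 1) * v1) := by
        rw [← ENNReal.ofReal_mul (by positivity)]
        congr 1
        rw [mul_pow, pow_succ]
        field_simp
    _ ≤ _ := mul_le_mul' h2 h1

theorem lower (d : ℕ) : ∃ c : ℝ, 0 < c ∧ ∀ (δ η : ℝ), 0 < δ → δ ≤ η → η ≤ 1 / 4 →
    ∃ F : E (d + 3) → ℝ, Measurable F ∧ (∀ x, ∃ v, ‖x - v‖ ≤ η ∧ ∀ y, F (y + v) = F y) ∧
      0 < ∫⁻ y in ball (0 : E (d + 3)) 1, ‖F y‖ₑ ^ 2 ∧
      ∫⁻ y in ball (0 : E (d + 3)) 1, ‖F y‖ₑ ^ 2 < ∞ ∧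
      ENNReal.ofReal (c * (1 + η ^ (d + 3) / δ ^ (d + 1))) *
        ∫⁻ y in ball (0 : E (d + 3)) 1, ‖F y‖ₑ ^ 2 ≤
      ∫⁻ e : sphere (0 : E (d + 3)) 1, kmax δ ((ball (0 : E (d + 3)) 1).indicator F) e ^ 2
        ∂(volume : Measure (E (d + 3))).toSphere := by
  set nn : ℝ := (d : ℝ) + 3 with hnn
  have hnn3 : 3 ≤ nn := by
    have : (0 : ℝ) ≤ d := Nat.cast_nonneg d
    linarith
  have hcast : (((d + 3 : ℕ) : ℝ)) = nn := by push_cast; rfl
  set v1 : ℝ := (volume (ball (0 : E (d + 3)) 1)).toReal with hv1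
  have hv1t : volume (ball (0 : E (d + 3)) 1) ≠ ∞ := measure_ball_lt_top.ne
  have hv1p : 0 < v1 := ENNReal.toReal_pos (measure_ball_pos _ _ one_pos).ne' hv1t
  have hv1e : volume (ball (0 : E (d + 3)) 1) = ENNReal.ofReal v1 := by
    rw [hv1, ENNReal.ofReal_toReal hv1t]
  have hσ : (volume : Measure (E (d + 3))).toSphere univ = ENNReal.ofReal (nn * v1) := by
    rw [Measure.toSphere_apply_univ, hv1e, ENNReal.ofReal_mul (by positivity)]
    congr 1
    rw [← hcast, ENNReal.ofReal_natCast]
    simp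
  set c2 : ℝ := nn * v1 ^ 2 / (2 ^ (d + 2)) ^ 2 / (2 * (5 * nn / 2) ^ (d + 3)) with hc2
  have hc2p : 0 < c2 := by positivity
  refine ⟨min (1 / 2) c2, by positivity, ?_⟩
  intro δ η hδ hδη hη
  have hη0 : 0 < η := by linarith
  by_cases hcase : η ^ (d + 3) / δ ^ (d + 1) ≤ 1
  · -- the constant function
    refine ⟨fun _ => 1, measurable_const, fun x => ⟨x, by simpa using hη0.le, fun _ => rfl⟩,
      ?_, ?_, ?_⟩
    · simp only [enorm_one, one_pow, setLIntegral_one]
      exact measure_ball_pos _ _ one_pos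
    · simp only [enorm_one, one_pow, setLIntegral_one]
      exact measure_ball_lt_top
    · have h1 : ∀ e : sphere (0 : E (d + 3)) 1,
          1 ≤ kmax δ ((ball (0 : E (d + 3)) 1).indicator (fun _ => (1 : ℝ))) e := by
        intro e
        have he : ‖(e : E (d + 3))‖ = 1 := by simp
        unfold kmax
        refine le_trans ?_ (le_iSup _ (0 : E (d + 3)))
        have h2 : ∫⁻ y in tube δ 0 (e : E (d + 3)),
            ‖(ball (0 : E (d + 3)) 1).indicator (fun _ => (1 : ℝ)) y‖ₑ =
            volume (tube δ 0 (e : E (d + 3))) := by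
          rw [← setLIntegral_one]
          apply setLIntegral_congr_fun (tube_meas δ 0 _)
          rintro y ⟨hy1, hy2⟩
          rw [sub_zero] at hy1 hy2
          have h3 : y ∈ ball (0 : E (d + 3)) 1 := by
            rw [mem_ball, dist_zero_right]
            have h4 : y = (y - (inner ℝ y (e : E (d + 3)) : ℝ) • (e : E (d + 3))) +
                (inner ℝ y (e : E (d + 3)) : ℝ) • (e : E (d + 3)) := by abel
            rw [h4]
            refine lt_of_le_of_lt (norm_add_le _ _) ?_
            rw [norm_smul, he, mul_one, Real.norm_eq_abs]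
            linarith
          simp only [indicator_of_mem h3, enorm_one]
        rw [h2, ENNReal.inv_mul_cancel]
        · obtain ⟨c', hc', hvol⟩ := Pool.Agent.H742R2.Kk.volume_tube (d + 2)
          have h3 := hvol δ e (0 : E (d + 3)) hδ he
          intro h4
          have h5 : ENNReal.ofReal (c' * δ ^ (d + 2)) ≤ volume (tube δ 0 (e : E (d + 3))) := h3
          rw [h4] at h5
          have h6 : 0 < c' * δ ^ (d + 2) := by positivity
          simp only [nonpos_iff_eq_zero, ENNReal.ofReal_eq_zero] at h5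
          linarith
        · exact (tube_finite δ 0 he).ne
      calc ENNReal.ofReal (min (1 / 2) c2 * (1 + η ^ (d + 3) / δ ^ (d + 1))) *
            ∫⁻ _y in ball (0 : E (d + 3)) 1, ‖(1 : ℝ)‖ₑ ^ 2 ≤
          ENNReal.ofReal 1 * ENNReal.ofReal v1 := by
            simp only [enorm_one, one_pow, setLIntegral_one]
            rw [hv1e]
            gcongr
            have h2 : min (1 / 2) c2 ≤ 1 / 2 := min_le_left _ _
            have h3 : 0 ≤ η ^ (d + 3) / δ ^ (d + 1) := by positivity
            have h4 : 0 < min (1 / 2) c2 := by positivity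
            nlinarith
        _ ≤ ENNReal.ofReal (nn * v1) := by
            rw [← ENNReal.ofReal_mul (by norm_num)]
            apply ENNReal.ofReal_le_ofReal
            nlinarith
        _ = ∫⁻ _e : sphere (0 : E (d + 3)) 1, 1 ∂(volume : Measure (E (d + 3))).toSphere := by
            rw [lintegral_one, hσ]
        _ ≤ _ := by
            apply lintegral_mono
            intro e
            exact one_le_pow₀ (h1 e)
  · -- the balls around the points of a lattice
    push Not at hcase
    set s : ℝ := 2 * η / nn with hs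
    have hs0 : 0 < s := by positivity
    have hs1 : s ≤ 1 := by
      rw [hs, div_le_one (by positivity)]
      linarith
    set F : E (d + 3) → ℝ := (Ub (d + 3) s δ).indicator (fun _ => (1 : ℝ)) with hF
    have hsq : ∀ y, ‖F y‖ₑ ^ 2 = (Ub (d + 3) s δ).indicator (fun _ => (1 : ℝ≥0∞)) y := by
      intro y
      simp only [hF]
      by_cases hy : y ∈ Ub (d + 3) s δ
      · simp [hy]
      · simp [hy]
    have hint : ∫⁻ y in ball (0 : E (d + 3)) 1, ‖F y‖ₑ ^ 2 =
        volume (ball (0 : E (d + 3)) 1 ∩ Ub (d + 3) s δ) := by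
      simp_rw [hsq]
      rw [lintegral_indicator (Ub_meas _ _ _), setLIntegral_one,
        Measure.restrict_apply (Ub_meas _ _ _), inter_comm]
    have h0U : closedBall (0 : E (d + 3)) δ ⊆ Ub (d + 3) s δ := by
      intro y hy
      unfold Ub
      rw [mem_iUnion]
      refine ⟨0, ?_⟩
      have : lp s (0 : Fin (d + 3) → ℤ) = (0 : E (d + 3)) := by
        ext i
        rw [lp_apply]
        simp
      rwa [this]
    refine ⟨F, measurable_const.indicator (Ub_meas _ _ _), ?_, ?_, ?_, ?_⟩
    · intro x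
      obtain ⟨k, hk⟩ := lp_dense hs0 x
      refine ⟨lp s k, ?_, ?_⟩
      · refine hk.trans (le_of_eq ?_)
        rw [hcast, hs]
        field_simp
      · intro y
        simp only [hF]
        by_cases hy : y ∈ Ub (d + 3) s δ
        · rw [indicator_of_mem hy, indicator_of_mem ((Ub_add s δ k y).2 hy)]
        · rw [indicator_of_notMem hy, indicator_of_notMem (fun h => hy ((Ub_add s δ k y).1 h))]
    · rw [hint]
      refine lt_of_lt_of_le (measure_ball_pos volume (0 : E (d + 3)) hδ) (measure_mono ?_)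
      intro y hy
      refine ⟨ball_subset_ball (by linarith) hy, h0U (ball_subset_closedBall hy)⟩
    · rw [hint]
      exact (measure_mono inter_subset_left).trans_lt measure_ball_lt_top
    · rw [hint]
      have h1 : ∀ e : sphere (0 : E (d + 3)) 1,
          ENNReal.ofReal (v1 / 2 ^ (d + 2) * δ) ≤
            kmax δ ((ball (0 : E (d + 3)) 1).indicator F) e := by
        intro e
        apply kmax_ge hδ (by linarith) _ (by simp)
        intro y hy
        have h2 : y ∈ ball (0 : E (d + 3)) 1 := closedBall_subset_ball (by linarith) hy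
        rw [indicator_of_mem h2]
        simp only [hF]
        rw [indicator_of_mem (h0U hy)]
      calc ENNReal.ofReal (min (1 / 2) c2 * (1 + η ^ (d + 3) / δ ^ (d + 1))) *
            volume (ball (0 : E (d + 3)) 1 ∩ Ub (d + 3) s δ) ≤
          ENNReal.ofReal (c2 * (2 * (η ^ (d + 3) / δ ^ (d + 1)))) *
            (ENNReal.ofReal ((5 / s) ^ (d + 3) * δ ^ (d + 3)) * ENNReal.ofReal v1) := by
            have h2 : min (1 / 2) c2 ≤ c2 := min_le_right _ _
            have h3 := volume_Ub (n := d + 3) hs0 hs1 hδ (by linarith)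
            rw [hv1e] at h3
            refine mul_le_mul' (ENNReal.ofReal_le_ofReal ?_) h3
            have h4 : 1 + η ^ (d + 3) / δ ^ (d + 1) ≤ 2 * (η ^ (d + 3) / δ ^ (d + 1)) := by
              linarith
            gcongr
        _ = ENNReal.ofReal ((v1 / 2 ^ (d + 2) * δ) ^ 2 * (nn * v1)) := by
            rw [← ENNReal.ofReal_mul (by positivity), ← ENNReal.ofReal_mul (by positivity)]
            congr 1
            rw [hc2, hs]
            have e1 : 5 / (2 * η / nn) = (5 * nn / 2) / η := by field_simp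
            rw [e1, div_pow (5 * nn / 2) η]
            have e2 : δ ^ (d + 3) = δ ^ (d + 1) * δ ^ 2 := by rw [← pow_add]
            rw [e2]
            have h5 : (5 * nn / 2) ^ (d + 3) ≠ 0 := by positivity
            have h6 : η ^ (d + 3) ≠ 0 := by positivity
            have h7 : δ ^ (d + 1) ≠ 0 := by positivity
            have h8 : (2 : ℝ) ^ (d + 2) ≠ 0 := by positivity
            generalize (5 * nn / 2) ^ (d + 3) = X at h5
            generalize η ^ (d + 3) = Y at h6
            generalize δ ^ (d + 1) = Z at h7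
            generalize (2 : ℝ) ^ (d + 2) = W at h8
            field_simp
        _ = ∫⁻ _e : sphere (0 : E (d + 3)) 1, ENNReal.ofReal (v1 / 2 ^ (d + 2) * δ) ^ 2
              ∂(volume : Measure (E (d + 3))).toSphere := by
            rw [lintegral_const, hσ, ← ENNReal.ofReal_pow (by positivity),
              ← ENNReal.ofReal_mul (by positivity)]
        _ ≤ _ := by
            apply lintegral_mono
            intro e
            have := h1 e
            simp only
            gcongr

end Pool.Agent.H668.Per
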