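import Pool.Agent.H668.Per.Core

set_option autoImplicit false

/-!
# The estimate at exponent two
-/

open MeasureTheory Set Filter Topology ENNReal NNReal Metric
open scoped Pointwise

namespace Pool.Agent.H668.Per

theorem core2 (d : ℕ) : ∃ C : ℝ, 0 < C ∧ ∀ (b : Module.Basis (Fin (d + 3)) ℝ (E (d + 3)))
    (δ η : ℝ), 0 < δ → 3 * δ ≤ η → 10 * ((d : ℝ) + 3) ^ 2 * η ≤ 1 →
    (∀ x i, |b.repr x i| ≤ (3 * ((d : ℝ) + 3) * η)⁻¹ * ‖x‖) →
    (∀ i, ‖b i‖ ≤ 5 * ((d : ℝ) + 3) * η) →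
    ∀ g : E (d + 3) → ℝ, Measurable g → (∀ z, 0 ≤ g z) →
    (∀ (l : Submodule.span ℤ (Set.range b)) x, g (l +ᵥ x) = g x) →
    ∃ M : E (d + 3) → ℝ≥0∞, Measurable M ∧
      (∀ a e, ‖e‖ = 1 →
        (volume (tube δ a e))⁻¹ * ∫⁻ y in tube δ a e, ENNReal.ofReal (g y) ≤ M e) ∧
      ∫⁻ e : sphere (0 : E (d + 3)) 1, M e ^ 2 ∂(volume : Measure (E (d + 3))).toSphere ≤
        ENNReal.ofReal (C * ((1 + Real.log (1 / δ)) ^ 2 * (1 + η ^ (d + 3) / δ ^ (d + 1)))) *
          ∫⁻ y in ball (0 : E (d + 3)) 1, ENNReal.ofReal (g y ^ 2) := by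
  obtain ⟨c, hc, hpt⟩ := point_bound (d + 2)
  set nn : ℝ := (d : ℝ) + 3 with hnn
  have hnn3 : 3 ≤ nn := by
    have : (0 : ℝ) ≤ d := Nat.cast_nonneg d
    linarith
  set v1 : ℝ := (volume (ball (0 : E (d + 3)) 1)).toReal with hv1
  set vh : ℝ := (volume (ball (0 : E (d + 3)) (1 / 2))).toReal with hvh
  set vB : ℝ := (volume (closedBall (0 : E (d + 3)) 1)).toReal with hvB
  have hv1t : volume (ball (0 : E (d + 3)) 1) ≠ ∞ := measure_ball_lt_top.ne
  have hvht : volume (ball (0 : E (d + 3)) (1 / 2)) ≠ ∞ := measure_ball_lt_top.ne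
  have hv1p : 0 < v1 := ENNReal.toReal_pos (measure_ball_pos _ _ one_pos).ne' hv1t
  have hvhp : 0 < vh := ENNReal.toReal_pos (measure_ball_pos _ _ (by norm_num)).ne' hvht
  have hvB0 : 0 ≤ vB := ENNReal.toReal_nonneg
  set B : ℝ := Real.exp Real.pi * CP (d + 3) * (5 / 3) ^ (d + 3) * (9 * nn ^ 2) with hB
  have hCP : 0 < CP (d + 3) := by unfold CP; positivity
  have hB0 : 0 < B := by positivity
  have hCS := CS_pos d
  set K0 : ℝ := (80 * nn ^ 2 / 3) ^ (d + 3) * v1 / c with hK0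
  have hK0p : 0 < K0 := by positivity
  refine ⟨nn * K0 ^ 2 * vh⁻¹ * (2 * vB + 18 * (CS d * B)), by positivity, ?_⟩
  intro b δ η hδ h3 h10 hb1 hb2 g hgm hg0 hper
  have hη : 0 < η := by linarith
  have hη1 : η ≤ 1 := by nlinarith
  have hδ1 : δ < 1 := by linarith
  have hlog : 0 ≤ Real.log (1 / δ) := Real.log_nonneg (by rw [le_div_iff₀ hδ]; linarith)
  set I : ℝ≥0∞ := ∫⁻ y in ball (0 : E (d + 3)) 1, ENNReal.ofReal (g y ^ 2) with hI
  have hCpos : 0 < nn * K0 ^ 2 * vh⁻¹ * (2 * vB + 18 * (CS d * B)) *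
      ((1 + Real.log (1 / δ)) ^ 2 * (1 + η ^ (d + 3) / δ ^ (d + 1))) := by positivity
  by_cases hItop : I = ∞
  · refine ⟨fun _ => ∞, measurable_const, fun _ _ _ => le_top, ?_⟩
    rw [hItop, ENNReal.mul_top]
    · exact le_top
    · simpa using hCpos
  -- integrability on the cell
  have hg2m : Measurable (fun y => ENNReal.ofReal (g y ^ 2)) := (hgm.pow_const 2).ennreal_ofReal
  have hcell : F0 b ⊆ closedBall (0 : E (d + 3)) (((d + 3 : ℕ) : ℝ) * (5 * nn * η)) :=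
    F0_sub b hb2
  have hcell2 : F0 b ⊆ closedBall (0 : E (d + 3)) (1 / 2) := by
    refine hcell.trans (closedBall_subset_closedBall ?_)
    have : (((d + 3 : ℕ) : ℝ)) = nn := by push_cast; rfl
    rw [this]
    nlinarith
  have havg := avg_cell b hcell2 hg2m (fun l x => by rw [hper])
  set V : ℝ := (volume (F0 b)).toReal with hV
  have hVt : volume (F0 b) ≠ ∞ := (F0_lt_top b).ne
  have hVle : V ≤ (5 * nn ^ 2 * η) ^ (d + 3) * v1 := by
    have h1 : volume (F0 b) ≤ ENNReal.ofReal ((5 * nn ^ 2 * η) ^ (d + 3) * v1) := by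
      refine (measure_mono hcell).trans ?_
      rw [Measure.addHaar_closedBall _ _ (by positivity), ENNReal.ofReal_mul (by positivity), hv1,
        ENNReal.ofReal_toReal hv1t]
      gcongr
      simp only [finrank_euclideanSpace, Fintype.card_fin]
      apply le_of_eq
      congr 1
      push_cast
      rw [← hnn]
      ring
    exact ENNReal.toReal_le_of_le_ofReal (by positivity) h1
  have hfin : ∫⁻ z in F0 b, ENNReal.ofReal (g z ^ 2) ≤ ENNReal.ofReal (vh⁻¹ * V) * I := by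
    rw [← hI] at havg
    have h1 : volume (ball (0 : E (d + 3)) (1 / 2)) = ENNReal.ofReal vh := by
      rw [hvh, ENNReal.ofReal_toReal hvht]
    have h2 : volume (F0 b) = ENNReal.ofReal V := by rw [hV, ENNReal.ofReal_toReal hVt]
    rw [h1, h2] at havg
    calc ∫⁻ z in F0 b, ENNReal.ofReal (g z ^ 2) =
        ENNReal.ofReal vh⁻¹ * (ENNReal.ofReal vh * ∫⁻ z in F0 b, ENNReal.ofReal (g z ^ 2)) := by
          rw [← mul_assoc, ← ENNReal.ofReal_mul (by positivity), inv_mul_cancel₀ hvhp.ne',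
            ENNReal.ofReal_one, one_mul]
      _ ≤ ENNReal.ofReal vh⁻¹ * (ENNReal.ofReal V * I) := mul_le_mul' le_rfl havg
      _ = _ := by rw [ENNReal.ofReal_mul (by positivity), mul_assoc]
  have hg2i : IntegrableOn (fun z => g z ^ 2) (F0 b) := by
    refine ⟨(hgm.pow_const 2).aestronglyMeasurable, ?_⟩
    rw [hasFiniteIntegral_iff_ofReal (Eventually.of_forall fun z => sq_nonneg _)]
    exact hfin.trans_lt (ENNReal.mul_lt_top ENNReal.ofReal_lt_top (lt_top_iff_ne_top.2 hItop))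
  have honei : IntegrableOn (fun _ : E (d + 3) => (1 : ℝ)) (F0 b) := by
    rw [integrableOn_const_iff]
    right
    exact F0_lt_top b
  have hgi : IntegrableOn g (F0 b) := by
    refine Integrable.mono' (honei.add hg2i) hgm.aestronglyMeasurable ?_
    refine Eventually.of_forall fun z => ?_
    rw [Real.norm_eq_abs, abs_of_nonneg (hg0 z)]
    change g z ≤ 1 + g z ^ 2
    nlinarith [sq_nonneg (g z - 1), hg0 z]
  -- the parameters
  set N : ℕ := ⌊3 * η / (8 * δ)⌋₊ with hN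
  have hx1 : 1 ≤ 3 * η / (8 * δ) := by
    rw [le_div_iff₀ (by positivity)]
    linarith
  have hN1 : 1 ≤ N := Nat.one_le_floor_iff _ |>.2 hx1
  obtain ⟨R, hR⟩ : ∃ R, N = R + 1 := ⟨N - 1, by omega⟩
  have hRc : ((R : ℝ) + 1) = (N : ℝ) := by rw [hR]; push_cast; ring
  have hRle : (R : ℝ) + 1 ≤ 3 * η / (8 * δ) := by
    rw [hRc]
    exact Nat.floor_le (by positivity)
  have hRge : 3 * η / (16 * δ) ≤ (R : ℝ) + 1 := by
    rw [hRc]
    have h1 : 3 * η / (8 * δ) < N + 1 := Nat.lt_floor_add_one _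
    have h2 : (1 : ℝ) ≤ N := by exact_mod_cast hN1
    have h3 : 3 * η / (16 * δ) = (3 * η / (8 * δ)) / 2 := by field_simp; norm_num
    rw [h3]
    linarith
  set κ : ℝ := (3 * nn * η)⁻¹ with hκ
  have hκ0 : 0 < κ := by positivity
  have hcond1 : 2 * δ * κ < 1 := by
    rw [hκ, ← div_eq_mul_inv, div_lt_one (by positivity)]
    have h1 : 3 * 3 * η ≤ 3 * nn * η := by gcongr
    linarith
  have hcond2 : κ * δ ≤ 1 / (8 * ((d + 2 + 1 : ℕ) : ℝ) * ((R : ℝ) + 1)) := by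
    have h1 : (((d + 2 + 1 : ℕ) : ℝ)) = nn := by push_cast; rw [hnn]; ring
    rw [h1, le_div_iff₀ (by positivity), hκ]
    calc (3 * nn * η)⁻¹ * δ * (8 * nn * ((R : ℝ) + 1)) ≤
        (3 * nn * η)⁻¹ * δ * (8 * nn * (3 * η / (8 * δ))) := by gcongr
      _ = 1 := by field_simp
  have hpt' : ∀ a e : E (d + 3), ‖e‖ = 1 →
      (volume (tube δ a e))⁻¹ * ∫⁻ y in tube δ a e, ENNReal.ofReal (g y) ≤
      ENNReal.ofReal ((c * (((R : ℝ) + 1) * δ) ^ (d + 3))⁻¹ *
        ∑ k ∈ Q (d + 3) R, ‖gh b g k‖ * gs b k e) :=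
    hpt b κ δ R hκ0 hb1 hδ hδ1 hcond1 hcond2 g hgm hg0 hper hgi
  set c1 : ℝ := (c * (((R : ℝ) + 1) * δ) ^ (d + 3))⁻¹ with hc1
  have hc1p : 0 < c1 := by positivity
  set M : E (d + 3) → ℝ≥0∞ := fun e =>
    ENNReal.ofReal (c1 * ∑ k ∈ Q (d + 3) R, ‖gh b g k‖ * gs b k e) with hM
  have hMm : Measurable M := by
    simp only [hM]
    apply Measurable.ennreal_ofReal
    apply Continuous.measurable
    exact continuous_const.mul
      (continuous_finsetSum _ fun k _ => continuous_const.mul (gs_cont b k))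
  refine ⟨M, hMm, hpt', ?_⟩
  have hD0 : ∀ i, ‖b i‖ ≤ 5 * nn * η := hb2
  have hκD : κ * (5 * nn * η) = 5 / 3 := by
    rw [hκ]
    field_simp
  have hI1 : ∀ k l i, |(k i : ℝ)| * Iin b k l ≤ B * η := by
    intro k l i
    obtain ⟨j, hj⟩ := exists_ne i
    have h1 := Iin_one b hκ0 hb1 hD0 k l (Ne.symm hj)
    refine h1.trans ?_
    rw [hκD, hκ, div_inv_eq_mul, hB]
    have h2 : (3 * nn) ≤ 9 * nn ^ 2 := by nlinarith
    calc Real.exp Real.pi * (CP (d + 3) * (5 / 3) ^ (d + 3) * (3 * nn * η)) =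
        Real.exp Real.pi * CP (d + 3) * (5 / 3) ^ (d + 3) * (3 * nn) * η := by ring
      _ ≤ Real.exp Real.pi * CP (d + 3) * (5 / 3) ^ (d + 3) * (9 * nn ^ 2) * η := by gcongr
  have hI2 : ∀ k l i j, |((k i * l j - k j * l i : ℤ) : ℝ)| * Iin b k l ≤ B * η ^ 2 := by
    intro k l i j
    have h1 := Iin_two b hκ0 hb1 hD0 k l i j
    refine h1.trans ?_
    rw [hκD, hκ, hB]
    have h2 : 1 ≤ Real.exp Real.pi := Real.one_le_exp Real.pi_pos.le
    calc CP (d + 3) * (5 / 3) ^ (d + 3) / (3 * nn * η)⁻¹ ^ 2 =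
        1 * CP (d + 3) * (5 / 3) ^ (d + 3) * (9 * nn ^ 2) * η ^ 2 := by
          rw [inv_pow, div_inv_eq_mul]
          ring
      _ ≤ Real.exp Real.pi * CP (d + 3) * (5 / 3) ^ (d + 3) * (9 * nn ^ 2) * η ^ 2 := by gcongr
  have hsq := sq_int d R b hB0.le hη hI1 hI2 (fun k => ‖gh b g k‖) (fun k => norm_nonneg _)
  have hbes := bessel b (Q (d + 3) R) hgi hg2i
  set L : ℝ := 1 + Real.log (2 * R + 1) with hL
  set S2 : ℝ := ∑ k ∈ Q (d + 3) R, ‖gh b g k‖ ^ 2 with hS2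
  set J : ℝ := ∫ z in F0 b, g z ^ 2 with hJ
  have hJ0 : 0 ≤ J := integral_nonneg fun z => sq_nonneg _
  have hJle : ENNReal.ofReal J ≤ ENNReal.ofReal (vh⁻¹ * V) * I := by
    rw [hJ, ofReal_integral_eq_lintegral_ofReal hg2i (Eventually.of_forall fun z => sq_nonneg _)]
    exact hfin
  -- numerical estimates
  have hRη : (R : ℝ) ≤ η / δ := by
    have h1 : 3 * η / (8 * δ) ≤ η / δ := by
      rw [div_le_div_iff₀ (by positivity) hδ]
      nlinarith [mul_pos hη hδ]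
    linarith
  have hL1 : 1 ≤ L := by
    have : 0 ≤ Real.log (2 * R + 1) := Real.log_nonneg (by
      have : (0 : ℝ) ≤ R := Nat.cast_nonneg R
      linarith)
    linarith
  have hLle : L ≤ 3 * (1 + Real.log (1 / δ)) := by
    have h1 : 2 * (R : ℝ) + 1 ≤ 3 * (1 / δ) := by
      have h2 : η / δ ≤ 1 / δ := by gcongr
      have h3 : 1 ≤ 1 / δ := by rw [le_div_iff₀ hδ]; linarith
      linarith
    have h2 : Real.log (2 * (R : ℝ) + 1) ≤ Real.log (3 * (1 / δ)) :=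
      Real.log_le_log (by positivity) h1
    rw [Real.log_mul (by norm_num) (by positivity)] at h2
    have h3 : Real.log 3 ≤ 2 := by
      have := Real.log_le_sub_one_of_pos (show (0 : ℝ) < 3 by norm_num)
      linarith
    rw [hL]
    linarith
  have hηR : η + η ^ 2 * (R : ℝ) ^ (d + 1) ≤ 1 + η ^ (d + 3) / δ ^ (d + 1) := by
    have h1 : η ^ 2 * (R : ℝ) ^ (d + 1) ≤ η ^ 2 * (η / δ) ^ (d + 1) := by gcongr
    have h2 : η ^ 2 * (η / δ) ^ (d + 1) = η ^ (d + 3) / δ ^ (d + 1) := by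
      rw [div_pow, mul_div_assoc', ← pow_add]
      congr 2
      omega
    linarith
  have hfac : 2 * vB + 2 * (CS d * B * L ^ 2 * (η + η ^ 2 * (R : ℝ) ^ (d + 1))) ≤
      (2 * vB + 18 * (CS d * B)) *
        ((1 + Real.log (1 / δ)) ^ 2 * (1 + η ^ (d + 3) / δ ^ (d + 1))) := by
    have h1 : 1 ≤ (1 + Real.log (1 / δ)) ^ 2 * (1 + η ^ (d + 3) / δ ^ (d + 1)) := by
      have h2 : 1 ≤ (1 + Real.log (1 / δ)) ^ 2 := one_le_pow₀ (by linarith)
      have h3 : (0 : ℝ) ≤ η ^ (d + 3) / δ ^ (d + 1) := by positivity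
      nlinarith
    have h2 : L ^ 2 ≤ (3 * (1 + Real.log (1 / δ))) ^ 2 := by gcongr
    calc 2 * vB + 2 * (CS d * B * L ^ 2 * (η + η ^ 2 * (R : ℝ) ^ (d + 1))) ≤
        2 * vB * ((1 + Real.log (1 / δ)) ^ 2 * (1 + η ^ (d + 3) / δ ^ (d + 1))) +
        2 * (CS d * B * (3 * (1 + Real.log (1 / δ))) ^ 2 *
          (1 + η ^ (d + 3) / δ ^ (d + 1))) := by
          have h3 : 2 * vB ≤ 2 * vB *
              ((1 + Real.log (1 / δ)) ^ 2 * (1 + η ^ (d + 3) / δ ^ (d + 1))) :=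
            le_mul_of_one_le_right (by positivity) h1
          gcongr
      _ = _ := by ring
  have hcV : c1 ^ 2 * V ^ 2 ≤ K0 ^ 2 := by
    rw [← mul_pow]
    gcongr
    have h1 : 3 * η / 16 ≤ ((R : ℝ) + 1) * δ := by
      have h2 : 3 * η / (16 * δ) * δ ≤ ((R : ℝ) + 1) * δ := by gcongr
      have h3 : 3 * η / (16 * δ) * δ = 3 * η / 16 := by field_simp
      linarith
    have h2 : c1 ≤ (c * (3 * η / 16) ^ (d + 3))⁻¹ := by
      rw [hc1]
      gcongr
    calc c1 * V ≤ (c * (3 * η / 16) ^ (d + 3))⁻¹ * ((5 * nn ^ 2 * η) ^ (d + 3) * v1) := by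
          have : 0 ≤ V := ENNReal.toReal_nonneg
          gcongr
      _ = ((5 * nn ^ 2 * η) / (3 * η / 16)) ^ (d + 3) * v1 / c := by
          have hy : (3 * η / 16) ^ (d + 3) ≠ 0 := by positivity
          rw [div_pow (5 * nn ^ 2 * η) (3 * η / 16)]
          generalize (5 * nn ^ 2 * η) ^ (d + 3) = x
          generalize hy' : (3 * η / 16) ^ (d + 3) = y at hy
          field_simp
      _ = K0 := by
          have : (5 * nn ^ 2 * η) / (3 * η / 16) = 80 * nn ^ 2 / 3 := by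
            field_simp
            ring
          rw [hK0, this]
  have hV0 : 0 ≤ V := ENNReal.toReal_nonneg
  calc ∫⁻ e : sphere (0 : E (d + 3)) 1, M e ^ 2 ∂(volume : Measure (E (d + 3))).toSphere
      ≤ (((d + 2 : ℕ) : ℝ≥0∞) + 1) * ∫⁻ x in closedBall (0 : E (d + 3)) 1, M (‖x‖⁻¹ • x) ^ 2 :=
        Pool.Agent.H742R2.Kk.sphere_le_ball (d + 2) (hMm.pow_const 2)
    _ = ENNReal.ofReal nn * ∫⁻ x in closedBall (0 : E (d + 3)) 1, ENNReal.ofReal (c1 ^ 2) *
          ENNReal.ofReal ((∑ k ∈ Q (d + 3) R, ‖gh b g k‖ * gs b k (‖x‖⁻¹ • x)) ^ 2) := by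
        congr 1
        · have : nn = ((d + 3 : ℕ) : ℝ) := by push_cast; rfl
          rw [this, ENNReal.ofReal_natCast]
          push_cast
          ring
        · congr 1
          funext x
          simp only [hM]
          have h0 : 0 ≤ ∑ k ∈ Q (d + 3) R, ‖gh b g k‖ * gs b k (‖x‖⁻¹ • x) :=
            Finset.sum_nonneg fun k _ => mul_nonneg (norm_nonneg _) (gs_pos b k _).le
          rw [← ENNReal.ofReal_pow (by positivity), ← ENNReal.ofReal_mul (by positivity), mul_pow]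
    _ = ENNReal.ofReal nn * (ENNReal.ofReal (c1 ^ 2) * ∫⁻ x in closedBall (0 : E (d + 3)) 1,
          ENNReal.ofReal ((∑ k ∈ Q (d + 3) R, ‖gh b g k‖ * gs b k (‖x‖⁻¹ • x)) ^ 2)) := by
        rw [lintegral_const_mul' _ _ ENNReal.ofReal_ne_top]
    _ ≤ ENNReal.ofReal nn * (ENNReal.ofReal (c1 ^ 2) * ENNReal.ofReal
          ((2 * vB + 2 * (CS d * B * L ^ 2 * (η + η ^ 2 * (R : ℝ) ^ (d + 1)))) * S2)) :=
        mul_le_mul' le_rfl (mul_le_mul' le_rfl hsq)
    _ ≤ ENNReal.ofReal nn * (ENNReal.ofReal (c1 ^ 2) * ENNReal.ofReal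
          (((2 * vB + 18 * (CS d * B)) *
        ((1 + Real.log (1 / δ)) ^ 2 * (1 + η ^ (d + 3) / δ ^ (d + 1)))) * (V * J))) := by
        refine mul_le_mul' le_rfl (mul_le_mul' le_rfl (ENNReal.ofReal_le_ofReal ?_))
        have hS20 : 0 ≤ S2 := Finset.sum_nonneg fun k _ => sq_nonneg _
        gcongr
    _ = ENNReal.ofReal (nn * c1 ^ 2 * ((2 * vB + 18 * (CS d * B)) *
        ((1 + Real.log (1 / δ)) ^ 2 * (1 + η ^ (d + 3) / δ ^ (d + 1)))) * V) *
          ENNReal.ofReal J := by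
        rw [← ENNReal.ofReal_mul (by positivity), ← ENNReal.ofReal_mul (by positivity),
          ← ENNReal.ofReal_mul (by positivity)]
        congr 1
        ring
    _ ≤ ENNReal.ofReal (nn * c1 ^ 2 * ((2 * vB + 18 * (CS d * B)) *
        ((1 + Real.log (1 / δ)) ^ 2 * (1 + η ^ (d + 3) / δ ^ (d + 1)))) * V) *
          (ENNReal.ofReal (vh⁻¹ * V) * I) := mul_le_mul' le_rfl hJle
    _ = ENNReal.ofReal (nn * (c1 ^ 2 * V ^ 2) * vh⁻¹ * (2 * vB + 18 * (CS d * B)) *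
        ((1 + Real.log (1 / δ)) ^ 2 * (1 + η ^ (d + 3) / δ ^ (d + 1)))) * I := by
        rw [← mul_assoc, ← ENNReal.ofReal_mul (by positivity)]
        congr 2
        ring
    _ ≤ _ := by
        refine mul_le_mul' (ENNReal.ofReal_le_ofReal ?_) le_rfl
        gcongr

end Pool.Agent.H668.Per
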