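import Pool.Agent.H668.Per.Def

set_option autoImplicit false

/-!
# Gaussian integrals of two linear forms over the unit ball
-/

open MeasureTheory Set Filter Topology ENNReal NNReal Metric

namespace Pool.Agent.H668.Per

theorem det_row_one {n : ℕ} (i : Fin n) (p : Fin n → ℝ) :
    ((1 : Matrix (Fin n) (Fin n) ℝ).updateRow i p).det = p i := by
  have h := Matrix.det_updateRow_sum (1 : Matrix (Fin n) (Fin n) ℝ) i p
  have h2 : ∑ k, p k • (1 : Matrix (Fin n) (Fin n) ℝ) k = p := by
    funext r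
    rw [Finset.sum_apply]
    simp [Matrix.one_apply]
  rw [h2] at h
  simpa using h

theorem det_row_two {n : ℕ} {i j : Fin n} (hij : i ≠ j) (p q : Fin n → ℝ) (hp : p i ≠ 0) :
    (((1 : Matrix (Fin n) (Fin n) ℝ).updateRow i p).updateRow j q).det =
      p i * q j - p j * q i := by
  set M := (1 : Matrix (Fin n) (Fin n) ℝ).updateRow i p with hM
  set c : Fin n → ℝ := fun m => if m = i then q i / p i else q m - (q i / p i) * p m with hc
  have h := Matrix.det_updateRow_sum M j c
  have h2 : ∑ k, c k • M k = q := by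
    funext r
    rw [Finset.sum_apply, ← Finset.add_sum_erase _ _ (Finset.mem_univ i)]
    have h3 : ∀ k ∈ Finset.univ.erase i, (c k • M k) r =
        if k = r then (q k - (q i / p i) * p k) else 0 := by
      intro k hk
      have hki : k ≠ i := Finset.ne_of_mem_erase hk
      simp only [Pi.smul_apply, smul_eq_mul, hM, Matrix.updateRow_ne hki, hc, if_neg hki,
        Matrix.one_apply]
      split_ifs <;> simp
    rw [Finset.sum_congr rfl h3]
    simp only [Pi.smul_apply, smul_eq_mul, hM, Matrix.updateRow_self, hc, if_true]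
    by_cases hr : r = i
    · subst hr
      rw [Finset.sum_ite_eq' (Finset.univ.erase r) r]
      simp [hp]
    · rw [Finset.sum_ite_eq' (Finset.univ.erase i) r, if_pos (by simp [hr])]
      ring
  rw [h2] at h
  rw [h, hM, det_row_one]
  simp only [hc, if_neg hij.symm, smul_eq_mul]
  field_simp

/-- The constant of the pair integrals. -/
noncomputable def CP (n : ℕ) : ℝ := Real.exp (Real.pi * n) * n.factorial

/-- The integral of a Gaussian of two linear forms. -/
theorem pair_int {n : ℕ} (b : Module.Basis (Fin n) ℝ (E n)) {κ D : ℝ} (hκ : 0 < κ)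
    (hb1 : ∀ x i, |b.repr x i| ≤ κ * ‖x‖) (hb2 : ∀ i, ‖b i‖ ≤ D)
    {i j : Fin n} (hij : i ≠ j) (p q : Fin n → ℝ) (hp : p i ≠ 0) :
    ENNReal.ofReal |p i * q j - p j * q i| *
      ∫⁻ x in closedBall (0 : E n) 1, ENNReal.ofReal (Real.exp
        (-Real.pi * (∑ m, p m * (κ⁻¹ * b.repr x m)) ^ 2 -
          Real.pi * (∑ m, q m * (κ⁻¹ * b.repr x m)) ^ 2)) ≤
      ENNReal.ofReal (CP n * (κ * D) ^ n) := by
  by_cases hΔ : p i * q j - p j * q i = 0
  · rw [hΔ]; simp
  set Δ := p i * q j - p j * q i with hΔdef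
  set M := ((1 : Matrix (Fin n) (Fin n) ℝ).updateRow i p).updateRow j q with hM
  have hdetM : M.det = Δ := det_row_two hij p q hp
  set e : Module.Basis (Fin n) ℝ (E n) := (EuclideanSpace.basisFun (Fin n) ℝ).toBasis with he
  set f : E n →ₗ[ℝ] E n := e.constr ℝ b with hf
  set P : E n →ₗ[ℝ] E n := b.constr ℝ e with hP
  have hfP : f ∘ₗ P = LinearMap.id := by
    apply b.ext
    intro m
    simp [hf, hP]
  have hdet1 : LinearMap.det f * LinearMap.det P = 1 := by
    rw [← LinearMap.det_comp, hfP, LinearMap.det_id]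
  have hdetf0 : LinearMap.det f ≠ 0 := left_ne_zero_of_mul_eq_one hdet1
  have hdetP0 : LinearMap.det P ≠ 0 := right_ne_zero_of_mul_eq_one hdet1
  have hdetf : |LinearMap.det f| ≤ n.factorial * D ^ n := by
    rw [← LinearMap.det_toMatrix e f]
    have h := Matrix.det_le (A := LinearMap.toMatrix e e f)
      (abv := (AbsoluteValue.abs : AbsoluteValue ℝ ℝ)) (x := D) ?_
    · simpa using h
    · intro r s
      rw [LinearMap.toMatrix_apply]
      have h1 : f (e s) = b s := by rw [hf, Module.Basis.constr_basis]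
      rw [h1]
      have h2 : (e.repr (b s)) r = (b s) r := by simp [he]
      rw [h2]
      refine le_trans ?_ (hb2 s)
      exact PiLp.norm_apply_le (b s) r
  set Φ : E n →ₗ[ℝ] E n := (Matrix.toLin e e M) ∘ₗ (κ⁻¹ • P) with hΦ
  have hdetΦ : LinearMap.det Φ = Δ * (κ⁻¹ ^ n * LinearMap.det P) := by
    rw [hΦ, LinearMap.det_comp, LinearMap.det_toLin, LinearMap.det_smul, hdetM]
    simp
  have hdetΦ0 : LinearMap.det Φ ≠ 0 := by
    rw [hdetΦ]
    exact mul_ne_zero hΔ (mul_ne_zero (pow_ne_zero _ (inv_ne_zero hκ.ne')) hdetP0)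
  have hΦx : ∀ x m, Φ x m = (M.mulVec (fun m => κ⁻¹ * b.repr x m)) m := by
    intro x m
    have h1 : P x = ∑ m, b.repr x m • e m := by
      rw [hP, Module.Basis.constr_apply_fintype]
      rfl
    have h2 : (fun m => e.repr (κ⁻¹ • P x) m) = fun m => κ⁻¹ * b.repr x m := by
      funext r
      rw [map_smul, Finsupp.smul_apply, smul_eq_mul, h1]
      congr 1
      rw [e.repr_sum_self]
    rw [hΦ, LinearMap.comp_apply, LinearMap.smul_apply, Matrix.toLin_apply]
    rw [show (⇑(e.repr (κ⁻¹ • P x)) : Fin n → ℝ) = fun m => e.repr (κ⁻¹ • P x) m from rfl, h2]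
    simp [he, Pi.single_apply]
  -- the pointwise bound
  have hpt : ∀ x ∈ closedBall (0 : E n) 1, ENNReal.ofReal (Real.exp
        (-Real.pi * (∑ m, p m * (κ⁻¹ * b.repr x m)) ^ 2 -
          Real.pi * (∑ m, q m * (κ⁻¹ * b.repr x m)) ^ 2)) ≤
      ENNReal.ofReal (Real.exp (Real.pi * n)) *
        ENNReal.ofReal (Real.exp (-Real.pi * ‖Φ x‖ ^ 2)) := by
    intro x hx
    rw [← ENNReal.ofReal_mul (Real.exp_pos _).le, ← Real.exp_add]
    apply ENNReal.ofReal_le_ofReal
    apply Real.exp_le_exp.2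
    have h1 : ‖Φ x‖ ^ 2 ≤ (∑ m, p m * (κ⁻¹ * b.repr x m)) ^ 2 +
        (∑ m, q m * (κ⁻¹ * b.repr x m)) ^ 2 + n := by
      rw [EuclideanSpace.norm_sq_eq]
      have h2 : ∀ m ∈ Finset.univ, ‖Φ x m‖ ^ 2 ≤
          (if m = i then (∑ m, p m * (κ⁻¹ * b.repr x m)) ^ 2 else 0) +
          (if m = j then (∑ m, q m * (κ⁻¹ * b.repr x m)) ^ 2 else 0) + 1 := by
        intro m _
        rw [hΦx, Real.norm_eq_abs, sq_abs]
        by_cases hmj : m = j
        · subst hmj
          have : (M.mulVec (fun m => κ⁻¹ * b.repr x m)) m = ∑ r, q r * (κ⁻¹ * b.repr x r) := by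
            simp only [Matrix.mulVec, dotProduct, hM, Matrix.updateRow_self]
          rw [this, if_neg hij.symm, if_pos rfl]
          linarith
        · by_cases hmi : m = i
          · subst hmi
            have : (M.mulVec (fun m => κ⁻¹ * b.repr x m)) m = ∑ r, p r * (κ⁻¹ * b.repr x r) := by
              simp only [Matrix.mulVec, dotProduct, hM, Matrix.updateRow_ne hij,
                Matrix.updateRow_self]
            rw [this, if_pos rfl, if_neg hij]
            linarith
          · have : (M.mulVec (fun m => κ⁻¹ * b.repr x m)) m = κ⁻¹ * b.repr x m := by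
              simp only [Matrix.mulVec, dotProduct, hM, Matrix.updateRow_ne hmj,
                Matrix.updateRow_ne hmi, Matrix.one_apply]
              simp
            rw [this, if_neg hmi, if_neg hmj]
            have h3 : |κ⁻¹ * b.repr x m| ≤ 1 := by
              rw [abs_mul, abs_of_pos (inv_pos.2 hκ)]
              have h4 := hb1 x m
              have h5 : ‖x‖ ≤ 1 := by simpa using hx
              calc κ⁻¹ * |b.repr x m| ≤ κ⁻¹ * (κ * 1) := by
                    gcongr
                    exact h4.trans (by gcongr)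
                _ = 1 := by field_simp
            have h6 : (κ⁻¹ * b.repr x m) ^ 2 ≤ 1 := by
              rw [← sq_abs]
              exact pow_le_one₀ (abs_nonneg _) h3
            linarith
      refine (Finset.sum_le_sum h2).trans (le_of_eq ?_)
      rw [Finset.sum_add_distrib, Finset.sum_add_distrib, Finset.sum_ite_eq', Finset.sum_ite_eq']
      simp
    have := Real.pi_pos
    nlinarith
  have hmeas : Measurable (fun v : E n => ENNReal.ofReal (Real.exp (-Real.pi * ‖v‖ ^ 2))) := by
    fun_prop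
  have hgauss : ∫⁻ v : E n, ENNReal.ofReal (Real.exp (-Real.pi * ‖v‖ ^ 2)) = 1 := by
    rw [← ofReal_integral_eq_lintegral_ofReal, integral_gauss, ENNReal.ofReal_one]
    · by_contra h
      have h1 := integral_undef h
      rw [integral_gauss] at h1
      exact one_ne_zero h1
    · exact Eventually.of_forall fun v => (Real.exp_pos _).le
  have hcomp : ∫⁻ x : E n, ENNReal.ofReal (Real.exp (-Real.pi * ‖Φ x‖ ^ 2)) =
      ENNReal.ofReal |(LinearMap.det Φ)⁻¹| := by
    have h1 := Measure.map_linearMap_addHaar_eq_smul_addHaar (volume : Measure (E n)) hdetΦ0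
    have h2 : ∫⁻ x : E n, ENNReal.ofReal (Real.exp (-Real.pi * ‖Φ x‖ ^ 2)) =
        ∫⁻ v, ENNReal.ofReal (Real.exp (-Real.pi * ‖v‖ ^ 2)) ∂(Measure.map Φ volume) := by
      rw [lintegral_map hmeas (Φ.continuous_of_finiteDimensional.measurable)]
    rw [h2, h1, lintegral_smul_measure, hgauss]
    simp
  have hfin : |Δ| * (Real.exp (Real.pi * n) * |(LinearMap.det Φ)⁻¹|) ≤ CP n * (κ * D) ^ n := by
    have hΔ' : 0 < |Δ| := abs_pos.2 hΔ
    have h1 : |(LinearMap.det Φ)⁻¹| = |Δ|⁻¹ * (κ ^ n * |LinearMap.det f|) := by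
      have h2 : (LinearMap.det P)⁻¹ = LinearMap.det f := (eq_inv_of_mul_eq_one_left hdet1).symm
      rw [hdetΦ, mul_inv, mul_inv, h2, abs_mul, abs_mul, abs_inv, ← inv_pow, inv_inv,
        abs_of_pos (pow_pos hκ n)]
    rw [h1]
    calc |Δ| * (Real.exp (Real.pi * n) * (|Δ|⁻¹ * (κ ^ n * |LinearMap.det f|))) =
        Real.exp (Real.pi * n) * (κ ^ n * |LinearMap.det f|) := by field_simp
      _ ≤ Real.exp (Real.pi * n) * (κ ^ n * (n.factorial * D ^ n)) := by gcongr
      _ = _ := by unfold CP; rw [mul_pow]; ring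
  calc _ ≤ ENNReal.ofReal |Δ| * ∫⁻ x in closedBall (0 : E n) 1,
          ENNReal.ofReal (Real.exp (Real.pi * n)) *
            ENNReal.ofReal (Real.exp (-Real.pi * ‖Φ x‖ ^ 2)) := by
        exact mul_le_mul' le_rfl (setLIntegral_mono' measurableSet_closedBall hpt)
    _ ≤ ENNReal.ofReal |Δ| * ∫⁻ x : E n,
          ENNReal.ofReal (Real.exp (Real.pi * n)) *
            ENNReal.ofReal (Real.exp (-Real.pi * ‖Φ x‖ ^ 2)) := by
        exact mul_le_mul' le_rfl (setLIntegral_le_lintegral _ _)
    _ = ENNReal.ofReal (|Δ| * (Real.exp (Real.pi * n) * |(LinearMap.det Φ)⁻¹|)) := by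
        rw [lintegral_const_mul' _ _ ENNReal.ofReal_ne_top, hcomp,
          ENNReal.ofReal_mul (abs_nonneg _), ENNReal.ofReal_mul (Real.exp_pos _).le]
    _ ≤ _ := ENNReal.ofReal_le_ofReal hfin

end Pool.Agent.H668.Per
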