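import Pool.Agent.H668.Per.Pair

set_option autoImplicit false

/-!
# The bounds of the pair integrals
-/

open MeasureTheory Set Filter Topology ENNReal NNReal Metric

namespace Pool.Agent.H668.Per

/-- The Gaussian profile of a frequency. -/
noncomputable def gs {n : ℕ} (b : Module.Basis (Fin n) ℝ (E n)) (k : Fin n → ℤ) (x : E n) : ℝ :=
  Real.exp (-Real.pi * ph b k x ^ 2)

theorem gs_pos {n : ℕ} (b : Module.Basis (Fin n) ℝ (E n)) (k : Fin n → ℤ) (x : E n) :
    0 < gs b k x := Real.exp_pos _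

theorem gs_le_one {n : ℕ} (b : Module.Basis (Fin n) ℝ (E n)) (k : Fin n → ℤ) (x : E n) :
    gs b k x ≤ 1 := by
  unfold gs
  rw [Real.exp_le_one_iff]
  have := Real.pi_pos
  nlinarith [sq_nonneg (ph b k x)]

theorem gs_cont {n : ℕ} (b : Module.Basis (Fin n) ℝ (E n)) (k : Fin n → ℤ) :
    Continuous (gs b k) := by
  unfold gs
  exact Real.continuous_exp.comp (continuous_const.mul ((ph_cont b k).pow 2))

/-- The pair integral. -/
noncomputable def Iin {n : ℕ} (b : Module.Basis (Fin n) ℝ (E n)) (k l : Fin n → ℤ) : ℝ :=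
  ∫ x in closedBall (0 : E n) 1, gs b k x * gs b l x

theorem Iin_nonneg {n : ℕ} (b : Module.Basis (Fin n) ℝ (E n)) (k l : Fin n → ℤ) :
    0 ≤ Iin b k l :=
  integral_nonneg fun x => (mul_pos (gs_pos b k x) (gs_pos b l x)).le

theorem Iin_symm {n : ℕ} (b : Module.Basis (Fin n) ℝ (E n)) (k l : Fin n → ℤ) :
    Iin b k l = Iin b l k := by
  unfold Iin
  congr 1
  funext x
  ring

theorem integrableOn_gs {n : ℕ} (b : Module.Basis (Fin n) ℝ (E n)) (k l : Fin n → ℤ) :
    IntegrableOn (fun x => gs b k x * gs b l x) (closedBall (0 : E n) 1) :=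
  ((gs_cont b k).mul (gs_cont b l)).continuousOn.integrableOn_compact (isCompact_closedBall _ _)

theorem ofReal_Iin {n : ℕ} (b : Module.Basis (Fin n) ℝ (E n)) (k l : Fin n → ℤ) :
    ENNReal.ofReal (Iin b k l) =
      ∫⁻ x in closedBall (0 : E n) 1, ENNReal.ofReal (gs b k x * gs b l x) :=
  ofReal_integral_eq_lintegral_ofReal (integrableOn_gs b k l)
    (Eventually.of_forall fun x => (mul_pos (gs_pos b k x) (gs_pos b l x)).le)

theorem sum_ph {n : ℕ} (b : Module.Basis (Fin n) ℝ (E n)) {κ : ℝ} (hκ : 0 < κ) (k : Fin n → ℤ)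
    (x : E n) : ∑ m, (κ * (k m : ℝ)) * (κ⁻¹ * b.repr x m) = ph b k x := by
  unfold ph
  refine Finset.sum_congr rfl fun m _ => ?_
  field_simp

/-- The bound for two independent frequencies. -/
theorem Iin_two {n : ℕ} (b : Module.Basis (Fin n) ℝ (E n)) {κ D : ℝ} (hκ : 0 < κ)
    (hb1 : ∀ x i, |b.repr x i| ≤ κ * ‖x‖) (hb2 : ∀ i, ‖b i‖ ≤ D) (k l : Fin n → ℤ) (i j : Fin n) :
    |((k i * l j - k j * l i : ℤ) : ℝ)| * Iin b k l ≤ CP n * (κ * D) ^ n / κ ^ 2 := by
  have hn : 0 ≤ D := by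
    exact (norm_nonneg _).trans (hb2 i)
  have hC : 0 ≤ CP n * (κ * D) ^ n / κ ^ 2 := by unfold CP; positivity
  have main : ∀ i j : Fin n, i ≠ j → k i ≠ 0 →
      |((k i * l j - k j * l i : ℤ) : ℝ)| * Iin b k l ≤ CP n * (κ * D) ^ n / κ ^ 2 := by
    intro i j hij hki
    have hp : κ * (k i : ℝ) ≠ 0 := mul_ne_zero hκ.ne' (by exact_mod_cast hki)
    have h := pair_int b hκ hb1 hb2 hij (fun m => κ * (k m : ℝ)) (fun m => κ * (l m : ℝ)) hp
    simp only [sum_ph b hκ] at h
    have h1 : ∫⁻ x in closedBall (0 : E n) 1, ENNReal.ofReal (Real.exp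
        (-Real.pi * ph b k x ^ 2 - Real.pi * ph b l x ^ 2)) = ENNReal.ofReal (Iin b k l) := by
      rw [ofReal_Iin]
      congr 1
      funext x
      unfold gs
      rw [← Real.exp_add]
      congr 2
      ring
    rw [h1, ← ENNReal.ofReal_mul (abs_nonneg _)] at h
    have h2 := (ENNReal.ofReal_le_ofReal_iff (by unfold CP; positivity)).1 h
    have h3 : |κ * (k i : ℝ) * (κ * (l j : ℝ)) - κ * (k j : ℝ) * (κ * (l i : ℝ))| =
        κ ^ 2 * |((k i * l j - k j * l i : ℤ) : ℝ)| := by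
      rw [← abs_of_pos (pow_pos hκ 2), ← abs_mul]
      congr 1
      push_cast
      ring
    rw [h3] at h2
    rw [le_div_iff₀ (pow_pos hκ 2)]
    linarith
  by_cases hij : i = j
  · subst hij
    simpa using hC
  by_cases hki : k i = 0
  · by_cases hkj : k j = 0
    · rw [hki, hkj]
      simpa using hC
    · have := main j i (Ne.symm hij) hkj
      have h2 : |((k j * l i - k i * l j : ℤ) : ℝ)| = |((k i * l j - k j * l i : ℤ) : ℝ)| := by
        rw [← abs_neg]
        congr 1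
        push_cast
        ring
      rwa [h2] at this
  · exact main i j hij hki

/-- The bound for one frequency. -/
theorem Iin_one {n : ℕ} (b : Module.Basis (Fin n) ℝ (E n)) {κ D : ℝ} (hκ : 0 < κ)
    (hb1 : ∀ x i, |b.repr x i| ≤ κ * ‖x‖) (hb2 : ∀ i, ‖b i‖ ≤ D) (k l : Fin n → ℤ)
    {i j : Fin n} (hij : i ≠ j) :
    |(k i : ℝ)| * Iin b k l ≤ Real.exp Real.pi * (CP n * (κ * D) ^ n / κ) := by
  have hn : 0 ≤ D := by
    exact (norm_nonneg _).trans (hb2 i)
  have hC : 0 ≤ Real.exp Real.pi * (CP n * (κ * D) ^ n / κ) := by unfold CP; positivity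
  by_cases hki : k i = 0
  · rw [hki]; simpa using hC
  have hp : κ * (k i : ℝ) ≠ 0 := mul_ne_zero hκ.ne' (by exact_mod_cast hki)
  have h := pair_int b hκ hb1 hb2 hij (fun m => κ * (k m : ℝ)) (Pi.single j 1) hp
  simp only [sum_ph b hκ] at h
  have h1 : ENNReal.ofReal (Real.exp (-Real.pi)) * ENNReal.ofReal (Iin b k l) ≤
      ∫⁻ x in closedBall (0 : E n) 1, ENNReal.ofReal (Real.exp
        (-Real.pi * ph b k x ^ 2 - Real.pi *
          (∑ m, (Pi.single j 1 : Fin n → ℝ) m * (κ⁻¹ * b.repr x m)) ^ 2)) := by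
    rw [ofReal_Iin, ← lintegral_const_mul' _ _ ENNReal.ofReal_ne_top]
    apply setLIntegral_mono' measurableSet_closedBall
    intro x hx
    rw [← ENNReal.ofReal_mul (Real.exp_pos _).le]
    apply ENNReal.ofReal_le_ofReal
    have h2 : ∑ m, (Pi.single j 1 : Fin n → ℝ) m * (κ⁻¹ * b.repr x m) = κ⁻¹ * b.repr x j := by
      rw [Finset.sum_eq_single j]
      · simp
      · intro m _ hm
        simp [hm]
      · simp
    rw [h2]
    have h3 : |κ⁻¹ * b.repr x j| ≤ 1 := by
      rw [abs_mul, abs_of_pos (inv_pos.2 hκ)]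
      have h4 := hb1 x j
      have h5 : ‖x‖ ≤ 1 := by simpa using hx
      calc κ⁻¹ * |b.repr x j| ≤ κ⁻¹ * (κ * 1) := by
            gcongr
            exact h4.trans (by gcongr)
        _ = 1 := by field_simp
    have h6 : (κ⁻¹ * b.repr x j) ^ 2 ≤ 1 := by
      rw [← sq_abs]
      exact pow_le_one₀ (abs_nonneg _) h3
    calc Real.exp (-Real.pi) * (gs b k x * gs b l x) ≤ Real.exp (-Real.pi) * (gs b k x * 1) := by
          have := gs_le_one b l x
          have := (gs_pos b k x).le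
          gcongr
      _ = Real.exp (-Real.pi * ph b k x ^ 2 - Real.pi) := by
          rw [mul_one]
          unfold gs
          rw [← Real.exp_add]
          congr 1
          ring
      _ ≤ _ := by
          apply Real.exp_le_exp.2
          have := Real.pi_pos
          nlinarith
  have h2 : ENNReal.ofReal (κ * |(k i : ℝ)|) * (ENNReal.ofReal (Real.exp (-Real.pi)) *
      ENNReal.ofReal (Iin b k l)) ≤ ENNReal.ofReal (CP n * (κ * D) ^ n) := by
    refine le_trans (mul_le_mul' (le_of_eq ?_) h1) h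
    congr 1
    rw [Pi.single_eq_same, Pi.single_eq_of_ne hij]
    rw [mul_zero, sub_zero, mul_one, abs_mul, abs_of_pos hκ]
  rw [← ENNReal.ofReal_mul (Real.exp_pos _).le, ← ENNReal.ofReal_mul (by positivity)] at h2
  have h3 := (ENNReal.ofReal_le_ofReal_iff (by unfold CP; positivity)).1 h2
  rw [mul_div_assoc', le_div_iff₀ hκ]
  have h4 : Real.exp Real.pi * Real.exp (-Real.pi) = 1 := by rw [← Real.exp_add]; simp
  calc |(k i : ℝ)| * Iin b k l * κ = Real.exp Real.pi * (κ * |(k i : ℝ)| *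
        (Real.exp (-Real.pi) * Iin b k l)) := by
        linear_combination (-(κ * |(k i : ℝ)| * Iin b k l)) * h4
    _ ≤ _ := by gcongr

end Pool.Agent.H668.Per
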