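import Pool.Agent.H668.Per.Def

set_option autoImplicit false

/-!
# Lower bound of the Gaussian average of the kernel, and unfolding
-/

open MeasureTheory Set Filter Topology ENNReal NNReal Metric
open scoped Pointwise

namespace Pool.Agent.H668.Per

/-- The small box around `w` in direction `e`. -/
def bx {n : ℕ} (δ : ℝ) (w e : E n) : Set (E n) :=
  {v | |inner ℝ (v - w) e| ≤ δ / 2 ∧ ‖(v - w) - (inner ℝ (v - w) e : ℝ) • e‖ ≤ 1 / 2}

theorem bx_meas {n : ℕ} (δ : ℝ) (w e : E n) : MeasurableSet (bx δ w e) := by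
  have h1 : IsClosed {v : E n | |(inner ℝ (v - w) e : ℝ)| ≤ δ / 2} :=
    isClosed_le (by fun_prop) continuous_const
  have h2 : IsClosed {v : E n | ‖(v - w) - (inner ℝ (v - w) e : ℝ) • e‖ ≤ 1 / 2} :=
    isClosed_le (by fun_prop) continuous_const
  exact (h1.inter h2).measurableSet

theorem volume_bx (m : ℕ) : ∃ c : ℝ, 0 < c ∧ ∀ (δ : ℝ) (w e : E (m + 1)), 0 < δ → ‖e‖ = 1 →
    ENNReal.ofReal (c * δ) ≤ volume (bx δ w e) := by
  obtain ⟨c, hc, h⟩ := Pool.Agent.H742R2.Kk.volume_tube m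
  refine ⟨c * (1 / 2) ^ m, by positivity, ?_⟩
  intro δ w e hδ he
  have h1 := h (1 / (2 * δ)) e (δ⁻¹ • w) (by positivity) he
  have h2 : δ • {y : E (m + 1) | |inner ℝ (y - δ⁻¹ • w) e| ≤ 1 / 2 ∧
      ‖(y - δ⁻¹ • w) - (inner ℝ (y - δ⁻¹ • w) e : ℝ) • e‖ ≤ 1 / (2 * δ)} ⊆ bx δ w e := by
    rintro _ ⟨y, ⟨hy1, hy2⟩, rfl⟩
    simp only
    have h3 : δ • y - w = δ • (y - δ⁻¹ • w) := by
      rw [smul_sub, smul_inv_smul₀ hδ.ne']
    have h4 : (inner ℝ (δ • y - w) e : ℝ) = δ * inner ℝ (y - δ⁻¹ • w) e := by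
      rw [h3, real_inner_smul_left]
    refine ⟨?_, ?_⟩
    · rw [h4, abs_mul, abs_of_pos hδ]
      calc δ * |(inner ℝ (y - δ⁻¹ • w) e : ℝ)| ≤ δ * (1 / 2) := by gcongr
        _ = δ / 2 := by ring
    · rw [h4, h3, mul_smul, ← smul_sub, norm_smul, Real.norm_eq_abs, abs_of_pos hδ]
      calc δ * ‖(y - δ⁻¹ • w) - (inner ℝ (y - δ⁻¹ • w) e : ℝ) • e‖ ≤ δ * (1 / (2 * δ)) := by gcongr
        _ = 1 / 2 := by field_simp
  refine le_trans ?_ (measure_mono h2)
  rw [Measure.addHaar_smul]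
  refine le_trans ?_ (mul_le_mul' le_rfl h1)
  rw [← ENNReal.ofReal_mul (abs_nonneg _)]
  apply ENNReal.ofReal_le_ofReal
  rw [abs_of_pos (pow_pos hδ _)]
  simp only [finrank_euclideanSpace, Fintype.card_fin]
  apply le_of_eq
  rw [div_pow, div_pow, mul_pow, one_pow, pow_succ]
  field_simp

theorem tube_meas {n : ℕ} (δ : ℝ) (a e : E n) : MeasurableSet (tube δ a e) := by
  have h1 : IsClosed {v : E n | |(inner ℝ (v - a) e : ℝ)| ≤ 1 / 2} :=
    isClosed_le (by fun_prop) continuous_const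
  have h2 : IsClosed {v : E n | ‖(v - a) - (inner ℝ (v - a) e : ℝ) • e‖ ≤ δ} :=
    isClosed_le (by fun_prop) continuous_const
  exact (h1.inter h2).measurableSet

/-- Geometry of the small boxes. -/
theorem bx_sub {n : ℕ} {δ : ℝ} (hδ : 0 < δ) (hδ1 : δ < 1) {e w : E n} (he : ‖e‖ = 1)
    (hw1 : |(inner ℝ w e : ℝ)| ≤ 1 / 2) (hw2 : ‖w - (inner ℝ w e : ℝ) • e‖ ≤ δ)
    {v : E n} (hv : v ∈ bx δ ((inner ℝ w e : ℝ) • e + δ⁻¹ • (w - (inner ℝ w e : ℝ) • e)) e) :
    ‖Av δ e v - w‖ ≤ δ ∧ ‖v‖ ≤ 5 / 2 := by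
  set s : ℝ := inner ℝ w e with hs
  set w' : E n := w - s • e with hw'
  set v0 : E n := s • e + δ⁻¹ • w' with hv0
  obtain ⟨hv1, hv2⟩ := hv
  set p : E n := v - v0 with hp
  set t : ℝ := inner ℝ p e with ht
  have hee : (inner ℝ e e : ℝ) = 1 := by rw [real_inner_self_eq_norm_sq, he]; norm_num
  have hw'e : (inner ℝ e w' : ℝ) = 0 := by
    rw [hw', inner_sub_right, inner_smul_right, hee, hs, real_inner_comm]
    ring
  have h1 : Av δ e v0 = w := by
    unfold Av
    have h2 : (inner ℝ e v0 : ℝ) = s := by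
      rw [hv0, inner_add_right, inner_smul_right, inner_smul_right, hee, hw'e]
      ring
    rw [h2, hv0, smul_add, smul_inv_smul₀ hδ.ne', hw', smul_smul]
    have : δ • s • e + (w - s • e) + ((1 - δ) * s) • e = w := by
      rw [smul_smul, sub_mul, one_mul, sub_smul]
      abel
    rw [← smul_smul]
    exact this
  have h2 : Av δ e v - w = Av δ e p := by
    rw [hp, Av_sub, h1]
  have h3 : Av δ e p = t • e + δ • (p - t • e) := by
    have h5 : (inner ℝ e p : ℝ) = t := by rw [ht, real_inner_comm]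
    unfold Av
    rw [h5]
    module
  have h4 : ‖t • e‖ ≤ δ / 2 := by
    rw [norm_smul, he, mul_one, Real.norm_eq_abs]
    exact hv1
  constructor
  · rw [h2, h3]
    calc ‖t • e + δ • (p - t • e)‖ ≤ ‖t • e‖ + ‖δ • (p - t • e)‖ := norm_add_le _ _
      _ ≤ δ / 2 + δ * (1 / 2) := by
          rw [norm_smul δ, Real.norm_eq_abs, abs_of_pos hδ]
          gcongr
      _ = δ := by ring
  · have h5 : v = s • e + δ⁻¹ • w' + (t • e + (p - t • e)) := by
      rw [hp, hv0]; abel
    have h6 : ‖s • e‖ ≤ 1 / 2 := by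
      rw [norm_smul, he, mul_one, Real.norm_eq_abs]
      exact hw1
    have h7 : ‖δ⁻¹ • w'‖ ≤ 1 := by
      rw [norm_smul, Real.norm_eq_abs, abs_of_pos (inv_pos.2 hδ)]
      calc δ⁻¹ * ‖w'‖ ≤ δ⁻¹ * δ := by gcongr
        _ = 1 := by field_simp
    rw [h5]
    calc ‖s • e + δ⁻¹ • w' + (t • e + (p - t • e))‖ ≤
        (‖s • e‖ + ‖δ⁻¹ • w'‖) + (‖t • e‖ + ‖p - t • e‖) :=
          (norm_add_le _ _).trans (add_le_add (norm_add_le _ _) (norm_add_le _ _))
      _ ≤ (1 / 2 + 1) + (δ / 2 + 1 / 2) := by gcongr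
      _ ≤ 5 / 2 := by linarith

/-- The Gaussian average of the kernel dominates the number of lattice translates in the tube. -/
theorem count_le (m : ℕ) : ∃ c : ℝ, 0 < c ∧ ∀ (b : Module.Basis (Fin (m + 1)) ℝ (E (m + 1)))
    (κ δ : ℝ) (R : ℕ), 0 < κ → (∀ x i, |b.repr x i| ≤ κ * ‖x‖) → 0 < δ → δ < 1 →
    2 * δ * κ < 1 → κ * δ ≤ 1 / (8 * ((m + 1 : ℕ) : ℝ) * ((R : ℝ) + 1)) →
    ∀ (a e z : E (m + 1)), ‖e‖ = 1 →
    ENNReal.ofReal (c * (((R : ℝ) + 1) ^ (m + 1) * δ)) *
      ∑' l : Submodule.span ℤ (Set.range b), (tube δ a e).indicator 1 (l +ᵥ z) ≤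
      ∫⁻ v, ENNReal.ofReal (K b R (a + Av δ e v - z) * Real.exp (-Real.pi * ‖v‖ ^ 2)) := by
  obtain ⟨c, hc, hvol⟩ := volume_bx m
  refine ⟨c * Real.exp (-Real.pi * (5 / 2) ^ 2) / 4, by positivity, ?_⟩
  intro b κ δ R hκ hb hδ hδ1 h2 hR a e z he
  set W : Submodule.span ℤ (Set.range b) → Set (E (m + 1)) :=
    fun l => {v | ‖(a + Av δ e v) - (z + l)‖ ≤ δ} with hW
  have hWm : ∀ l, MeasurableSet (W l) := by
    intro l
    apply IsClosed.measurableSet
    have := Av_cont δ e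
    exact isClosed_le (by fun_prop) continuous_const
  have hWd : Pairwise (Function.onFun Disjoint W) := by
    intro l l' hll
    rw [Function.onFun, Set.disjoint_left]
    intro v hv hv'
    simp only [hW, Set.mem_ofPred_eq] at hv hv'
    have h3 : ‖((l : E (m + 1)) - l')‖ ≤ 2 * δ := by
      have : (l : E (m + 1)) - l' = ((a + Av δ e v) - (z + l')) - ((a + Av δ e v) - (z + l)) := by
        abel
      rw [this]
      calc _ ≤ ‖(a + Av δ e v) - (z + l')‖ + ‖(a + Av δ e v) - (z + l)‖ := norm_sub_le _ _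
        _ ≤ 2 * δ := by linarith
    have h4 : (l : E (m + 1)) - l' ≠ 0 := by
      intro h
      exact hll (Subtype.ext (sub_eq_zero.1 h))
    obtain ⟨i, hi⟩ : ∃ i, b.repr ((l : E (m + 1)) - l') i ≠ 0 := by
      by_contra h
      push Not at h
      apply h4
      apply b.repr.injective
      ext i
      rw [map_zero]
      exact h i
    have h5 : (l : E (m + 1)) - l' ∈ Submodule.span ℤ (Set.range b) :=
      Submodule.sub_mem _ l.2 l'.2
    rw [b.mem_span_iff_repr_mem ℤ _] at h5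
    obtain ⟨y, hy⟩ := h5 i
    have hy' : b.repr ((l : E (m + 1)) - l') i = (y : ℝ) := by
      rw [← hy]
      simp
    have hy0 : y ≠ 0 := by
      intro h
      apply hi
      rw [hy', h]
      simp
    have h6 : (1 : ℝ) ≤ |b.repr ((l : E (m + 1)) - l') i| := by
      rw [hy', ← Int.cast_abs]
      exact_mod_cast Int.one_le_abs hy0
    have h7 := hb ((l : E (m + 1)) - l') i
    have h8 : κ * ‖(l : E (m + 1)) - l'‖ ≤ κ * (2 * δ) := by gcongr
    linarith
  set h : E (m + 1) → ℝ≥0∞ := fun v =>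
    ENNReal.ofReal (K b R (a + Av δ e v - z) * Real.exp (-Real.pi * ‖v‖ ^ 2)) with hh
  have hcnt : Countable (Submodule.span ℤ (Set.range b)) := inferInstance
  have hone : ∀ l : Submodule.span ℤ (Set.range b),
      ENNReal.ofReal (c * Real.exp (-Real.pi * (5 / 2) ^ 2) / 4 * (((R : ℝ) + 1) ^ (m + 1) * δ)) *
        (tube δ a e).indicator 1 (l +ᵥ z) ≤ ∫⁻ v in W l, h v := by
    intro l
    by_cases hl : l +ᵥ z ∈ tube δ a e
    swap
    · rw [Set.indicator_of_notMem hl, mul_zero]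
      exact zero_le
    rw [Set.indicator_of_mem hl, Pi.one_apply, mul_one]
    have hlz : (l +ᵥ z : E (m + 1)) = (l : E (m + 1)) + z := rfl
    set w : E (m + 1) := (l +ᵥ z) - a with hw
    obtain ⟨hl1, hl2⟩ := hl
    set V := bx δ ((inner ℝ w e : ℝ) • e + δ⁻¹ • (w - (inner ℝ w e : ℝ) • e)) e with hV
    have hVW : V ⊆ W l := by
      intro v hv
      have := (bx_sub hδ hδ1 he hl1 hl2 hv).1
      simp only [hW, Set.mem_ofPred_eq]
      have h3 : a + Av δ e v - (z + l) = Av δ e v - w := by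
        rw [hw, hlz]; abel
      rw [h3]
      exact this
    calc ENNReal.ofReal (c * Real.exp (-Real.pi * (5 / 2) ^ 2) / 4 *
          (((R : ℝ) + 1) ^ (m + 1) * δ))
        = ENNReal.ofReal ((((R : ℝ) + 1) ^ (m + 1) / 4) * Real.exp (-Real.pi * (5 / 2) ^ 2)) *
            ENNReal.ofReal (c * δ) := by
          rw [← ENNReal.ofReal_mul (by positivity)]
          congr 1
          ring
      _ ≤ ENNReal.ofReal ((((R : ℝ) + 1) ^ (m + 1) / 4) * Real.exp (-Real.pi * (5 / 2) ^ 2)) *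
            volume V := mul_le_mul' le_rfl (hvol _ _ _ hδ he)
      _ = ∫⁻ v in V, ENNReal.ofReal
            ((((R : ℝ) + 1) ^ (m + 1) / 4) * Real.exp (-Real.pi * (5 / 2) ^ 2)) := by
          rw [setLIntegral_const]
      _ ≤ ∫⁻ v in V, h v := by
          apply setLIntegral_mono' (bx_meas _ _ _)
          intro v hv
          simp only [hh]
          apply ENNReal.ofReal_le_ofReal
          obtain ⟨hv1, hv2⟩ := bx_sub hδ hδ1 he hl1 hl2 hv
          have h3 : K b R (a + Av δ e v - z) = K b R (Av δ e v - w) := by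
            have h4 : a + Av δ e v - z = (Av δ e v - w) + l := by
              rw [hw, hlz]; abel
            rw [h4, K_periodic b R l.2]
          have h4 : ((R : ℝ) + 1) ^ (m + 1) / 4 ≤ K b R (a + Av δ e v - z) := by
            rw [h3]
            apply K_lower
            intro i
            refine (hb _ i).trans (le_trans ?_ hR)
            gcongr
          have h5 : Real.exp (-Real.pi * (5 / 2) ^ 2) ≤ Real.exp (-Real.pi * ‖v‖ ^ 2) := by
            apply Real.exp_le_exp.2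
            have h6 : ‖v‖ ^ 2 ≤ (5 / 2) ^ 2 := by gcongr
            have := Real.pi_pos
            nlinarith
          have h7 := K_nonneg b R (a + Av δ e v - z)
          gcongr
      _ ≤ ∫⁻ v in W l, h v := lintegral_mono_set hVW
  calc _ = ∑' l : Submodule.span ℤ (Set.range b),
        ENNReal.ofReal (c * Real.exp (-Real.pi * (5 / 2) ^ 2) / 4 *
          (((R : ℝ) + 1) ^ (m + 1) * δ)) *
        (tube δ a e).indicator 1 (l +ᵥ z) := by rw [ENNReal.tsum_mul_left]
    _ ≤ ∑' l : Submodule.span ℤ (Set.range b), ∫⁻ v in W l, h v := ENNReal.tsum_le_tsum hone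
    _ = ∫⁻ v in ⋃ l, W l, h v := (lintegral_iUnion hWm hWd h).symm
    _ ≤ ∫⁻ v, h v := setLIntegral_le_lintegral _ _

/-- Unfolding of the integral over a tube. -/
theorem unfold_tube {n : ℕ} (b : Module.Basis (Fin n) ℝ (E n)) (g : E n → ℝ≥0∞)
    (hg : Measurable g) (hper : ∀ (l : Submodule.span ℤ (Set.range b)) x, g (l +ᵥ x) = g x)
    (T : Set (E n)) (hT : MeasurableSet T) :
    ∫⁻ y in T, g y = ∫⁻ z in ZSpan.fundamentalDomain b,
      g z * ∑' l : Submodule.span ℤ (Set.range b), T.indicator 1 (l +ᵥ z) := by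
  have hF := ZSpan.isAddFundamentalDomain b (volume : Measure (E n))
  have hinv : VAddInvariantMeasure (Submodule.span ℤ (Set.range b)) (E n) volume :=
    (inferInstance : VAddInvariantMeasure (Submodule.span ℤ (Set.range b)).toAddSubgroup (E n)
      volume)
  have h1 : ∫⁻ y in T, g y = ∫⁻ y, T.indicator g y := by rw [lintegral_indicator hT]
  rw [h1, hF.lintegral_eq_tsum'' (T.indicator g)]
  have hcnt : Countable (Submodule.span ℤ (Set.range b)) := inferInstance
  have hm : ∀ l : Submodule.span ℤ (Set.range b), Measurable (fun z : E n => l +ᵥ z) := by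
    intro l
    exact measurable_const_vadd l
  have h2 : ∀ z, g z * ∑' l : Submodule.span ℤ (Set.range b), T.indicator 1 (l +ᵥ z) =
      ∑' l : Submodule.span ℤ (Set.range b), T.indicator g (l +ᵥ z) := by
    intro z
    rw [← ENNReal.tsum_mul_left]
    refine tsum_congr fun l => ?_
    by_cases hl : l +ᵥ z ∈ T
    · rw [Set.indicator_of_mem hl, Set.indicator_of_mem hl, hper, Pi.one_apply, mul_one]
    · rw [Set.indicator_of_notMem hl, Set.indicator_of_notMem hl, mul_zero]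
  simp_rw [h2]
  rw [lintegral_tsum]
  intro l
  exact ((hg.indicator hT).comp (hm l)).aemeasurable

end Pool.Agent.H668.Per
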