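import Pool.Agent.H668.Per.LatSum

set_option autoImplicit false

/-!
# The row sums and the Schur test
-/

namespace Pool.Agent.H668.Per

/-- The constant of the row sums. -/
noncomputable def CS (d : ℕ) : ℝ := 2 + ((d : ℝ) + 3) * (36 * 8 ^ (d + 1))

theorem CS_pos (d : ℕ) : 0 < CS d := by unfold CS; positivity

theorem exists_argmax {n : ℕ} (i : Fin n) (k : Fin n → ℤ) : ∃ i0, ∀ j, |k j| ≤ |k i0| := by
  obtain ⟨i0, _, h⟩ := Finset.exists_max_image (Finset.univ : Finset (Fin n)) (fun j => |k j|)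
    ⟨i, Finset.mem_univ i⟩
  exact ⟨i0, fun j => h j (Finset.mem_univ j)⟩

theorem norm_argmax {n : ℕ} {k : Fin n → ℤ} {i0 : Fin n} (h : ∀ j, |k j| ≤ |k i0|) :
    ‖k‖ = |(k i0 : ℝ)| := by
  apply le_antisymm
  · rw [pi_norm_le_iff_of_nonneg (abs_nonneg _)]
    intro j
    rw [Int.norm_eq_abs, ← Int.cast_abs, ← Int.cast_abs]
    exact_mod_cast h j
  · rw [← Int.norm_eq_abs]
    exact norm_le_pi_norm k i0

theorem inv_norm_le {n : ℕ} {l : Fin n → ℤ} (hl : l ≠ 0) (i : Fin n) :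
    ‖l‖⁻¹ ≤ 1 / max 1 |(l i : ℝ)| := by
  rw [one_div]
  apply inv_anti₀ (lt_of_lt_of_le one_pos (le_max_left _ _))
  apply max_le
  · obtain ⟨j, hj⟩ : ∃ j, l j ≠ 0 := by
      by_contra h
      push Not at h
      exact hl (funext h)
    have h1 := norm_le_pi_norm l j
    rw [Int.norm_eq_abs, ← Int.cast_abs] at h1
    refine le_trans ?_ h1
    exact_mod_cast Int.one_le_abs hj
  · rw [← Int.norm_eq_abs]
    exact norm_le_pi_norm l i

theorem row_sum (d R : ℕ) (k : Fin (d + 3) → ℤ) (hk : k ≠ 0) (hkR : k ∈ Q (d + 3) R) {B η : ℝ}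
    (hB : 0 ≤ B) (hη : 0 < η) (I : (Fin (d + 3) → ℤ) → ℝ) (hI0 : ∀ l, 0 ≤ I l)
    (hI1 : ∀ l i, |(k i : ℝ)| * I l ≤ B * η)
    (hI2 : ∀ l i j, |((k i * l j - k j * l i : ℤ) : ℝ)| * I l ≤ B * η ^ 2) :
    ∑ l ∈ (Q (d + 3) R).filter (fun l => l ≠ 0), I l * ‖l‖⁻¹ ≤
      CS d * B * (1 + Real.log (2 * R + 1)) ^ 2 * (η + η ^ 2 * (R : ℝ) ^ (d + 1)) * ‖k‖⁻¹ := by
  obtain ⟨i0, hi0⟩ := exists_argmax 0 k
  have hk0 : k i0 ≠ 0 := by
    intro h
    apply hk
    funext j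
    have := hi0 j
    rw [h, abs_zero] at this
    simpa using this
  have hR : 1 ≤ R := by
    have h1 := (mem_Q.1 hkR) i0
    have h2 := Int.one_le_abs hk0
    omega
  have hR' : (1 : ℝ) ≤ R := by exact_mod_cast hR
  have hnk := norm_argmax hi0
  set A : ℝ := |(k i0 : ℝ)| with hA
  have hA0 : 0 < A := abs_pos.2 (by exact_mod_cast hk0)
  have hAR : A ≤ R := by
    have h1 := (mem_Q.1 hkR) i0
    rw [hA, ← Int.cast_abs]
    exact_mod_cast h1
  set L : ℝ := 1 + Real.log (2 * R + 1) with hL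
  have hL1 : 1 ≤ L := by
    have : 0 ≤ Real.log (2 * R + 1) := Real.log_nonneg (by linarith)
    linarith
  have hIA : ∀ l, I l ≤ B * η / A := by
    intro l
    rw [le_div_iff₀ hA0]
    have := hI1 l i0
    linarith
  -- the parallel part
  have hpar : ∑ l ∈ (Q (d + 3) R).filter (fun l => l ≠ 0 ∧ ∀ j, tt k i0 l j = 0), I l * ‖l‖⁻¹ ≤
      (B * η / A) * (2 * L) := by
    have h1 : ∀ l ∈ (Q (d + 3) R).filter (fun l => l ≠ 0 ∧ ∀ j, tt k i0 l j = 0),
        I l * ‖l‖⁻¹ ≤ (B * η / A) * (1 / |(l i0 : ℝ)|) := by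
      intro l hl
      simp only [Finset.mem_filter] at hl
      have h2 : l i0 ≠ 0 := by
        intro h
        apply hl.2.1
        funext j
        have := hl.2.2 j
        unfold tt at this
        rw [h, mul_zero, sub_zero] at this
        exact (mul_eq_zero.1 this).resolve_left hk0
      have h3 : max 1 |(l i0 : ℝ)| = |(l i0 : ℝ)| := by
        apply max_eq_right
        rw [← Int.cast_abs]
        exact_mod_cast Int.one_le_abs h2
      have h4 := inv_norm_le hl.2.1 i0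
      rw [h3] at h4
      have h5 := hIA l
      have h6 := hI0 l
      gcongr
    refine (Finset.sum_le_sum h1).trans ?_
    rw [← Finset.mul_sum]
    have hinj : Set.InjOn (fun l : Fin (d + 3) → ℤ => l i0)
        ((Q (d + 3) R).filter (fun l => l ≠ 0 ∧ ∀ j, tt k i0 l j = 0)) := by
      intro x hx y hy h
      simp only [Finset.coe_filter, Set.mem_ofPred_eq] at hx hy
      change x i0 = y i0 at h
      funext j
      have h1 := hx.2.2 j
      have h2 := hy.2.2 j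
      unfold tt at h1 h2
      rw [h] at h1
      exact mul_left_cancel₀ hk0 (by linarith)
    have h7 : ∑ l ∈ (Q (d + 3) R).filter (fun l => l ≠ 0 ∧ ∀ j, tt k i0 l j = 0),
        1 / |(l i0 : ℝ)| ≤ 2 * L := by
      rw [← Finset.sum_image (f := fun t : ℤ => 1 / |(t : ℝ)|) hinj]
      have h8 : ((Q (d + 3) R).filter (fun l => l ≠ 0 ∧ ∀ j, tt k i0 l j = 0)).image
          (fun l : Fin (d + 3) → ℤ => l i0) ⊆
          (Finset.Icc (-(R : ℤ)) R).filter (fun t => t ≠ 0) := by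
        intro t ht
        simp only [Finset.mem_image, Finset.mem_filter] at ht
        obtain ⟨l, hl, rfl⟩ := ht
        simp only [Finset.mem_filter, Finset.mem_Icc]
        refine ⟨abs_le.1 (mem_Q.1 hl.1 i0), ?_⟩
        intro h
        apply hl.2.1
        funext j
        have := hl.2.2 j
        unfold tt at this
        rw [h, mul_zero, sub_zero] at this
        exact (mul_eq_zero.1 this).resolve_left hk0
      refine (Finset.sum_le_sum_of_subset_of_nonneg h8 (fun t _ _ => by positivity)).trans ?_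
      refine (sum_inv_Icc R).trans ?_
      have h5 : Real.log R ≤ Real.log (2 * R + 1) := Real.log_le_log (by linarith) (by linarith)
      rw [hL]
      linarith
    gcongr
  -- the classes
  have hcls : ∀ j0, i0 ≠ j0 →
      ∑ l ∈ (Q (d + 3) R).filter
        (fun l => tt k i0 l j0 ≠ 0 ∧ ∀ j, |tt k i0 l j| ≤ |tt k i0 l j0|), I l * ‖l‖⁻¹ ≤
      B * η ^ 2 * (18 * 8 ^ (d + 1) * L ^ 2 * ((R : ℝ) ^ (d + 1) / A + 1)) := by
    intro j0 hj0
    have h1 := lat_sum d R hR k i0 j0 hj0 hk0 hi0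
    rw [← hA, ← hL] at h1
    calc _ ≤ ∑ l ∈ (Q (d + 3) R).filter
            (fun l => tt k i0 l j0 ≠ 0 ∧ ∀ j, |tt k i0 l j| ≤ |tt k i0 l j0|),
          (B * η ^ 2) * (1 / (|(tt k i0 l j0 : ℝ)| * max 1 |(l i0 : ℝ)|)) := by
          refine Finset.sum_le_sum fun l hl => ?_
          simp only [Finset.mem_filter] at hl
          have hl0 : l ≠ 0 := by
            intro h
            apply hl.2.1
            simp [tt, h]
          have ht : (0 : ℝ) < |(tt k i0 l j0 : ℝ)| := abs_pos.2 (by exact_mod_cast hl.2.1)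
          have h2 := inv_norm_le hl0 i0
          have h3 : I l ≤ B * η ^ 2 / |(tt k i0 l j0 : ℝ)| := by
            rw [le_div_iff₀ ht]
            have := hI2 l i0 j0
            unfold tt
            linarith
          have h4 := hI0 l
          have h5 : (0 : ℝ) < max 1 |(l i0 : ℝ)| := lt_of_lt_of_le one_pos (le_max_left _ _)
          calc I l * ‖l‖⁻¹ ≤ (B * η ^ 2 / |(tt k i0 l j0 : ℝ)|) * (1 / max 1 |(l i0 : ℝ)|) := by
                gcongr
            _ = _ := by field_simp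
      _ = (B * η ^ 2) * ∑ l ∈ (Q (d + 3) R).filter
            (fun l => tt k i0 l j0 ≠ 0 ∧ ∀ j, |tt k i0 l j| ≤ |tt k i0 l j0|),
          (1 / (|(tt k i0 l j0 : ℝ)| * max 1 |(l i0 : ℝ)|)) := by rw [Finset.mul_sum]
      _ ≤ _ := by gcongr
  -- the cover
  have hcov : (Q (d + 3) R).filter (fun l => l ≠ 0) ⊆
      (Q (d + 3) R).filter (fun l => l ≠ 0 ∧ ∀ j, tt k i0 l j = 0) ∪
      ((Finset.univ : Finset (Fin (d + 3))).filter (fun j0 => i0 ≠ j0)).biUnion (fun j0 =>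
        (Q (d + 3) R).filter
          (fun l => tt k i0 l j0 ≠ 0 ∧ ∀ j, |tt k i0 l j| ≤ |tt k i0 l j0|)) := by
    intro l hl
    simp only [Finset.mem_filter] at hl
    simp only [Finset.mem_union, Finset.mem_filter, Finset.mem_biUnion, Finset.mem_univ, true_and]
    obtain ⟨j0, hj0⟩ := exists_argmax (0 : Fin (d + 3)) (fun j => tt k i0 l j)
    by_cases h : tt k i0 l j0 = 0
    · left
      refine ⟨hl.1, hl.2, ?_⟩
      intro j
      have := hj0 j
      rw [h, abs_zero] at this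
      simpa using this
    · right
      refine ⟨j0, ?_, hl.1, h, hj0⟩
      rintro rfl
      apply h
      unfold tt
      ring
  have hnn : ∀ l : Fin (d + 3) → ℤ, 0 ≤ I l * ‖l‖⁻¹ := fun l =>
    mul_nonneg (hI0 l) (inv_nonneg.2 (norm_nonneg _))
  have hunion : ∀ (S T : Finset (Fin (d + 3) → ℤ)), ∑ l ∈ S ∪ T, I l * ‖l‖⁻¹ ≤
      ∑ l ∈ S, I l * ‖l‖⁻¹ + ∑ l ∈ T, I l * ‖l‖⁻¹ := by
    intro S T
    have := Finset.sum_union_inter (s₁ := S) (s₂ := T) (f := fun l => I l * ‖l‖⁻¹)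
    have h2 : 0 ≤ ∑ l ∈ S ∩ T, I l * ‖l‖⁻¹ := Finset.sum_nonneg fun l _ => hnn l
    linarith
  have hbi : ∀ (J : Finset (Fin (d + 3))) (S : Fin (d + 3) → Finset (Fin (d + 3) → ℤ)),
      ∑ l ∈ J.biUnion S, I l * ‖l‖⁻¹ ≤ ∑ j ∈ J, ∑ l ∈ S j, I l * ‖l‖⁻¹ := by
    intro J S
    induction J using Finset.induction_on with
    | empty => simp
    | insert a s ha ih =>
      rw [Finset.biUnion_insert, Finset.sum_insert ha]
      refine (hunion _ _).trans ?_
      linarith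
  refine (Finset.sum_le_sum_of_subset_of_nonneg hcov (fun l _ _ => hnn l)).trans ?_
  refine (hunion _ _).trans ?_
  have h1 := hbi ((Finset.univ : Finset (Fin (d + 3))).filter (fun j0 => i0 ≠ j0)) (fun j0 =>
        (Q (d + 3) R).filter
          (fun l => tt k i0 l j0 ≠ 0 ∧ ∀ j, |tt k i0 l j| ≤ |tt k i0 l j0|))
  have h2 : ∑ j0 ∈ (Finset.univ : Finset (Fin (d + 3))).filter (fun j0 => i0 ≠ j0),
      ∑ l ∈ (Q (d + 3) R).filter
          (fun l => tt k i0 l j0 ≠ 0 ∧ ∀ j, |tt k i0 l j| ≤ |tt k i0 l j0|), I l * ‖l‖⁻¹ ≤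
      ((d : ℝ) + 3) * (B * η ^ 2 * (18 * 8 ^ (d + 1) * L ^ 2 * ((R : ℝ) ^ (d + 1) / A + 1))) := by
    refine (Finset.sum_le_sum (fun j0 hj0 => hcls j0 (Finset.mem_filter.1 hj0).2)).trans ?_
    rw [Finset.sum_const, nsmul_eq_mul]
    have h3 : (((Finset.univ : Finset (Fin (d + 3))).filter (fun j0 => i0 ≠ j0)).card : ℝ) ≤
        (d : ℝ) + 3 := by
      have := Finset.card_filter_le (Finset.univ : Finset (Fin (d + 3))) (fun j0 => i0 ≠ j0)
      rw [Finset.card_univ, Fintype.card_fin] at this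
      exact_mod_cast this
    gcongr
  have h3 : (R : ℝ) ^ (d + 1) / A + 1 ≤ 2 * (R : ℝ) ^ (d + 1) / A := by
    have h4 : (R : ℝ) ≤ (R : ℝ) ^ (d + 1) := le_self_pow₀ hR' (by omega)
    have h5 : 1 ≤ (R : ℝ) ^ (d + 1) / A := by
      rw [le_div_iff₀ hA0]
      linarith
    have h6 : 2 * (R : ℝ) ^ (d + 1) / A = (R : ℝ) ^ (d + 1) / A + (R : ℝ) ^ (d + 1) / A := by ring
    linarith
  have hL2 : L ≤ L ^ 2 := by nlinarith
  calc _ ≤ (B * η / A) * (2 * L) + ((d : ℝ) + 3) * (B * η ^ 2 *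
        (18 * 8 ^ (d + 1) * L ^ 2 * ((R : ℝ) ^ (d + 1) / A + 1))) := by
        linarith
    _ ≤ (B * η / A) * (2 * L ^ 2) + ((d : ℝ) + 3) * (B * η ^ 2 *
        (18 * 8 ^ (d + 1) * L ^ 2 * (2 * (R : ℝ) ^ (d + 1) / A))) := by gcongr
    _ = (2 * (B * η * L ^ 2) + ((d : ℝ) + 3) * (36 * 8 ^ (d + 1)) *
          (B * (η ^ 2 * (R : ℝ) ^ (d + 1)) * L ^ 2)) * A⁻¹ := by
        field_simp
        ring
    _ ≤ (CS d * (B * η * L ^ 2) + CS d * (B * (η ^ 2 * (R : ℝ) ^ (d + 1)) * L ^ 2)) * A⁻¹ := by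
        have e1 : 2 ≤ CS d := by
          unfold CS
          have : (0 : ℝ) ≤ ((d : ℝ) + 3) * (36 * 8 ^ (d + 1)) := by positivity
          linarith
        have e2 : ((d : ℝ) + 3) * (36 * 8 ^ (d + 1)) ≤ CS d := by
          unfold CS
          linarith
        gcongr
    _ = _ := by
        rw [hnk]
        ring

/-- The Schur test. -/
theorem schur {ι : Type*} (S : Finset ι) (I : ι → ι → ℝ) (w g : ι → ℝ) (M : ℝ)
    (hI0 : ∀ k l, 0 ≤ I k l) (hsym : ∀ k l, I k l = I l k) (hw : ∀ k ∈ S, 0 < w k)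
    (hrow : ∀ k ∈ S, ∑ l ∈ S, I k l * w l ≤ M * w k) :
    ∑ k ∈ S, ∑ l ∈ S, g k * g l * I k l ≤ M * ∑ k ∈ S, g k ^ 2 := by
  have h1 : ∀ k ∈ S, ∀ l ∈ S, g k * g l * I k l ≤
      (1 / 2) * (g k ^ 2 * (w l / w k) * I k l) + (1 / 2) * (g l ^ 2 * (w k / w l) * I l k) := by
    intro k hk l hl
    have hwk := hw k hk
    have hwl := hw l hl
    rw [← hsym k l]
    have h2 : g k * g l ≤ (1 / 2) * (g k ^ 2 * (w l / w k)) + (1 / 2) * (g l ^ 2 * (w k / w l)) := by
      have h3 : 0 ≤ (g k * w l - g l * w k) ^ 2 / (2 * (w k * w l)) := by positivity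
      have h4 : (g k * w l - g l * w k) ^ 2 / (2 * (w k * w l)) =
          (1 / 2) * (g k ^ 2 * (w l / w k)) + (1 / 2) * (g l ^ 2 * (w k / w l)) - g k * g l := by
        field_simp
        ring
      linarith
    have h5 := mul_le_mul_of_nonneg_right h2 (hI0 k l)
    linarith
  have h2 : ∑ k ∈ S, ∑ l ∈ S, g k ^ 2 * (w l / w k) * I k l ≤ M * ∑ k ∈ S, g k ^ 2 := by
    rw [Finset.mul_sum]
    refine Finset.sum_le_sum fun k hk => ?_
    have hwk := hw k hk
    have h3 : ∑ l ∈ S, g k ^ 2 * (w l / w k) * I k l = g k ^ 2 / w k * ∑ l ∈ S, I k l * w l := by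
      rw [Finset.mul_sum]
      refine Finset.sum_congr rfl fun l _ => ?_
      field_simp
    rw [h3]
    calc g k ^ 2 / w k * ∑ l ∈ S, I k l * w l ≤ g k ^ 2 / w k * (M * w k) := by
          gcongr
          exact hrow k hk
      _ = M * g k ^ 2 := by field_simp
  calc ∑ k ∈ S, ∑ l ∈ S, g k * g l * I k l ≤
      ∑ k ∈ S, ∑ l ∈ S, ((1 / 2) * (g k ^ 2 * (w l / w k) * I k l) +
        (1 / 2) * (g l ^ 2 * (w k / w l) * I l k)) :=
        Finset.sum_le_sum fun k hk => Finset.sum_le_sum fun l hl => h1 k hk l hl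
    _ = (1 / 2) * ∑ k ∈ S, ∑ l ∈ S, g k ^ 2 * (w l / w k) * I k l +
        (1 / 2) * ∑ k ∈ S, ∑ l ∈ S, g l ^ 2 * (w k / w l) * I l k := by
        simp only [Finset.sum_add_distrib, Finset.mul_sum]
    _ = (1 / 2) * ∑ k ∈ S, ∑ l ∈ S, g k ^ 2 * (w l / w k) * I k l +
        (1 / 2) * ∑ k ∈ S, ∑ l ∈ S, g k ^ 2 * (w l / w k) * I k l := by
        congr 2
        rw [Finset.sum_comm]
    _ ≤ _ := by linarith

end Pool.Agent.H668.Per
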