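import Pool.Agent.H668.Per.Theta
import Pool.Agent.H668.Per.Schur

set_option autoImplicit false

/-!
# The square function over the ball
-/

open MeasureTheory Set Filter Topology ENNReal NNReal Metric
open scoped Pointwise

namespace Pool.Agent.H668.Per

theorem gs_dir_le {n : ℕ} (b : Module.Basis (Fin n) ℝ (E n)) (k : Fin n → ℤ) {x : E n}
    (hx : ‖x‖ ≤ 1) : gs b k (‖x‖⁻¹ • x) ≤ gs b k x := by
  unfold gs
  apply Real.exp_le_exp.2
  rw [ph_smul]
  rcases (norm_nonneg x).eq_or_lt with h | h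
  · have hx0 : x = 0 := norm_eq_zero.1 h.symm
    subst hx0
    have : ph b k 0 = 0 := (phL b k).map_zero
    rw [this]
    simp
  · have h1 : 1 ≤ ‖x‖⁻¹ := (one_le_inv₀ h).2 hx
    have h2 : 1 ≤ ‖x‖⁻¹ ^ 2 := one_le_pow₀ h1
    have h3 := Real.pi_pos
    have h4 := sq_nonneg (ph b k x)
    rw [mul_pow]
    have h5 : ph b k x ^ 2 ≤ ‖x‖⁻¹ ^ 2 * ph b k x ^ 2 := by nlinarith
    nlinarith

/-- The square function. -/
theorem sq_int (d R : ℕ) (b : Module.Basis (Fin (d + 3)) ℝ (E (d + 3))) {B η : ℝ} (hB : 0 ≤ B)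
    (hη : 0 < η)
    (hI1 : ∀ k l i, |(k i : ℝ)| * Iin b k l ≤ B * η)
    (hI2 : ∀ k l i j, |((k i * l j - k j * l i : ℤ) : ℝ)| * Iin b k l ≤ B * η ^ 2)
    (a : (Fin (d + 3) → ℤ) → ℝ) (ha : ∀ k, 0 ≤ a k) :
    ∫⁻ x in closedBall (0 : E (d + 3)) 1,
      ENNReal.ofReal ((∑ k ∈ Q (d + 3) R, a k * gs b k (‖x‖⁻¹ • x)) ^ 2) ≤
      ENNReal.ofReal ((2 * (volume (closedBall (0 : E (d + 3)) 1)).toReal +
        2 * (CS d * B * (1 + Real.log (2 * R + 1)) ^ 2 * (η + η ^ 2 * (R : ℝ) ^ (d + 1)))) *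
        ∑ k ∈ Q (d + 3) R, a k ^ 2) := by
  set Q' := (Q (d + 3) R).filter (fun k => k ≠ 0) with hQ'
  set M : ℝ := CS d * B * (1 + Real.log (2 * R + 1)) ^ 2 * (η + η ^ 2 * (R : ℝ) ^ (d + 1)) with hM
  have hM0 : 0 ≤ M := by
    have := CS_pos d
    positivity
  set vB : ℝ := (volume (closedBall (0 : E (d + 3)) 1)).toReal with hvB
  have h0Q : (0 : Fin (d + 3) → ℤ) ∈ Q (d + 3) R := by
    rw [mem_Q]
    intro i
    simp
  have hsplit : ∀ f : (Fin (d + 3) → ℤ) → ℝ, ∑ k ∈ Q (d + 3) R, f k = f 0 + ∑ k ∈ Q', f k := by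
    intro f
    rw [hQ', ← Finset.sum_filter_add_sum_filter_not (Q (d + 3) R) (fun k => k ≠ 0) f, add_comm]
    congr 1
    have : (Q (d + 3) R).filter (fun k => ¬ k ≠ 0) = {0} := by
      ext k
      simp only [Finset.mem_filter, Finset.mem_singleton, not_not]
      constructor
      · exact fun h => h.2
      · intro h; exact ⟨h ▸ h0Q, h⟩
    rw [this, Finset.sum_singleton]
  have hpt : ∀ x ∈ closedBall (0 : E (d + 3)) 1,
      ENNReal.ofReal ((∑ k ∈ Q (d + 3) R, a k * gs b k (‖x‖⁻¹ • x)) ^ 2) ≤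
      ENNReal.ofReal (2 * a 0 ^ 2 + 2 * ∑ k ∈ Q', ∑ l ∈ Q', a k * a l * (gs b k x * gs b l x)) := by
    intro x hx
    have hx1 : ‖x‖ ≤ 1 := by simpa using hx
    apply ENNReal.ofReal_le_ofReal
    have h1 : ∑ k ∈ Q (d + 3) R, a k * gs b k (‖x‖⁻¹ • x) ≤
        a 0 + ∑ k ∈ Q', a k * gs b k x := by
      rw [hsplit]
      apply add_le_add
      · calc a 0 * gs b 0 (‖x‖⁻¹ • x) ≤ a 0 * 1 := by
              have := gs_le_one b 0 (‖x‖⁻¹ • x)
              have := ha 0
              gcongr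
          _ = a 0 := mul_one _
      · refine Finset.sum_le_sum fun k _ => ?_
        have := gs_dir_le b k hx1
        have := ha k
        gcongr
    have h0 : 0 ≤ ∑ k ∈ Q (d + 3) R, a k * gs b k (‖x‖⁻¹ • x) :=
      Finset.sum_nonneg fun k _ => mul_nonneg (ha k) (gs_pos b k _).le
    have h2 : ∑ k ∈ Q', ∑ l ∈ Q', a k * a l * (gs b k x * gs b l x) =
        (∑ k ∈ Q', a k * gs b k x) ^ 2 := by
      rw [sq, Finset.sum_mul_sum]
      refine Finset.sum_congr rfl fun k _ => Finset.sum_congr rfl fun l _ => ?_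
      ring
    rw [h2]
    set s := ∑ k ∈ Q', a k * gs b k x
    calc (∑ k ∈ Q (d + 3) R, a k * gs b k (‖x‖⁻¹ • x)) ^ 2 ≤ (a 0 + s) ^ 2 := by gcongr
      _ ≤ 2 * a 0 ^ 2 + 2 * s ^ 2 := by nlinarith [sq_nonneg (a 0 - s)]
  refine (setLIntegral_mono' measurableSet_closedBall hpt).trans ?_
  have hfin : volume (closedBall (0 : E (d + 3)) 1) < ∞ := measure_closedBall_lt_top
  have hintc : IntegrableOn (fun _ : E (d + 3) => 2 * a 0 ^ 2) (closedBall (0 : E (d + 3)) 1) := by
    rw [integrableOn_const_iff]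
    right
    exact hfin
  have hints : IntegrableOn (fun x => 2 * ∑ k ∈ Q', ∑ l ∈ Q', a k * a l * (gs b k x * gs b l x))
      (closedBall (0 : E (d + 3)) 1) := by
    refine Integrable.const_mul ?_ _
    exact integrable_finsetSum _ fun k _ => integrable_finsetSum _ fun l _ =>
      (integrableOn_gs b k l).const_mul _
  have hadd : IntegrableOn (fun x => 2 * a 0 ^ 2 +
      2 * ∑ k ∈ Q', ∑ l ∈ Q', a k * a l * (gs b k x * gs b l x))
      (closedBall (0 : E (d + 3)) 1) := hintc.add hints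
  rw [← ofReal_integral_eq_lintegral_ofReal hadd]
  · apply ENNReal.ofReal_le_ofReal
    have hval : ∫ x in closedBall (0 : E (d + 3)) 1, (2 * a 0 ^ 2 +
        2 * ∑ k ∈ Q', ∑ l ∈ Q', a k * a l * (gs b k x * gs b l x)) =
        vB * (2 * a 0 ^ 2) + 2 * ∑ k ∈ Q', ∑ l ∈ Q', a k * a l * Iin b k l := by
      rw [integral_add hintc hints]
      congr 1
      · rw [setIntegral_const]
        simp [hvB, Measure.real]
      · rw [integral_const_mul, integral_finsetSum]
        · congr 1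
          refine Finset.sum_congr rfl fun k _ => ?_
          rw [integral_finsetSum]
          · refine Finset.sum_congr rfl fun l _ => ?_
            rw [integral_const_mul]
            rfl
          · intro l _
            exact (integrableOn_gs b k l).const_mul _
        · intro k _
          exact integrable_finsetSum _ fun l _ => (integrableOn_gs b k l).const_mul _
    have hschur : ∑ k ∈ Q', ∑ l ∈ Q', a k * a l * Iin b k l ≤ M * ∑ k ∈ Q', a k ^ 2 := by
      apply schur Q' (Iin b) (fun k => ‖k‖⁻¹) a M (Iin_nonneg b) (Iin_symm b)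
      · intro k hk
        simp only [hQ', Finset.mem_filter] at hk
        exact inv_pos.2 (norm_pos_iff.2 hk.2)
      · intro k hk
        simp only [hQ', Finset.mem_filter] at hk
        exact row_sum d R k hk.2 hk.1 hB hη (Iin b k) (Iin_nonneg b k) (fun l i => hI1 k l i)
          (fun l i j => hI2 k l i j)
    have hvB0 : 0 ≤ vB := ENNReal.toReal_nonneg
    have hs0 : 0 ≤ ∑ k ∈ Q', a k ^ 2 := Finset.sum_nonneg fun k _ => sq_nonneg _
    change (∫ x in closedBall (0 : E (d + 3)) 1, (2 * a 0 ^ 2 +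
        2 * ∑ k ∈ Q', ∑ l ∈ Q', a k * a l * (gs b k x * gs b l x))) ≤ _
    rw [hval, hsplit (fun k => a k ^ 2)]
    nlinarith [mul_nonneg hvB0 hs0, mul_nonneg hM0 (sq_nonneg (a 0))]
  · refine Eventually.of_forall fun x => ?_
    simp only [Pi.zero_apply]
    have h1 : 0 ≤ ∑ k ∈ Q', ∑ l ∈ Q', a k * a l * (gs b k x * gs b l x) :=
      Finset.sum_nonneg fun k _ => Finset.sum_nonneg fun l _ =>
        mul_nonneg (mul_nonneg (ha k) (ha l)) (mul_nonneg (gs_pos b k x).le (gs_pos b l x).le)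
    positivity

end Pool.Agent.H668.Per
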