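import Pool.Agent.H668.Per.Bessel
import Pool.Agent.H668.Per.Pair2

set_option autoImplicit false

/-!
# The Fourier expansion of the Gaussian average of the kernel
-/

open MeasureTheory Set Filter Topology ENNReal NNReal Metric
open scoped Pointwise

namespace Pool.Agent.H668.Per

/-- Regrouping a sum over pairs by the difference. -/
theorem sum_diff (n R : ℕ) (h : (Fin n → ℤ) → ℝ) (hh : ∀ k, 0 ≤ h k) :
    ∑ J : Fin n → Fin (R + 1), ∑ J' : Fin n → Fin (R + 1),
      h (fun i => ((J i : ℕ) : ℤ) - ((J' i : ℕ) : ℤ)) ≤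
      ((R : ℝ) + 1) ^ n * ∑ k ∈ Q n R, h k := by
  have h1 : ∀ J : Fin n → Fin (R + 1), ∑ J' : Fin n → Fin (R + 1),
      h (fun i => ((J i : ℕ) : ℤ) - ((J' i : ℕ) : ℤ)) ≤ ∑ k ∈ Q n R, h k := by
    intro J
    have hinj : Set.InjOn (fun J' : Fin n → Fin (R + 1) =>
        (fun i => ((J i : ℕ) : ℤ) - ((J' i : ℕ) : ℤ) : Fin n → ℤ))
        (Finset.univ : Finset (Fin n → Fin (R + 1))) := by
      intro x _ y _ hxy
      funext i
      have := congrFun hxy i
      simp only at this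
      apply Fin.ext
      omega
    rw [← Finset.sum_image (f := h) hinj]
    apply Finset.sum_le_sum_of_subset_of_nonneg
    · intro k hk
      simp only [Finset.mem_image, Finset.mem_univ, true_and] at hk
      obtain ⟨J', rfl⟩ := hk
      rw [mem_Q]
      intro i
      have h2 := (J i).2
      have h3 := (J' i).2
      rw [abs_le]
      constructor <;> omega
    · intro k _ _
      exact hh k
  refine (Finset.sum_le_sum fun J _ => h1 J).trans (le_of_eq ?_)
  rw [Finset.sum_const, Finset.card_univ, Fintype.card_pi, Finset.prod_const, Finset.card_univ,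
      Fintype.card_fin, Fintype.card_fin, nsmul_eq_mul]
  push_cast
  rfl

variable {n : ℕ} (b : Module.Basis (Fin n) ℝ (E n))

/-- the Gaussian average of a character -/
noncomputable def psi (δ : ℝ) (e : E n) (k : Fin n → ℤ) : ℂ :=
  ∫ v : E n, ch b k (Av δ e v) * ((Real.exp (-Real.pi * ‖v‖ ^ 2) : ℝ) : ℂ)

theorem psi_int (δ : ℝ) (e : E n) (k : Fin n → ℤ) :
    Integrable (fun v : E n => ch b k (Av δ e v) * ((Real.exp (-Real.pi * ‖v‖ ^ 2) : ℝ) : ℂ)) :=
  integrable_gauss_ch (phL b k) δ e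

theorem psi_le (δ : ℝ) {e : E n} (he : ‖e‖ = 1) (k : Fin n → ℤ) :
    ‖psi b δ e k‖ ≤ gs b k e :=
  gauss_ch (phL b k) δ he

/-- the expansion of the integrand -/
theorem Kv_expand (R : ℕ) (δ : ℝ) (a e z v : E n) :
    ((K b R (a + Av δ e v - z) * Real.exp (-Real.pi * ‖v‖ ^ 2) : ℝ) : ℂ) =
      ((((R : ℝ) + 1) ^ n)⁻¹ : ℝ) *
      ∑ J : Fin n → Fin (R + 1), ∑ J' : Fin n → Fin (R + 1),
        (ch b (fun i => ((J i : ℕ) : ℤ) - ((J' i : ℕ) : ℤ)) a *
          ch b (fun i => ((J i : ℕ) : ℤ) - ((J' i : ℕ) : ℤ)) (-z)) *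
        (ch b (fun i => ((J i : ℕ) : ℤ) - ((J' i : ℕ) : ℤ)) (Av δ e v) *
          ((Real.exp (-Real.pi * ‖v‖ ^ 2) : ℝ) : ℂ)) := by
  rw [Complex.ofReal_mul, K_expand, mul_assoc, Finset.sum_mul]
  congr 1
  refine Finset.sum_congr rfl fun J _ => ?_
  rw [Finset.sum_mul]
  refine Finset.sum_congr rfl fun J' _ => ?_
  rw [sub_eq_add_neg, ch_add, ch_add]
  ring

theorem Kv_int (R : ℕ) (δ : ℝ) (a e z : E n) :
    Integrable (fun v => K b R (a + Av δ e v - z) * Real.exp (-Real.pi * ‖v‖ ^ 2)) := by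
  have h : Integrable (fun v =>
      ((K b R (a + Av δ e v - z) * Real.exp (-Real.pi * ‖v‖ ^ 2) : ℝ) : ℂ)) := by
    simp_rw [Kv_expand]
    refine Integrable.const_mul ?_ _
    exact integrable_finsetSum _ fun J _ => integrable_finsetSum _ fun J' _ =>
      (psi_int b δ e _).const_mul _
  have h2 := h.re
  refine h2.congr (Eventually.of_forall fun v => ?_)
  simp only [RCLike.re_to_complex, Complex.ofReal_re]

/-- the Gaussian average of the kernel -/
noncomputable def Th (R : ℕ) (δ : ℝ) (a e z : E n) : ℝ :=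
  ∫ v, K b R (a + Av δ e v - z) * Real.exp (-Real.pi * ‖v‖ ^ 2)

theorem Th_nonneg (R : ℕ) (δ : ℝ) (a e z : E n) : 0 ≤ Th b R δ a e z :=
  integral_nonneg fun _ => mul_nonneg (K_nonneg b R _) (Real.exp_pos _).le

theorem Th_expand (R : ℕ) (δ : ℝ) (a e z : E n) :
    (Th b R δ a e z : ℂ) = ((((R : ℝ) + 1) ^ n)⁻¹ : ℝ) *
      ∑ J : Fin n → Fin (R + 1), ∑ J' : Fin n → Fin (R + 1),
        (ch b (fun i => ((J i : ℕ) : ℤ) - ((J' i : ℕ) : ℤ)) a *
          psi b δ e (fun i => ((J i : ℕ) : ℤ) - ((J' i : ℕ) : ℤ))) *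
        ch b (fun i => ((J i : ℕ) : ℤ) - ((J' i : ℕ) : ℤ)) (-z) := by
  unfold Th
  rw [← integral_complex_ofReal]
  simp_rw [Kv_expand]
  rw [integral_const_mul, integral_finsetSum]
  · congr 1
    refine Finset.sum_congr rfl fun J _ => ?_
    rw [integral_finsetSum]
    · refine Finset.sum_congr rfl fun J' _ => ?_
      rw [integral_const_mul]
      unfold psi
      ring
    · intro J' _
      exact (psi_int b δ e _).const_mul _
  · intro J _
    exact integrable_finsetSum _ fun J' _ => (psi_int b δ e _).const_mul _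

/-- The pairing of a function on the fundamental cell with the average of the kernel. -/
theorem theta_le (R : ℕ) (δ : ℝ) {a e : E n} (he : ‖e‖ = 1) {g : E n → ℝ} (hg0 : ∀ z, 0 ≤ g z)
    (hg : IntegrableOn g (F0 b)) :
    ∫⁻ z in F0 b, ENNReal.ofReal (g z) *
      ∫⁻ v, ENNReal.ofReal (K b R (a + Av δ e v - z) * Real.exp (-Real.pi * ‖v‖ ^ 2)) ≤
      ENNReal.ofReal (∑ k ∈ Q n R, ‖gh b g k‖ * gs b k e) := by
  have h1 : ∀ z, ∫⁻ v, ENNReal.ofReal (K b R (a + Av δ e v - z) *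
      Real.exp (-Real.pi * ‖v‖ ^ 2)) = ENNReal.ofReal (Th b R δ a e z) := by
    intro z
    unfold Th
    rw [ofReal_integral_eq_lintegral_ofReal (Kv_int b R δ a e z)]
    exact Eventually.of_forall fun v => mul_nonneg (K_nonneg b R _) (Real.exp_pos _).le
  have h2 : ∀ z, ENNReal.ofReal (g z) * ENNReal.ofReal (Th b R δ a e z) =
      ENNReal.ofReal (g z * Th b R δ a e z) := fun z => (ENNReal.ofReal_mul (hg0 z)).symm
  simp_rw [h1, h2]
  have hgc : IntegrableOn (fun z => (g z : ℂ)) (F0 b) := hg.ofReal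
  have hexp : ∀ z, ((g z * Th b R δ a e z : ℝ) : ℂ) = ((((R : ℝ) + 1) ^ n)⁻¹ : ℝ) *
      ∑ J : Fin n → Fin (R + 1), ∑ J' : Fin n → Fin (R + 1),
        (ch b (fun i => ((J i : ℕ) : ℤ) - ((J' i : ℕ) : ℤ)) a *
          psi b δ e (fun i => ((J i : ℕ) : ℤ) - ((J' i : ℕ) : ℤ))) *
        ((g z : ℂ) * ch b (fun i => ((J i : ℕ) : ℤ) - ((J' i : ℕ) : ℤ)) (-z)) := by
    intro z
    rw [Complex.ofReal_mul, Th_expand, mul_left_comm, Finset.mul_sum]
    congr 1
    refine Finset.sum_congr rfl fun J _ => ?_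
    rw [Finset.mul_sum]
    refine Finset.sum_congr rfl fun J' _ => ?_
    ring
  have hint : IntegrableOn (fun z => ((g z * Th b R δ a e z : ℝ) : ℂ)) (F0 b) := by
    simp_rw [hexp]
    refine Integrable.const_mul ?_ _
    exact integrable_finsetSum _ fun J _ => integrable_finsetSum _ fun J' _ =>
      (integrableOn_ch_neg b hgc _).const_mul _
  have hintr : IntegrableOn (fun z => g z * Th b R δ a e z) (F0 b) := by
    have h3 := hint.re
    refine h3.congr (Eventually.of_forall fun v => ?_)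
    simp only [RCLike.re_to_complex, Complex.ofReal_re]
  rw [← ofReal_integral_eq_lintegral_ofReal hintr
    (Eventually.of_forall fun z => mul_nonneg (hg0 z) (Th_nonneg b R δ a e z))]
  apply ENNReal.ofReal_le_ofReal
  have hval : ((∫ z in F0 b, g z * Th b R δ a e z : ℝ) : ℂ) = ((((R : ℝ) + 1) ^ n)⁻¹ : ℝ) *
      ∑ J : Fin n → Fin (R + 1), ∑ J' : Fin n → Fin (R + 1),
        (ch b (fun i => ((J i : ℕ) : ℤ) - ((J' i : ℕ) : ℤ)) a *
          psi b δ e (fun i => ((J i : ℕ) : ℤ) - ((J' i : ℕ) : ℤ))) *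
        gh b g (fun i => ((J i : ℕ) : ℤ) - ((J' i : ℕ) : ℤ)) := by
    rw [← integral_complex_ofReal]
    simp_rw [hexp]
    rw [integral_const_mul, integral_finsetSum]
    · congr 1
      refine Finset.sum_congr rfl fun J _ => ?_
      rw [integral_finsetSum]
      · refine Finset.sum_congr rfl fun J' _ => ?_
        rw [integral_const_mul]
        rfl
      · intro J' _
        exact (integrableOn_ch_neg b hgc _).const_mul _
    · intro J _
      exact integrable_finsetSum _ fun J' _ => (integrableOn_ch_neg b hgc _).const_mul _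
  have hR : (0 : ℝ) < ((R : ℝ) + 1) ^ n := by positivity
  calc (∫ z in F0 b, g z * Th b R δ a e z) ≤
      ‖((∫ z in F0 b, g z * Th b R δ a e z : ℝ) : ℂ)‖ := by
        rw [Complex.norm_real]
        exact le_abs_self _
    _ ≤ (((R : ℝ) + 1) ^ n)⁻¹ * ∑ J : Fin n → Fin (R + 1), ∑ J' : Fin n → Fin (R + 1),
        ‖gh b g (fun i => ((J i : ℕ) : ℤ) - ((J' i : ℕ) : ℤ))‖ *
          gs b (fun i => ((J i : ℕ) : ℤ) - ((J' i : ℕ) : ℤ)) e := by
        rw [hval, norm_mul, Complex.norm_real, Real.norm_eq_abs, abs_of_pos (inv_pos.2 hR)]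
        gcongr
        refine (norm_sum_le _ _).trans (Finset.sum_le_sum fun J _ => ?_)
        refine (norm_sum_le _ _).trans (Finset.sum_le_sum fun J' _ => ?_)
        rw [norm_mul, norm_mul, ch_norm, one_mul, mul_comm]
        gcongr
        exact psi_le b δ he _
    _ ≤ (((R : ℝ) + 1) ^ n)⁻¹ * (((R : ℝ) + 1) ^ n * ∑ k ∈ Q n R, ‖gh b g k‖ * gs b k e) := by
        gcongr
        exact sum_diff n R (fun k => ‖gh b g k‖ * gs b k e)
          (fun k => mul_nonneg (norm_nonneg _) (gs_pos b k e).le)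
    _ = _ := by field_simp

end Pool.Agent.H668.Per
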