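import Pool.Agent.H668.Per.Main
import Pool.Agent.H668.Per.Bas

set_option autoImplicit false

/-!
# The upper bound for functions with a dense group of periods
-/

open MeasureTheory Set Filter Topology ENNReal NNReal Metric
open scoped Pointwise

namespace Pool.Agent.H668.Per

/-- The Kakeya maximal function. -/
noncomputable def kmax {n : ℕ} (δ : ℝ) (f : E n → ℝ) (e : E n) : ℝ≥0∞ :=
  ⨆ a : E n, (volume (tube δ a e))⁻¹ * ∫⁻ y in tube δ a e, ‖f y‖ₑ

theorem upper (d : ℕ) : ∃ C c : ℝ, 0 < C ∧ 0 < c ∧ ∀ (δ η p : ℝ) (F : E (d + 3) → ℝ),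
    0 < δ → δ ≤ c → η ≤ c → 2 ≤ p → Measurable F →
    (∀ x, ∃ v, ‖x - v‖ ≤ η ∧ ∀ y, F (y + v) = F y) →
    ∫⁻ e : sphere (0 : E (d + 3)) 1, kmax δ F e ^ p ∂(volume : Measure (E (d + 3))).toSphere ≤
      ENNReal.ofReal (C * (1 + Real.log (1 / δ)) ^ 2 * (1 + η ^ (d + 3) / δ ^ (d + 1))) *
        ∫⁻ y in ball (0 : E (d + 3)) 1, ‖F y‖ₑ ^ p := by
  obtain ⟨C, hC, hcore⟩ := core2 d
  set nn : ℝ := (d : ℝ) + 3 with hnn
  have hnn3 : 3 ≤ nn := by
    have : (0 : ℝ) ≤ d := Nat.cast_nonneg d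
    linarith
  refine ⟨C * (1 + 3 ^ (d + 3)), 1 / (30 * nn ^ 2), by positivity, by positivity, ?_⟩
  intro δ η p F hδ hδc hηc hp hF hper
  have hη0 : 0 ≤ η := by
    obtain ⟨v, hv, _⟩ := hper 0
    exact (norm_nonneg _).trans hv
  set η' : ℝ := max η (3 * δ) with hη'
  have h3δ : 3 * δ ≤ η' := le_max_right _ _
  have hη'0 : 0 < η' := by linarith
  have h10 : 10 * nn ^ 2 * η' ≤ 1 := by
    have h1 : η' ≤ 1 / (10 * nn ^ 2) := by
      apply max_le
      · refine hηc.trans ?_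
        gcongr
        norm_num
      · have : 3 * (1 / (30 * nn ^ 2)) = 1 / (10 * nn ^ 2) := by
          field_simp
          norm_num
        rw [← this]
        linarith
    rw [le_div_iff₀ (by positivity)] at h1
    linarith
  have hper' : ∀ x, ∃ v, ‖x - v‖ ≤ η' ∧ ∀ y, F (y + v) = F y := by
    intro x
    obtain ⟨v, hv1, hv2⟩ := hper x
    exact ⟨v, hv1.trans (le_max_left _ _), hv2⟩
  obtain ⟨b, hbP, hb1, hb2⟩ := exists_basis d hη'0 (fun v => ∀ y, F (y + v) = F y) hper'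
  have hq : 1 ≤ p / 2 := by linarith
  have hp0 : 0 < p := by linarith
  set g : E (d + 3) → ℝ := fun y => ‖F y‖ ^ (p / 2) with hg
  have hgm : Measurable g := hF.norm.pow_const _
  have hg0 : ∀ z, 0 ≤ g z := fun z => by positivity
  have hgper : ∀ (l : Submodule.span ℤ (Set.range b)) x, g (l +ᵥ x) = g x := by
    intro l x
    simp only [hg]
    rw [per_span F b hbP l x]
  obtain ⟨M, hMm, hMle, hMint⟩ := hcore b δ η' hδ h3δ h10 hb1 hb2 g hgm hg0 hgper
  have hg1 : ∀ y, ENNReal.ofReal (g y) = ‖F y‖ₑ ^ (p / 2) := by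
    intro y
    simp only [hg]
    rw [← ENNReal.ofReal_rpow_of_nonneg (norm_nonneg _) (by positivity), ofReal_norm]
  have hg2 : ∀ y, ENNReal.ofReal (g y ^ 2) = ‖F y‖ₑ ^ p := by
    intro y
    rw [ENNReal.ofReal_pow (hg0 y), hg1, ← ENNReal.rpow_natCast, ← ENNReal.rpow_mul]
    congr 1
    push_cast
    ring
  have hpt : ∀ e : sphere (0 : E (d + 3)) 1, kmax δ F e ^ p ≤ M e ^ 2 := by
    intro e
    have he : ‖(e : E (d + 3))‖ = 1 := by simp
    have h1 : kmax δ F e ≤ (M e ^ 2) ^ p⁻¹ := by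
      unfold kmax
      apply iSup_le
      intro a
      set T := tube δ a (e : E (d + 3)) with hT
      have hTt : volume T ≠ ∞ := (tube_finite δ a he).ne
      have hT0 : volume T ≠ 0 := by
        obtain ⟨c', hc', hvol⟩ := Pool.Agent.H742R2.Kk.volume_tube (d + 2)
        have h2 := hvol δ e a hδ he
        intro h3
        have h4 : ENNReal.ofReal (c' * δ ^ (d + 2)) ≤ volume T := h2
        rw [h3] at h4
        have h5 : 0 < c' * δ ^ (d + 2) := by positivity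
        simp only [nonpos_iff_eq_zero, ENNReal.ofReal_eq_zero] at h4
        linarith
      have h2 := jensen hT0 hTt hq hF
      have h3 := hMle a e he
      simp only [hg1] at h3
      have h4 : ((volume T)⁻¹ * ∫⁻ y in T, ‖F y‖ₑ) ^ (p / 2) ≤ M e := h2.trans h3
      set x := (volume T)⁻¹ * ∫⁻ y in T, ‖F y‖ₑ with hx
      have h5 : x = ((x ^ (p / 2)) ^ 2) ^ p⁻¹ := by
        rw [← ENNReal.rpow_natCast, ← ENNReal.rpow_mul, ← ENNReal.rpow_mul]
        have : p / 2 * (((2 : ℕ) : ℝ) * p⁻¹) = 1 := by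
          push_cast
          field_simp
        rw [this, ENNReal.rpow_one]
      rw [h5]
      gcongr
    calc kmax δ F e ^ p ≤ ((M e ^ 2) ^ p⁻¹) ^ p := by gcongr
      _ = M e ^ 2 := by rw [← ENNReal.rpow_mul, inv_mul_cancel₀ hp0.ne', ENNReal.rpow_one]
  refine (lintegral_mono hpt).trans (hMint.trans ?_)
  simp only [hg2]
  refine mul_le_mul' (ENNReal.ofReal_le_ofReal ?_) le_rfl
  have h1 : η' ^ (d + 3) / δ ^ (d + 1) ≤ η ^ (d + 3) / δ ^ (d + 1) + 3 ^ (d + 3) := by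
    have h2 : η' ^ (d + 3) ≤ η ^ (d + 3) + (3 * δ) ^ (d + 3) := by
      rcases max_cases η (3 * δ) with ⟨h, _⟩ | ⟨h, _⟩
      · rw [hη', h]
        have : 0 ≤ (3 * δ) ^ (d + 3) := by positivity
        linarith
      · rw [hη', h]
        have : 0 ≤ η ^ (d + 3) := by positivity
        linarith
    have h3 : (3 * δ) ^ (d + 3) / δ ^ (d + 1) ≤ 3 ^ (d + 3) := by
      rw [div_le_iff₀ (by positivity), mul_pow]
      have h4 : δ ^ (d + 3) ≤ δ ^ (d + 1) := by
        apply pow_le_pow_of_le_one hδ.le _ (by omega)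
        nlinarith
      gcongr
    calc η' ^ (d + 3) / δ ^ (d + 1) ≤ (η ^ (d + 3) + (3 * δ) ^ (d + 3)) / δ ^ (d + 1) := by gcongr
      _ = η ^ (d + 3) / δ ^ (d + 1) + (3 * δ) ^ (d + 3) / δ ^ (d + 1) := add_div _ _ _
      _ ≤ _ := by linarith
  have h2 : 1 + η' ^ (d + 3) / δ ^ (d + 1) ≤
      (1 + 3 ^ (d + 3)) * (1 + η ^ (d + 3) / δ ^ (d + 1)) := by
    have h3 : 0 ≤ η ^ (d + 3) / δ ^ (d + 1) := by positivity
    have h4 : (0 : ℝ) ≤ 3 ^ (d + 3) := by positivity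
    nlinarith [mul_nonneg h3 h4]
  calc C * ((1 + Real.log (1 / δ)) ^ 2 * (1 + η' ^ (d + 3) / δ ^ (d + 1))) ≤
      C * ((1 + Real.log (1 / δ)) ^ 2 * ((1 + 3 ^ (d + 3)) * (1 + η ^ (d + 3) / δ ^ (d + 1)))) := by
        gcongr
    _ = _ := by ring

end Pool.Agent.H668.Per
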